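import Pool.Agent.H88BC.Tree

/-!
# The counting condition
-/

set_option autoImplicit false
set_option linter.unusedSectionVars false

open Finset Classical

namespace Pool.Agent.H88BC

lemma arith_key (a b k kT kF DT DF QT QF lT lF : ℤ) (ha : 1 ≤ a) (hk : 1 ≤ k) (hkk : kT + kF = k)
    (h1 : a * (DT + (k - 1) + kT) + kT ≤ b * kT) (h2 : a * (DF + (k - 1) + kF) + kF ≤ b * kF)
    (h3 : a * QT + kT ≤ b * kT) (h4 : a * QF + kF ≤ b * kF)
    (h5 : a * (QT + QF + (k - 1)) + 1 ≤ b * k) (h6 : DT + DF + k ≤ a)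
    (hT0 : 0 ≤ lT) (hT1 : lT ≤ a * a) (hF0 : 0 ≤ lF) (hF1 : lF ≤ a * a) :
    a * a * (QT + QF) + a * a * (k - 1) + ((lT + 1) * DT + (lF + 1) * DF) ≤
      a * b * k + (lT * (QT - kT) + lF * (QF - kF)) := by
  obtain ⟨S, hS⟩ : ∃ S, S = b * k - a * (QT + QF + (k - 1)) - 1 := ⟨_, rfl⟩
  have hS0 : 0 ≤ S := by rw [hS]; linarith
  obtain ⟨GT, hGT⟩ : ∃ GT, GT = DT - QT + kT := ⟨_, rfl⟩
  obtain ⟨GF, hGF⟩ : ∃ GF, GF = DF - QF + kF := ⟨_, rfl⟩
  have ka : a * k = a * kT + a * kF := by rw [← hkk]; ring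
  have kb : b * k = b * kT + b * kF := by rw [← hkk]; ring
  have e1 : a * GT ≤ S := by
    rw [hGT, hS]
    linarith
  have e2 : a * GF ≤ S := by
    rw [hGF, hS]
    linarith
  have e0 : 0 ≤ a * (k - 1) := mul_nonneg (by linarith) (by linarith)
  have e3 : a * (GT + GF) ≤ S := by
    rw [hGT, hGF, hS]
    linarith
  have e4 : a * (lT * GT + lF * GF) ≤ a * (a * S) := by
    rcases le_total lT lF with h | h
    · have f1 : lT * (a * (GT + GF)) ≤ lT * S := mul_le_mul_of_nonneg_left e3 hT0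
      have f2 : (lF - lT) * (a * GF) ≤ (lF - lT) * S :=
        mul_le_mul_of_nonneg_left e2 (by linarith)
      have f3 : lF * S ≤ a * a * S := mul_le_mul_of_nonneg_right hF1 hS0
      linarith
    · have f1 : lF * (a * (GT + GF)) ≤ lF * S := mul_le_mul_of_nonneg_left e3 hF0
      have f2 : (lT - lF) * (a * GT) ≤ (lT - lF) * S :=
        mul_le_mul_of_nonneg_left e1 (by linarith)
      have f3 : lT * S ≤ a * a * S := mul_le_mul_of_nonneg_right hT1 hS0
      linarith
  have e5 : lT * GT + lF * GF ≤ a * S := le_of_mul_le_mul_left e4 (by linarith)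
  rw [hGT, hGF, hS] at e5
  nlinarith

section cond

variable {U : Type} [Fintype U] {F : SimpleGraph U}

lemma sum_bd (A : Finset U) (f : U → ℕ) : ∑ e ∈ bd F A, f e.2 =
    ∑ u ∈ A, ((Aᶜ).filter (fun x => F.Adj u x)).card * f u := by
  rw [← Finset.sum_fiberwise_of_maps_to (s := bd F A) (t := A) (g := fun e => e.2)
    (fun e he => (mem_bd.mp he).2.1)]
  refine Finset.sum_congr rfl fun u hu => ?_
  have h1 : ∑ e ∈ (bd F A).filter (fun e => e.2 = u), f e.2 =
      ∑ _e ∈ (bd F A).filter (fun e => e.2 = u), f u :=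
    Finset.sum_congr rfl fun e he => by rw [(mem_filter.mp he).2]
  rw [h1, Finset.sum_const, smul_eq_mul]
  congr 1
  refine Finset.card_bij (fun e _ => e.1) ?_ ?_ ?_
  · intro e he
    rw [mem_filter, mem_bd] at he
    rw [mem_filter, mem_compl]
    exact ⟨he.1.1, by rw [← he.2]; exact he.1.2.2.symm⟩
  · intro e he e' he' h
    rw [mem_filter] at he he'
    exact Prod.ext h (he.2.trans he'.2.symm)
  · intro x hx
    rw [mem_filter, mem_compl] at hx
    exact ⟨(x, u), by
      rw [mem_filter, mem_bd]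
      exact ⟨⟨hx.1, hu, hx.2.symm⟩, rfl⟩, rfl⟩

lemma card_bd (A : Finset U) : (bd F A).card =
    ∑ u ∈ A, ((Aᶜ).filter (fun x => F.Adj u x)).card := by
  have h := sum_bd (F := F) A (fun _ => 1)
  simpa using h

lemma card_bd_single (u : U) : (bd F {u}).card = (univ.filter (fun x => F.Adj u x)).card := by
  rw [card_bd, Finset.sum_singleton]
  congr 1
  ext x
  rw [mem_filter, mem_filter, mem_compl, mem_singleton]
  constructor
  · rintro ⟨_, h⟩
    exact ⟨mem_univ _, h⟩
  · rintro ⟨_, h⟩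
    exact ⟨h.ne', h⟩

lemma deg_split (A : Finset U) (u : U) : (univ.filter (fun x => F.Adj u x)).card =
    ((Aᶜ).filter (fun x => F.Adj u x)).card + (A.filter (fun x => F.Adj u x)).card := by
  rw [← Finset.card_union_of_disjoint]
  · congr 1
    rw [← Finset.filter_union, union_comm, union_compl]
  · exact Finset.disjoint_filter_filter disjoint_compl_left

theorem cond_N1 (hF : F.IsAcyclic) (hF' : F.Preconnected) (col : U → Bool)
    (hcol : ∀ x y, F.Adj x y → col x ≠ col y) (q' : U → ℕ) (a b : ℕ) (ha : a = Fintype.card U)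
    (hS1 : ∀ k0 K₁, Grow F k0 K₁ → K₁ ≠ univ →
      a * (∑ u ∈ K₁, (q' u + 1) + (K₁.card - 1)) + 1 ≤ b * K₁.card)
    (hS2 : ∀ u, a * ((univ.filter (fun x => F.Adj u x)).card + 1) + 1 ≤ b)
    (hS3 : b + 1 = a + ∑ u, (q' u + 1)) (ℓ : Bool → ℕ) (hℓ : ∀ c, ℓ c ≤ a * a) (k0 : U)
    (K₁ : Finset U) (hK₁ : Grow F k0 K₁) :
    ∑ u ∈ K₁, a * a * (q' u + 1) + a * a * (K₁.card - 1) + ∑ e ∈ bd F K₁, (ℓ (col e.2) + 1) ≤
      a * b * K₁.card + ∑ u ∈ K₁, ℓ (col u) * q' u := by
  have hk1 : 1 ≤ K₁.card := card_pos.mpr ⟨k0, hK₁.root⟩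
  have hka : K₁.card ≤ a := by rw [ha]; exact card_le_univ K₁
  by_cases hu : K₁ = univ
  · have hbd : bd F K₁ = ∅ := by
      rw [hu, Finset.eq_empty_iff_forall_notMem]
      intro e he
      exact (mem_bd.mp he).1 (mem_univ _)
    rw [hbd, Finset.sum_empty, add_zero, ← Finset.mul_sum, hu, card_univ, ← ha]
    have h1 : ∑ u, (q' u + 1) + (a - 1) = b := by
      rw [hu, card_univ, ← ha] at hk1
      omega
    calc _ = a * a * (∑ u, (q' u + 1) + (a - 1)) := by ring
      _ = a * b * a := by rw [h1]; ring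
      _ ≤ _ := Nat.le_add_right _ _
  -- proper subsets
  have hS1' := hS1 k0 K₁ hK₁ hu
  have hsing : ∀ u : U, ({u} : Finset U) ≠ univ := by
    intro u h
    apply hu
    have h1 : Fintype.card U = 1 := by rw [← Finset.card_univ, ← h, card_singleton]
    have h2 : K₁.card = Fintype.card U := by omega
    exact (Finset.card_eq_iff_eq_univ K₁).mp h2
  have hq : ∀ u, a * (q' u + 1) + 1 ≤ b := by
    intro u
    have := hS1 u {u} Grow.base (hsing u)
    simpa using this
  have hbc := bd_card hF hF' hK₁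
  have hm : (bd F K₁).card + K₁.card ≤ a := by
    have h1 : (bd F K₁).card ≤ ∑ e ∈ bd F K₁, (br F e.1 e.2).card := by
      rw [Finset.card_eq_sum_ones]
      refine Finset.sum_le_sum fun e he => ?_
      exact card_pos.mpr ⟨_, (br_spec hF (mem_bd.mp he).2.2).1.root⟩
    omega
  -- the sums over the two colours
  let A : Bool → Finset U := fun c => K₁.filter (fun x => col x = c)
  let dO : U → ℕ := fun u => ((K₁ᶜ).filter (fun x => F.Adj u x)).card
  let dI : U → ℕ := fun u => (K₁.filter (fun x => F.Adj u x)).card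
  have hsplit : ∀ f : U → ℕ, ∑ u ∈ K₁, f u = ∑ u ∈ A true, f u + ∑ u ∈ A false, f u := by
    intro f
    rw [← Finset.sum_filter_add_sum_filter_not K₁ (fun x => col x = true)]
    congr 1
    refine Finset.sum_congr ?_ fun _ _ => rfl
    ext x
    simp only [A, mem_filter]
    cases col x <;> simp
  have hI : ∀ c, ∑ u ∈ A c, dI u + 1 = K₁.card := fun c => hK₁.count hF hcol c
  have hdeg : ∀ c, a * (∑ u ∈ A c, dO u + ∑ u ∈ A c, dI u + (A c).card) + (A c).card ≤
      b * (A c).card := by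
    intro c
    calc _ = ∑ u ∈ A c, (a * (dO u + dI u + 1) + 1) := by
          rw [Finset.sum_add_distrib, ← Finset.mul_sum, Finset.sum_add_distrib,
            Finset.sum_add_distrib, Finset.card_eq_sum_ones]
      _ ≤ ∑ _u ∈ A c, b := by
          refine Finset.sum_le_sum fun u _ => ?_
          have h1 := hS2 u
          rw [deg_split K₁ u] at h1
          exact h1
      _ = b * (A c).card := by rw [Finset.sum_const, smul_eq_mul, mul_comm]
  have hqs : ∀ c, a * (∑ u ∈ A c, (q' u + 1)) + (A c).card ≤ b * (A c).card := by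
    intro c
    calc _ = ∑ u ∈ A c, (a * (q' u + 1) + 1) := by
          rw [Finset.sum_add_distrib (f := fun u => a * (q' u + 1)), ← Finset.mul_sum,
            Finset.card_eq_sum_ones]
      _ ≤ ∑ _u ∈ A c, b := Finset.sum_le_sum fun u _ => hq u
      _ = b * (A c).card := by rw [Finset.sum_const, smul_eq_mul, mul_comm]
  have hkk : (A true).card + (A false).card = K₁.card := by
    have := hsplit (fun _ => 1)
    simp only [Finset.sum_const, smul_eq_mul, mul_one] at this
    exact this.symm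
  have hbdc : (bd F K₁).card = ∑ u ∈ A true, dO u + ∑ u ∈ A false, dO u := by
    rw [card_bd, ← hsplit]
  have hcolA : ∀ c, ∀ u ∈ A c, col u = c := fun c u hu => (mem_filter.mp hu).2
  have hbds : ∑ e ∈ bd F K₁, (ℓ (col e.2) + 1) =
      (∑ u ∈ A true, dO u) * (ℓ true + 1) + (∑ u ∈ A false, dO u) * (ℓ false + 1) := by
    rw [sum_bd K₁ (fun u => ℓ (col u) + 1), hsplit, Finset.sum_mul, Finset.sum_mul]
    congr 1
    · exact Finset.sum_congr rfl fun u hu => by rw [hcolA true u hu]
    · exact Finset.sum_congr rfl fun u hu => by rw [hcolA false u hu]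
  have hls : ∑ u ∈ K₁, ℓ (col u) * q' u =
      ℓ true * (∑ u ∈ A true, q' u) + ℓ false * (∑ u ∈ A false, q' u) := by
    rw [hsplit, Finset.mul_sum, Finset.mul_sum]
    congr 1
    · exact Finset.sum_congr rfl fun u hu => by rw [hcolA true u hu]
    · exact Finset.sum_congr rfl fun u hu => by rw [hcolA false u hu]
  have hqq : ∀ c, ∑ u ∈ A c, (q' u + 1) = ∑ u ∈ A c, q' u + (A c).card := by
    intro c
    rw [Finset.sum_add_distrib, Finset.card_eq_sum_ones]
  have hqK := hsplit (fun u => q' u + 1)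
  have hqm : ∑ u ∈ K₁, a * a * (q' u + 1) = a * a * ∑ u ∈ K₁, (q' u + 1) := by
    rw [Finset.mul_sum]
  rw [hqm, hbds, hls]
  rw [hqK] at hS1' ⊢
  rw [hbdc] at hm
  have IT := hI true
  have IF := hI false
  have dT := hdeg true
  have dF := hdeg false
  have qT := hqs true
  have qF := hqs false
  have q1 := hqq true
  have q2 := hqq false
  have lT := hℓ true
  have lF := hℓ false
  clear hsplit hI hdeg hqs hqq hbdc hbds hls hqm hS1 hS2 hS3 hq hbc
  generalize (∑ u ∈ A true, dO u) = DT at *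
  generalize (∑ u ∈ A false, dO u) = DF at *
  generalize (∑ u ∈ A true, dI u) = JT at *
  generalize (∑ u ∈ A false, dI u) = JF at *
  generalize (∑ u ∈ A true, (q' u + 1)) = QT at *
  generalize (∑ u ∈ A false, (q' u + 1)) = QF at *
  generalize (∑ u ∈ A true, q' u) = RT at *
  generalize (∑ u ∈ A false, q' u) = RF at *
  generalize (A true).card = kT at *
  generalize (A false).card = kF at *
  generalize K₁.card = k at *
  generalize ℓ true = l1 at *
  generalize ℓ false = l2 at *
  obtain ⟨k', rfl⟩ : ∃ k', k = k' + 1 := ⟨k - 1, by omega⟩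
  rw [Nat.add_sub_cancel] at *
  have JT' : JT = k' := by omega
  have JF' : JF = k' := by omega
  rw [JT'] at dT
  rw [JF'] at dF
  have key := arith_key (a : ℤ) b ((k' + 1 : ℕ) : ℤ) kT kF DT DF QT QF l1 l2
    (by exact_mod_cast (by omega : 1 ≤ a)) (by push_cast; omega) (by exact_mod_cast hkk)
    (by
      have : (a : ℤ) * ((DT : ℤ) + (k' : ℤ) + (kT : ℤ)) + (kT : ℤ) ≤ (b : ℤ) * kT := by
        exact_mod_cast dT
      push_cast
      simpa using this)
    (by
      have : (a : ℤ) * ((DF : ℤ) + (k' : ℤ) + (kF : ℤ)) + (kF : ℤ) ≤ (b : ℤ) * kF := by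
        exact_mod_cast dF
      push_cast
      simpa using this)
    (by exact_mod_cast qT) (by exact_mod_cast qF)
    (by
      have : (a : ℤ) * ((QT : ℤ) + (QF : ℤ) + (k' : ℤ)) + 1 ≤ (b : ℤ) * ((k' : ℤ) + 1) := by
        exact_mod_cast hS1'
      push_cast
      simpa using this)
    (by exact_mod_cast hm) (by positivity) (by exact_mod_cast lT) (by positivity)
    (by exact_mod_cast lF)
  have r1 : (QT : ℤ) - kT = RT := by
    have : (QT : ℤ) = RT + kT := by exact_mod_cast q1
    linarith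
  have r2 : (QF : ℤ) - kF = RF := by
    have : (QF : ℤ) = RF + kF := by exact_mod_cast q2
    linarith
  rw [r1, r2] at key
  have fin : (a : ℤ) * a * ((QT : ℤ) + QF) + a * a * k' + ((DT : ℤ) * (l1 + 1) + DF * (l2 + 1)) ≤
      (a : ℤ) * b * (k' + 1) + (l1 * RT + l2 * RF) := by
    push_cast at key
    linarith
  exact_mod_cast fin

end cond

end Pool.Agent.H88BC
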