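import Pool.Agent.H88BC.Gad

/-!
# Disjoint samples
-/

set_option autoImplicit false
set_option linter.unusedSectionVars false

open Finset Classical

namespace Pool.Agent.H88BC

section blow

variable {U V : Type} [Fintype U] [Fintype V]

/-- `t` copies of `F` with common roots -/
def BU (F : SimpleGraph U) (G : SimpleGraph V) (Rt : U → Type) (t : ℕ) : Prop :=
  ∃ (r : (Σ u, Rt u) → V) (X : Fin t → U → V), Function.Injective r ∧
    (∀ i, Function.Injective (X i)) ∧ (∀ i i', i ≠ i' → ∀ u u', X i u ≠ X i' u') ∧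
    (∀ i u q, r q ≠ X i u) ∧ (∀ i u v, F.Adj u v → G.Adj (X i u) (X i v)) ∧
    ∀ i u (j : Rt u), G.Adj (X i u) (r ⟨u, j⟩)

lemma greedy (S : Set (U → V)) : ∀ m : ℕ,
    (∃ X : Fin m → U → V, (∀ i, X i ∈ S) ∧ ∀ i i', i ≠ i' → ∀ u u', X i u ≠ X i' u') ∨
      ∃ W : Finset V, W.card ≤ m * Fintype.card U ∧ ∀ X ∈ S, ∃ u, X u ∈ W := by
  intro m
  induction m with
  | zero => exact Or.inl ⟨fun i => i.elim0, fun i => i.elim0, fun i => i.elim0⟩
  | succ m ih =>
    rcases ih with ⟨X, h1, h2⟩ | ⟨W, h1, h2⟩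
    · obtain ⟨W, hW⟩ : ∃ W : Finset V, W = univ.biUnion (fun i : Fin m => univ.image (X i)) :=
        ⟨_, rfl⟩
      by_cases h : ∃ X0 ∈ S, ∀ u, X0 u ∉ W
      · obtain ⟨X0, h3, h4⟩ := h
        have h5 : ∀ i u u', X0 u ≠ X i u' := by
          intro i u u' he
          apply h4 u
          rw [hW, mem_biUnion]
          exact ⟨i, mem_univ _, mem_image.mpr ⟨u', mem_univ _, he.symm⟩⟩
        refine Or.inl ⟨Fin.cons X0 X, ?_, ?_⟩
        · intro i
          refine Fin.cases ?_ (fun i => ?_) i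
          · rw [Fin.cons_zero]; exact h3
          · rw [Fin.cons_succ]; exact h1 i
        · intro i i'
          refine Fin.cases ?_ (fun i => ?_) i
          · refine Fin.cases ?_ (fun i' => ?_) i'
            · intro h; exact absurd rfl h
            · intro _ u u'
              rw [Fin.cons_zero, Fin.cons_succ]
              exact h5 i' u u'
          · refine Fin.cases ?_ (fun i' => ?_) i'
            · intro _ u u'
              rw [Fin.cons_zero, Fin.cons_succ]
              exact (h5 i u' u).symm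
            · intro h u u'
              rw [Fin.cons_succ, Fin.cons_succ]
              exact h2 i i' (fun he => h (by rw [he])) u u'
      · push Not at h
        refine Or.inr ⟨W, ?_, h⟩
        rw [hW]
        refine card_biUnion_le.trans ?_
        have : ∑ i : Fin m, (univ.image (X i)).card ≤ ∑ _i : Fin m, Fintype.card U :=
          Finset.sum_le_sum fun i _ => card_image_le
        rw [Finset.sum_const, card_univ, Fintype.card_fin, smul_eq_mul] at this
        exact this.trans (Nat.mul_le_mul_right _ (Nat.le_succ m))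
    · exact Or.inr ⟨W, h1.trans (Nat.mul_le_mul_right _ (Nat.le_succ m)), h2⟩

variable {F : SimpleGraph U} {G : SimpleGraph V} {Q : U → Finset V} {φ : U → V → ℝ}

lemma unpop (hφ : ∀ u v, 0 ≤ φ u v) {L : ℝ} (hL : 0 < L) (S : Set (U → V)) (W : Finset V)
    (hW : ∀ X ∈ S, ∃ u, X u ∈ W) :
    EX (fun X : U → V => Wt F G Q φ univ X *
      ind (X ∈ S ∧ ∀ u, ¬ bt F G Q φ univ ≤ L * bv F G Q φ univ u (X u))) ≤
      Fintype.card U * W.card * (bt F G Q φ univ / L) := by
  have h1 : ∀ X : U → V, Wt F G Q φ univ X *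
      ind (X ∈ S ∧ ∀ u, ¬ bt F G Q φ univ ≤ L * bv F G Q φ univ u (X u)) ≤
      ∑ u, ∑ z ∈ W, (Wt F G Q φ univ X * ind (X u = z)) *
        ind (¬ bt F G Q φ univ ≤ L * bv F G Q φ univ u z) := by
    intro X
    have hnn : ∀ u, ∀ z ∈ W, 0 ≤ (Wt F G Q φ univ X * ind (X u = z)) *
        ind (¬ bt F G Q φ univ ≤ L * bv F G Q φ univ u z) := fun u z _ =>
      mul_nonneg (mul_nonneg (Wt_nonneg hφ _ _) (ind_nonneg _)) (ind_nonneg _)
    by_cases h : X ∈ S ∧ ∀ u, ¬ bt F G Q φ univ ≤ L * bv F G Q φ univ u (X u)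
    · obtain ⟨u, hu⟩ := hW X h.1
      rw [ind_true h]
      calc _ = (Wt F G Q φ univ X * ind (X u = X u)) *
            ind (¬ bt F G Q φ univ ≤ L * bv F G Q φ univ u (X u)) := by
            rw [ind_true rfl, ind_true (h.2 u)]
            ring
        _ ≤ ∑ z ∈ W, (Wt F G Q φ univ X * ind (X u = z)) *
            ind (¬ bt F G Q φ univ ≤ L * bv F G Q φ univ u z) :=
            Finset.single_le_sum (f := fun z => (Wt F G Q φ univ X * ind (X u = z)) *
              ind (¬ bt F G Q φ univ ≤ L * bv F G Q φ univ u z)) (hnn u) hu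
        _ ≤ _ := Finset.single_le_sum (f := fun u => ∑ z ∈ W,
            (Wt F G Q φ univ X * ind (X u = z)) *
            ind (¬ bt F G Q φ univ ≤ L * bv F G Q φ univ u z))
            (fun u _ => Finset.sum_nonneg (hnn u)) (mem_univ u)
    · rw [ind_false h, mul_zero]
      exact Finset.sum_nonneg fun u _ => Finset.sum_nonneg (hnn u)
  unfold EX
  refine (EE_mono uni_nonneg fun X _ => h1 X).trans ?_
  rw [EE_sum]
  have h2 : ∀ u z, EE (Ω := fun _ : U => V) (fun _ _ => ((Fintype.card V : ℝ))⁻¹)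
      (fun X : U → V => (Wt F G Q φ univ X * ind (X u = z)) *
        ind (¬ bt F G Q φ univ ≤ L * bv F G Q φ univ u z)) ≤ bt F G Q φ univ / L := by
    intro u z
    rw [EE_mul_right]
    change bv F G Q φ univ u z * _ ≤ _
    by_cases h : bt F G Q φ univ ≤ L * bv F G Q φ univ u z
    · rw [ind_false (not_not.mpr h), mul_zero]
      exact div_nonneg (bt_nonneg hφ _) hL.le
    · rw [ind_true h, mul_one, le_div_iff₀ hL]
      push Not at h
      linarith
  calc _ ≤ ∑ _u : U, ∑ _z ∈ W, bt F G Q φ univ / L := by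
        refine Finset.sum_le_sum fun u _ => ?_
        rw [EE_sum]
        exact Finset.sum_le_sum fun z _ => h2 u z
    _ = _ := by
        rw [Finset.sum_const, Finset.sum_const, card_univ, nsmul_eq_mul, nsmul_eq_mul]
        ring

section coll0

variable {P : Bool → Finset V} {K p : ℝ} {col : U → Bool}
  (hF : F.IsAcyclic) (hF' : F.Preconnected) (hcol : ∀ x y, F.Adj x y → col x ≠ col y)
  (hH : Host G P K p) (hK : 1 ≤ K) (hp : 0 < p)

include hF hF' hcol hH hK hp

/-- collision of two vertices -/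
lemma coll0 [Nonempty V] {u v : U} (huv : u ≠ v) :
    EX (fun X : U → V => Wt F G (fun u => P (col u)) one univ X * ind (X u = X v)) ≤
      (K * p) ^ (Fintype.card U - 2) * (Fintype.card V : ℝ)⁻¹ := by
  have hn : (0 : ℝ) < Fintype.card V := by exact_mod_cast Fintype.card_pos
  have hK0 : 0 < K := by linarith
  obtain ⟨w, hvw, huB⟩ := exists_sep hF hF' huv
  obtain ⟨B, hB⟩ : ∃ B, B = br F v w := ⟨_, rfl⟩
  rw [← hB] at huB
  have hbr := br_spec hF hvw
  rw [← hB] at hbr
  have hA := hbr.compl hF'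
  have hdis : Disjoint Bᶜ B := disjoint_compl_left
  have hun : Bᶜ ∪ B = univ := by rw [union_comm, union_compl]
  have h1 : ∀ X : U → V, Wt F G (fun u => P (col u)) one univ X * ind (X u = X v) =
      ∑ z, Wt F G (fun u => P (col u)) one (Bᶜ ∪ B) X * ind (X u = z) * ind (X v = z) := by
    intro X
    rw [hun]
    have h2 := sum_ind (X u) (fun z => Wt F G (fun u => P (col u)) one univ X * ind (X v = z))
    have h3 : ind (X u = X v) = ind (X v = X u) := by
      rw [show (X u = X v) = (X v = X u) from propext eq_comm]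
    rw [h3, ← h2]
    exact Finset.sum_congr rfl fun z _ => by ring
  unfold EX
  rw [EE_congr h1, EE_sum]
  have h2 : ∀ z : V, EE (Ω := fun _ : U => V) (fun _ _ => ((Fintype.card V : ℝ))⁻¹)
      (fun X : U → V => Wt F G (fun u => P (col u)) one (Bᶜ ∪ B) X * ind (X u = z) *
        ind (X v = z)) ≤ ((K * p) ^ (B.card - 1) * (Fintype.card V : ℝ)⁻¹) *
          bv F G (fun u => P (col u)) one Bᶜ u z := by
    intro z
    have h3 := EX_factor (Q := fun u => P (col u)) (φ := one) (G := G) hdis hbr.1.root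
      (mem_compl.mpr hbr.2.1) hvw (fun x hx y hy hxy => hbr.2.2 x hx y (mem_compl.mp hy) hxy)
      (g := fun X => ind (X u = z)) (by
        intro X Y h
        show ind (X u = z) = ind (Y u = z)
        rw [h u (mem_compl.mpr huB)]) (fun x _ => ind (x = z))
    unfold EX at h3
    rw [h3]
    have h10 : ((K * p) ^ (B.card - 1) * (Fintype.card V : ℝ)⁻¹) *
          bv F G (fun u => P (col u)) one Bᶜ u z =
        EE (Ω := fun _ : U => V) (fun _ _ => ((Fintype.card V : ℝ))⁻¹)
          (fun X : U → V => ((K * p) ^ (B.card - 1) * (Fintype.card V : ℝ)⁻¹) *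
            (Wt F G (fun u => P (col u)) one Bᶜ X * ind (X u = z))) := by
      unfold bv EX
      rw [EE_mul_left]
    rw [h10]
    refine EE_mono uni_nonneg fun X _ => ?_
    have h4 : ∑ x, ind (G.Adj x (X w)) * ind (x = z) * bv F G (fun u => P (col u)) one B v x ≤
        (K * p) ^ (B.card - 1) * (Fintype.card V : ℝ)⁻¹ := by
      have h5 : ∀ x, ind (G.Adj x (X w)) * ind (x = z) * bv F G (fun u => P (col u)) one B v x ≤
          ind (z = x) * ((K * p) ^ (B.card - 1) * (Fintype.card V : ℝ)⁻¹) := by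
        intro x
        have h6 := bv_le hF hcol hH hK hp hbr.1 x
        have h7 : 0 ≤ bv F G (fun u => P (col u)) one B v x := bv_nonneg one_nonneg _ _ _
        have h8 : ind (x = z) = ind (z = x) := by
          rw [show (x = z) = (z = x) from propext eq_comm]
        rw [h8]
        calc _ ≤ 1 * ind (z = x) * bv F G (fun u => P (col u)) one B v x := by
              refine mul_le_mul_of_nonneg_right ?_ h7
              exact mul_le_mul_of_nonneg_right (ind_le_one _) (ind_nonneg _)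
          _ = ind (z = x) * bv F G (fun u => P (col u)) one B v x := by ring
          _ ≤ _ := mul_le_mul_of_nonneg_left h6 (ind_nonneg _)
      refine (Finset.sum_le_sum fun x _ => h5 x).trans ?_
      rw [sum_ind z (fun _ => (K * p) ^ (B.card - 1) * (Fintype.card V : ℝ)⁻¹)]
    have h9 : 0 ≤ Wt F G (fun u => P (col u)) one Bᶜ X * ind (X u = z) :=
      mul_nonneg (Wt_nonneg one_nonneg _ _) (ind_nonneg _)
    have := mul_le_mul_of_nonneg_left h4 h9
    linarith
  refine (Finset.sum_le_sum fun z _ => h2 z).trans ?_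
  rw [← Finset.mul_sum, ← bt_eq]
  have h3 := bt_le hF hcol hH hK hp hA
  have hc : Fintype.card U - 2 = (B.card - 1) + (Bᶜ.card - 1) := by
    have e1 : 0 < B.card := card_pos.mpr ⟨v, hbr.1.root⟩
    have e2 : 0 < Bᶜ.card := card_pos.mpr ⟨w, hA.root⟩
    have e3 := card_compl_add_card B
    omega
  rw [hc, pow_add]
  have h4 : 0 ≤ (K * p) ^ (B.card - 1) * (Fintype.card V : ℝ)⁻¹ := by positivity
  calc _ ≤ ((K * p) ^ (B.card - 1) * (Fintype.card V : ℝ)⁻¹) * (K * p) ^ (Bᶜ.card - 1) :=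
        mul_le_mul_of_nonneg_left h3 h4
    _ = _ := by ring

end coll0

section mass

variable {Rt : U → Type} [∀ u, Fintype (Rt u)] {gad : ∀ u, Gad V (Rt u)} {Λ : U → ℝ} {δ : ℝ}

/-- the roots -/
def rt (gad : ∀ u, Gad V (Rt u)) (γ : ∀ u, (gad u).Γ) (q : Σ u, Rt u) : V :=
  (gad q.1).root (γ q.1) q.2

lemma coll_rt (hv : ∀ u, (gad u).Valid G (Q u) (Λ u) δ) {q q' : Σ u, Rt u} (h : q ≠ q') :
    EG gad (fun γ => EX (fun X => Wt F G Q (phi gad γ) univ X *
      ind (rt gad γ q = rt gad γ q'))) ≤ bt F G Q one univ * δ := by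
  obtain ⟨u, j⟩ := q
  obtain ⟨u', j'⟩ := q'
  by_cases hu : u = u'
  · subst hu
    exact coll2 hv u j j' (fun h' => h (by rw [h']))
  · exact coll3 hv hu j j'

/-- the good samples -/
def Sg (F : SimpleGraph U) (G : SimpleGraph V) (Q : U → Finset V) (gad : ∀ u, Gad V (Rt u))
    (γ : ∀ u, (gad u).Γ) : Set (U → V) :=
  {X | Wt F G Q (phi gad γ) univ X ≠ 0 ∧ Function.Injective X ∧ Function.Injective (rt gad γ) ∧
    ∀ u q, rt gad γ q ≠ X u}

lemma exists_W (hv : ∀ u, (gad u).Valid G (Q u) (Λ u) δ) {t : ℕ} (ht0 : 0 < t)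
    (ht : ¬ BU F G Rt t) (γ : ∀ u, (gad u).Γ) (hγ : ∀ u, (gad u).ν (γ u) ≠ 0) :
    ∃ W : Finset V, W.card ≤ t * Fintype.card U ∧ ∀ X ∈ Sg F G Q gad γ, ∃ u, X u ∈ W := by
  rcases greedy (Sg F G Q gad γ) t with ⟨X, h1, h2⟩ | h
  · exfalso
    apply ht
    refine ⟨rt gad γ, X, (h1 ⟨0, ht0⟩).2.2.1, fun i => (h1 i).2.1, h2,
      fun i u q => (h1 i).2.2.2 u q, ?_, ?_⟩
    · intro i u v huv
      have h3 := (h1 i).1
      by_contra hno
      apply h3
      unfold Wt
      rw [ind_false, zero_mul]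
      intro hm
      exact hno (hm.2 u (mem_univ u) v (mem_univ v) huv)
    · intro i u j
      have h3 := (h1 i).1
      have h4 : Hm F G Q univ (X i) := by
        by_contra hno
        apply h3
        unfold Wt
        rw [ind_false hno, zero_mul]
      have h5 : phi gad γ u (X i u) ≠ 0 := by
        intro h0
        apply h3
        unfold Wt
        rw [Finset.prod_eq_zero (mem_univ u) h0, mul_zero]
      exact (hv u).adj (X i u) (h4.1 u (mem_univ u)) (γ u) (mul_ne_zero (hγ u) h5) j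
  · exact h

/-- the mass of the samples without popular vertices -/
lemma mass_unpop (hv : ∀ u, (gad u).Valid G (Q u) (Λ u) δ) {t : ℕ} (ht0 : 0 < t)
    (ht : ¬ BU F G Rt t) {L x0 : ℝ} (hL : 0 < L) (h00 : 0 ≤ x0) (hδ : 0 ≤ δ)
    (hx0 : ∀ u v : U, u ≠ v → EX (fun X : U → V => Wt F G Q one univ X * ind (X u = X v)) ≤ x0) :
    EG gad (fun γ => EX (fun X => Wt F G Q (phi gad γ) univ X *
      ind (∀ u, ¬ bt F G Q (phi gad γ) univ ≤ L * bv F G Q (phi gad γ) univ u (X u)))) ≤
      bt F G Q one univ * ((Fintype.card U : ℝ) ^ 2 * t / L) +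
      (Fintype.card U : ℝ) ^ 2 * x0 +
      ((Fintype.card (Σ u, Rt u) : ℝ) * (Fintype.card U : ℝ) + (Fintype.card (Σ u, Rt u) : ℝ) ^ 2) *
        (bt F G Q one univ * δ) := by
  obtain ⟨S1, hS1⟩ : ∃ S1 : Finset (U × U), S1 = univ.filter (fun e => e.1 ≠ e.2) := ⟨_, rfl⟩
  obtain ⟨S2, hS2⟩ : ∃ S2 : Finset ((Σ u, Rt u) × (Σ u, Rt u)),
      S2 = univ.filter (fun e => e.1 ≠ e.2) := ⟨_, rfl⟩
  have hpt : ∀ (γ : ∀ u, (gad u).Γ) (X : U → V), Wt F G Q (phi gad γ) univ X *
      ind (∀ u, ¬ bt F G Q (phi gad γ) univ ≤ L * bv F G Q (phi gad γ) univ u (X u)) ≤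
      Wt F G Q (phi gad γ) univ X * ind (X ∈ Sg F G Q gad γ ∧
        ∀ u, ¬ bt F G Q (phi gad γ) univ ≤ L * bv F G Q (phi gad γ) univ u (X u)) +
      (∑ e ∈ S1, Wt F G Q (phi gad γ) univ X * ind (X e.1 = X e.2) +
      (∑ e : (Σ u, Rt u) × U, Wt F G Q (phi gad γ) univ X * ind (rt gad γ e.1 = X e.2) +
       ∑ e ∈ S2, Wt F G Q (phi gad γ) univ X * ind (rt gad γ e.1 = rt gad γ e.2))) := by
    intro γ X
    have hW : 0 ≤ Wt F G Q (phi gad γ) univ X := Wt_nonneg (phi_nonneg hv γ) _ _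
    have n1 : 0 ≤ ∑ e ∈ S1, Wt F G Q (phi gad γ) univ X * ind (X e.1 = X e.2) :=
      Finset.sum_nonneg fun e _ => mul_nonneg hW (ind_nonneg _)
    have n2 : 0 ≤ ∑ e : (Σ u, Rt u) × U, Wt F G Q (phi gad γ) univ X *
      ind (rt gad γ e.1 = X e.2) :=
      Finset.sum_nonneg fun e _ => mul_nonneg hW (ind_nonneg _)
    have n3 : 0 ≤ ∑ e ∈ S2, Wt F G Q (phi gad γ) univ X * ind (rt gad γ e.1 = rt gad γ e.2) :=
      Finset.sum_nonneg fun e _ => mul_nonneg hW (ind_nonneg _)
    have n0 : 0 ≤ Wt F G Q (phi gad γ) univ X * ind (X ∈ Sg F G Q gad γ ∧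
        ∀ u, ¬ bt F G Q (phi gad γ) univ ≤ L * bv F G Q (phi gad γ) univ u (X u)) :=
      mul_nonneg hW (ind_nonneg _)
    by_cases hW0 : Wt F G Q (phi gad γ) univ X = 0
    · rw [hW0] at n0 n1 n2 n3 ⊢
      simp
    by_cases hun : ∀ u, ¬ bt F G Q (phi gad γ) univ ≤ L * bv F G Q (phi gad γ) univ u (X u)
    swap
    · rw [ind_false hun]
      linarith [mul_zero (Wt F G Q (phi gad γ) univ X)]
    rw [ind_true hun, mul_one]
    by_cases hS : X ∈ Sg F G Q gad γ
    · rw [ind_true ⟨hS, hun⟩, mul_one]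
      linarith
    have h3 : (∃ u v, u ≠ v ∧ X u = X v) ∨ (∃ q q', q ≠ q' ∧ rt gad γ q = rt gad γ q') ∨
        ∃ u q, rt gad γ q = X u := by
      by_contra hcon
      push Not at hcon
      obtain ⟨c1, c2, c3⟩ := hcon
      apply hS
      refine ⟨hW0, ?_, ?_, c3⟩
      · intro u v h
        by_contra hne
        exact c1 u v hne h
      · intro q q' h
        by_contra hne
        exact c2 q q' hne h
    rcases h3 with ⟨u, v, h4, h5⟩ | ⟨q, q', h4, h5⟩ | ⟨u, q, h5⟩
    · have h6 : (u, v) ∈ S1 := by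
        rw [hS1]; simpa using h4
      have h7 := Finset.single_le_sum (f := fun e : U × U =>
        Wt F G Q (phi gad γ) univ X * ind (X e.1 = X e.2))
        (fun e _ => mul_nonneg hW (ind_nonneg _)) h6
      simp only at h7
      rw [ind_true h5, mul_one] at h7
      linarith
    · have h6 : (q, q') ∈ S2 := by
        rw [hS2]; simpa using h4
      have h7 := Finset.single_le_sum (f := fun e : (Σ u, Rt u) × (Σ u, Rt u) =>
        Wt F G Q (phi gad γ) univ X * ind (rt gad γ e.1 = rt gad γ e.2))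
        (fun e _ => mul_nonneg hW (ind_nonneg _)) h6
      simp only at h7
      rw [ind_true h5, mul_one] at h7
      linarith
    · have h7 := Finset.single_le_sum (f := fun e : (Σ u, Rt u) × U =>
        Wt F G Q (phi gad γ) univ X * ind (rt gad γ e.1 = X e.2))
        (fun e _ => mul_nonneg hW (ind_nonneg _)) (mem_univ (q, u))
      simp only at h7
      rw [ind_true h5, mul_one] at h7
      linarith
  have hγ : ∀ γ : (∀ u, (gad u).Γ), (∀ u, (gad u).ν (γ u) ≠ 0) →
      EX (fun X => Wt F G Q (phi gad γ) univ X *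
      ind (∀ u, ¬ bt F G Q (phi gad γ) univ ≤ L * bv F G Q (phi gad γ) univ u (X u))) ≤
      (Fintype.card U : ℝ) ^ 2 * t / L * bt F G Q (phi gad γ) univ +
      (∑ e ∈ S1, EX (fun X => Wt F G Q (phi gad γ) univ X * ind (X e.1 = X e.2)) +
      (∑ e : (Σ u, Rt u) × U, EX (fun X => Wt F G Q (phi gad γ) univ X *
        ind (rt gad γ e.1 = X e.2)) +
       ∑ e ∈ S2, EX (fun X => Wt F G Q (phi gad γ) univ X *
        ind (rt gad γ e.1 = rt gad γ e.2)))) := by
    intro γ hγ
    obtain ⟨W, hW1, hW2⟩ := exists_W (F := F) hv ht0 ht γ hγ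
    have h1 := unpop (F := F) (G := G) (Q := Q) (phi_nonneg hv γ) hL (Sg F G Q gad γ) W hW2
    have h2 : (Fintype.card U : ℝ) * W.card * (bt F G Q (phi gad γ) univ / L) ≤
        (Fintype.card U : ℝ) ^ 2 * t / L * bt F G Q (phi gad γ) univ := by
      have h3 : (W.card : ℝ) ≤ t * Fintype.card U := by exact_mod_cast hW1
      have h4 : 0 ≤ bt F G Q (phi gad γ) univ / L :=
        div_nonneg (bt_nonneg (phi_nonneg hv γ) _) hL.le
      calc _ ≤ (Fintype.card U : ℝ) * (t * Fintype.card U) * (bt F G Q (phi gad γ) univ / L) := by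
            refine mul_le_mul_of_nonneg_right ?_ h4
            exact mul_le_mul_of_nonneg_left h3 (Nat.cast_nonneg _)
        _ = _ := by ring
    have h5 : EX (fun X => Wt F G Q (phi gad γ) univ X *
      ind (∀ u, ¬ bt F G Q (phi gad γ) univ ≤ L * bv F G Q (phi gad γ) univ u (X u))) ≤
      EX (fun X => Wt F G Q (phi gad γ) univ X * ind (X ∈ Sg F G Q gad γ ∧
        ∀ u, ¬ bt F G Q (phi gad γ) univ ≤ L * bv F G Q (phi gad γ) univ u (X u)) +
      (∑ e ∈ S1, Wt F G Q (phi gad γ) univ X * ind (X e.1 = X e.2) +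
      (∑ e : (Σ u, Rt u) × U, Wt F G Q (phi gad γ) univ X * ind (rt gad γ e.1 = X e.2) +
       ∑ e ∈ S2, Wt F G Q (phi gad γ) univ X * ind (rt gad γ e.1 = rt gad γ e.2)))) :=
      EE_mono uni_nonneg fun X _ => hpt γ X
    refine h5.trans ?_
    unfold EX at h1 ⊢
    rw [EE_add, EE_add, EE_add, EE_sum, EE_sum, EE_sum]
    linarith
  have hfin : EG gad (fun γ => EX (fun X => Wt F G Q (phi gad γ) univ X *
      ind (∀ u, ¬ bt F G Q (phi gad γ) univ ≤ L * bv F G Q (phi gad γ) univ u (X u)))) ≤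
      EG gad (fun γ => (Fintype.card U : ℝ) ^ 2 * t / L * bt F G Q (phi gad γ) univ +
      (∑ e ∈ S1, EX (fun X => Wt F G Q (phi gad γ) univ X * ind (X e.1 = X e.2)) +
      (∑ e : (Σ u, Rt u) × U, EX (fun X => Wt F G Q (phi gad γ) univ X *
        ind (rt gad γ e.1 = X e.2)) +
       ∑ e ∈ S2, EX (fun X => Wt F G Q (phi gad γ) univ X *
        ind (rt gad γ e.1 = rt gad γ e.2))))) :=
    EE_mono (fun u => (hv u).ν0) fun γ h => hγ γ h
  refine hfin.trans ?_
  have e1 := EG_bt (F := F) hv univ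
  unfold EG at e1 ⊢
  rw [EE_add, EE_add, EE_add, EE_sum, EE_sum, EE_sum, EE_mul_left, e1]
  have b1 : ∑ e ∈ S1, EE (fun u => (gad u).ν) (fun γ =>
      EX (fun X => Wt F G Q (phi gad γ) univ X * ind (X e.1 = X e.2))) ≤
      (Fintype.card U : ℝ) ^ 2 * x0 := by
    calc _ ≤ ∑ _e ∈ S1, x0 := by
          refine Finset.sum_le_sum fun e he => ?_
          rw [hS1, mem_filter] at he
          have h6 := EG_Wt (F := F) hv univ (fun X => ind (X e.1 = X e.2))
          unfold EG at h6
          rw [h6]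
          exact hx0 e.1 e.2 he.2
      _ = (S1.card : ℝ) * x0 := by rw [Finset.sum_const, nsmul_eq_mul]
      _ ≤ _ := by
          refine mul_le_mul_of_nonneg_right ?_ h00
          have : S1.card ≤ Fintype.card U ^ 2 := by
            refine (Finset.card_le_univ _).trans ?_
            rw [Fintype.card_prod, sq]
          exact_mod_cast this
  have b2 : ∑ e : (Σ u, Rt u) × U, EE (fun u => (gad u).ν) (fun γ =>
      EX (fun X => Wt F G Q (phi gad γ) univ X * ind (rt gad γ e.1 = X e.2))) ≤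
      ((Fintype.card (Σ u, Rt u) : ℝ) * (Fintype.card U : ℝ)) * (bt F G Q one univ * δ) := by
    calc _ ≤ ∑ _e : (Σ u, Rt u) × U, (bt F G Q one univ * δ) :=
          Finset.sum_le_sum fun e _ => coll1 hv e.1.1 e.1.2 e.2
      _ = _ := by
          rw [Finset.sum_const, card_univ, nsmul_eq_mul, Fintype.card_prod]
          push_cast
          ring
  have b3 : ∑ e ∈ S2, EE (fun u => (gad u).ν) (fun γ =>
      EX (fun X => Wt F G Q (phi gad γ) univ X * ind (rt gad γ e.1 = rt gad γ e.2))) ≤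
      ((Fintype.card (Σ u, Rt u) : ℝ) ^ 2) * (bt F G Q one univ * δ) := by
    calc _ ≤ ∑ _e ∈ S2, (bt F G Q one univ * δ) := by
          refine Finset.sum_le_sum fun e he => ?_
          rw [hS2, mem_filter] at he
          exact coll_rt hv he.2
      _ = (S2.card : ℝ) * (bt F G Q one univ * δ) := by rw [Finset.sum_const, nsmul_eq_mul]
      _ ≤ _ := by
          refine mul_le_mul_of_nonneg_right ?_ (mul_nonneg (bt_nonneg one_nonneg _) hδ)
          have : S2.card ≤ Fintype.card (Σ u, Rt u) ^ 2 := by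
            refine (Finset.card_le_univ _).trans ?_
            rw [Fintype.card_prod, sq]
          exact_mod_cast this
  have e3 : (Fintype.card U : ℝ) ^ 2 * t / L * bt F G Q one univ =
      bt F G Q one univ * ((Fintype.card U : ℝ) ^ 2 * t / L) := by ring
  rw [e3]
  nlinarith [b1, b2, b3]

end mass

end blow

end Pool.Agent.H88BC
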