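import Pool.Agent.H88BC.Fin1

/-!
# Rooted trees
-/

set_option autoImplicit false
set_option linter.unusedSectionVars false

open Finset Classical

namespace Pool.Agent.H88BC

section conv

/-- non-roots -/
def NR {W : Type} (R : Set W) : Type := {v : W // v ∉ R}

noncomputable instance {W : Type} [Fintype W] (R : Set W) : Fintype (NR R) :=
  inferInstanceAs (Fintype {v : W // v ∉ R})

/-- the vertex -/
def NR.v {W : Type} {R : Set W} (u : NR R) : W := u.1

lemma NR.p {W : Type} {R : Set W} (u : NR R) : u.v ∉ R := u.2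

/-- constructor -/
def NR.mk {W : Type} {R : Set W} (v : W) (h : v ∉ R) : NR R := ⟨v, h⟩

lemma NR.mk_v {W : Type} {R : Set W} (v : W) (h : v ∉ R) : (NR.mk v h : NR R).v = v := rfl

lemma NR.v_mk {W : Type} {R : Set W} (u : NR R) (h : u.v ∉ R) : NR.mk u.v h = u := rfl

lemma NR.inj {W : Type} {R : Set W} : Function.Injective (NR.v (R := R)) :=
  fun _ _ h => Subtype.ext h

/-- root neighbours -/
def Rt {W : Type} (T : SimpleGraph W) (R : Set W) (u : NR R) : Type :=
  {r : W // r ∈ R ∧ T.Adj u.v r}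

noncomputable instance {W : Type} [Fintype W] (T : SimpleGraph W) (R : Set W) (u : NR R) :
    Fintype (Rt T R u) := inferInstanceAs (Fintype {r : W // r ∈ R ∧ T.Adj u.v r})

/-- roots -/
def RR {W : Type} (R : Set W) : Type := {v : W // v ∈ R}

/-- constructor -/
def RR.mk {W : Type} {R : Set W} (v : W) (h : v ∈ R) : RR R := ⟨v, h⟩

noncomputable instance {W : Type} [Fintype W] (R : Set W) : Fintype (RR R) :=
  inferInstanceAs (Fintype {v : W // v ∈ R})

variable {W : Type} [Fintype W] (T : SimpleGraph W) (R : Set W)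

/-- edges meeting `S` -/
def mE (S : Set W) (e : Sym2 W) : Prop := e ∈ T.edgeSet ∧ ∃ v ∈ S, v ∈ e

/-- edges inside `A ∪ R` -/
def iE (A : Finset (NR R)) (e : Sym2 W) : Prop := e ∈ T.edgeSet ∧ ∀ v ∈ e, v ∈ R ∨
    ∃ h : v ∉ R, NR.mk v h ∈ A

/-- edges -/
def aE (e : Sym2 W) : Prop := e ∈ T.edgeSet

/-- number of edges meeting `S` -/
noncomputable def eF (S : Set W) : ℕ := ((univ : Finset (Sym2 W)).filter (mE T S)).card

/-- number of edges inside `A ∪ R` -/
noncomputable def nF (A : Finset (NR R)) : ℕ :=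
  ((univ : Finset (Sym2 W)).filter (iE T R A)).card

/-- the non-roots outside `A` -/
def oS (A : Finset (NR R)) : Set W := {v | ∃ h : v ∉ R, NR.mk v h ∉ A}

/-- the tree on the non-roots -/
def FF : SimpleGraph (NR R) := T.comap NR.v

lemma eF_eq (S : Set W) :
    ({e | e ∈ T.edgeSet ∧ ∃ v ∈ S, v ∈ e} : Set (Sym2 W)).ncard = eF T S := by
  unfold eF
  rw [← Set.ncard_coe_finset]
  congr 1
  ext e
  simp [mE]

lemma eF_nF (A : Finset (NR R)) : eF T (oS R A) + nF T R A =
    ((univ : Finset (Sym2 W)).filter (aE T)).card := by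
  unfold eF nF
  rw [← Finset.card_union_of_disjoint]
  · congr 1
    ext e
    simp only [mem_union, mem_filter, mem_univ, true_and]
    constructor
    · rintro (h | h) <;> exact h.1
    · intro h
      by_cases h1 : ∃ v ∈ oS R A, v ∈ e
      · exact Or.inl ⟨h, h1⟩
      · refine Or.inr ⟨h, fun v hv => ?_⟩
        by_cases hR : v ∈ R
        · exact Or.inl hR
        · refine Or.inr ⟨hR, ?_⟩
          by_contra hA
          exact h1 ⟨v, ⟨hR, hA⟩, hv⟩
  · rw [Finset.disjoint_left]
    intro e h1 h2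
    rw [mem_filter] at h1 h2
    obtain ⟨v, ⟨hv, hvA⟩, hve⟩ := h1.2.2
    rcases h2.2.2 v hve with h3 | ⟨h3, h4⟩
    · exact hv h3
    · exact hvA h4

lemma oS_card (A : Finset (NR R)) : (oS R A).ncard + A.card = Fintype.card (NR R) := by
  have h1 : oS R A = NR.v '' ((Aᶜ : Finset (NR R)) : Set (NR R)) := by
    ext v
    constructor
    · rintro ⟨h, hA⟩
      exact ⟨NR.mk v h, by simpa using hA, rfl⟩
    · rintro ⟨u, hu, rfl⟩
      exact ⟨u.p, fun h => (mem_compl.mp (mem_coe.mp hu)) h⟩
  rw [h1, Set.ncard_image_of_injective _ NR.inj, Set.ncard_coe_finset,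
    card_compl_add_card]

lemma nF_grow {s : NR R} {A : Finset (NR R)} (hA : Grow (FF T R) s A) :
    ∑ u ∈ A, Fintype.card (Rt T R u) + (A.card - 1) ≤ nF T R A := by
  have himg : ∀ u : NR R, (univ.image (fun r : Rt T R u => s(u.v, r.1))).card =
      Fintype.card (Rt T R u) := by
    intro u
    rw [Finset.card_image_of_injective, card_univ]
    intro r r' h
    simp only [Sym2.eq_iff] at h
    rcases h with ⟨_, h⟩ | ⟨h, _⟩
    · exact Subtype.ext h
    · exact absurd (h ▸ r'.2.1) u.p
  induction hA with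
  | base =>
    rw [Finset.sum_singleton, card_singleton, Nat.sub_self, add_zero, ← himg s]
    unfold nF
    refine card_le_card fun e he => ?_
    rw [mem_image] at he
    obtain ⟨r, _, rfl⟩ := he
    rw [mem_filter]
    refine ⟨mem_univ _, r.2.2, fun v hv => ?_⟩
    rw [Sym2.mem_iff] at hv
    rcases hv with rfl | rfl
    · exact Or.inr ⟨s.p, mem_singleton_self _⟩
    · exact Or.inl r.2.1
  | @step A w u hA hw hu hadj ih =>
    have hcA : 0 < A.card := card_pos.mpr ⟨w, hw⟩
    rw [Finset.sum_insert hu, card_insert_of_notMem hu]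
    have hadj' : T.Adj w.v u.v := hadj
    -- the three families
    obtain ⟨E1, hE1⟩ : ∃ E1 : Finset (Sym2 W), E1 = (univ : Finset (Sym2 W)).filter
      (iE T R A) := ⟨_, rfl⟩
    obtain ⟨E2, hE2⟩ : ∃ E2 : Finset (Sym2 W), E2 = univ.image
      (fun r : Rt T R u => s(u.v, r.1)) := ⟨_, rfl⟩
    have hd1 : s(w.v, u.v) ∉ E2 := by
      rw [hE2, mem_image]
      rintro ⟨r, _, h⟩
      rw [Sym2.eq_iff] at h
      rcases h with ⟨h, h'⟩ | ⟨h, h'⟩
      · exact hadj'.ne h.symm
      · exact w.p (h' ▸ r.2.1)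
    have hd2 : Disjoint E1 (insert s(w.v, u.v) E2) := by
      rw [Finset.disjoint_left]
      intro e he1 he2
      have hue : u.v ∈ e := by
        rcases mem_insert.mp he2 with rfl | he2
        · simp
        · rw [hE2, mem_image] at he2
          obtain ⟨r, _, rfl⟩ := he2
          simp
      rw [hE1, mem_filter] at he1
      rcases he1.2.2 u.v hue with h | ⟨h, h'⟩
      · exact u.p h
      · exact hu h'
    have hsub : E1 ∪ insert s(w.v, u.v) E2 ⊆ (univ : Finset (Sym2 W)).filter
        (iE T R (insert u A)) := by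
      intro e he
      rw [mem_filter]
      refine ⟨mem_univ _, ?_⟩
      rcases mem_union.mp he with he | he
      · rw [hE1, mem_filter] at he
        refine ⟨he.2.1, fun v hv => ?_⟩
        rcases he.2.2 v hv with h | ⟨h, h'⟩
        · exact Or.inl h
        · exact Or.inr ⟨h, mem_insert_of_mem h'⟩
      · rcases mem_insert.mp he with rfl | he
        · refine ⟨hadj', fun v hv => ?_⟩
          rw [Sym2.mem_iff] at hv
          rcases hv with rfl | rfl
          · exact Or.inr ⟨w.p, mem_insert_of_mem hw⟩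
          · exact Or.inr ⟨u.p, mem_insert_self _ _⟩
        · rw [hE2, mem_image] at he
          obtain ⟨r, _, rfl⟩ := he
          refine ⟨r.2.2, fun v hv => ?_⟩
          rw [Sym2.mem_iff] at hv
          rcases hv with rfl | rfl
          · exact Or.inr ⟨u.p, mem_insert_self _ _⟩
          · exact Or.inl r.2.1
    have h1 := card_le_card hsub
    rw [Finset.card_union_of_disjoint hd2, card_insert_of_notMem hd1, hE2, himg u] at h1
    have h2 : E1.card = nF T R A := by rw [hE1]; rfl
    rw [h2] at h1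
    have h3 : nF T R (insert u A) = ((univ : Finset (Sym2 W)).filter
        (iE T R (insert u A))).card := rfl
    rw [h3]
    omega

variable {T R}

/-- connectivity of the non-roots -/
lemma conn (hR : Rᶜ.Nonempty)
    (hstr : ∀ S : Set W, S.Nonempty → S ⊂ Rᶜ →
      eF T Rᶜ * S.ncard < Fintype.card (NR R) * eF T S) : (FF T R).Preconnected := by
  obtain ⟨s0, hs0⟩ := hR
  obtain ⟨A, h1, _, h3⟩ := exists_grow (FF T R) (mem_univ (NR.mk s0 hs0))
  have hA : A = univ := by
    by_contra hne
    obtain ⟨x, hx⟩ : ∃ x, x ∉ A := by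
      by_contra hcon
      push Not at hcon
      exact hne (Finset.eq_univ_iff_forall.mpr hcon)
    -- the two parts
    have e1 : (oS R A).Nonempty := ⟨x.v, x.p, hx⟩
    have e2 : oS R A ⊂ Rᶜ := by
      refine ⟨fun v hv => hv.1, fun h => ?_⟩
      obtain ⟨_, h'⟩ := h hs0
      exact h' h1.root
    have f1 : (oS R Aᶜ).Nonempty := ⟨s0, hs0, by simpa using h1.root⟩
    have f2 : oS R Aᶜ ⊂ Rᶜ := by
      refine ⟨fun v hv => hv.1, fun h => ?_⟩
      obtain ⟨_, h'⟩ := h (show x.v ∈ Rᶜ from x.p)
      exact h' (mem_compl.mpr hx)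
    have g1 := hstr _ e1 e2
    have g2 := hstr _ f1 f2
    have c1 := oS_card R A
    have c2 := oS_card R Aᶜ
    have c3 := card_compl_add_card A
    have hle : eF T (oS R A) + eF T (oS R Aᶜ) ≤ eF T Rᶜ := by
      unfold eF
      rw [← Finset.card_union_of_disjoint]
      · refine card_le_card fun e he => ?_
        rw [mem_filter]
        rcases mem_union.mp he with he | he
        · rw [mem_filter] at he
          obtain ⟨v, hv, hve⟩ := he.2.2
          exact ⟨mem_univ _, he.2.1, v, hv.1, hve⟩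
        · rw [mem_filter] at he
          obtain ⟨v, hv, hve⟩ := he.2.2
          exact ⟨mem_univ _, he.2.1, v, hv.1, hve⟩
      · rw [Finset.disjoint_left]
        intro e he he'
        rw [mem_filter] at he he'
        obtain ⟨v, ⟨hv, hvA⟩, hve⟩ := he.2.2
        obtain ⟨v', ⟨hv', hvA'⟩, hve'⟩ := he'.2.2
        have hvA'' : NR.mk v' hv' ∈ A := by
          by_contra h
          exact hvA' (mem_compl.mpr h)
        have hne : v ≠ v' := by
          rintro rfl
          exact hvA hvA''
        have hadj : T.Adj v v' := by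
          have h5 := he.2.1
          rw [(Sym2.mem_and_mem_iff hne).mp ⟨hve, hve'⟩] at h5
          exact h5
        exact hvA (h3 _ hvA'' (NR.mk v hv) (mem_univ _) hadj.symm)
    obtain ⟨n1, hn1⟩ : ∃ n, n = (oS R A).ncard := ⟨_, rfl⟩
    obtain ⟨n2, hn2⟩ : ∃ n, n = (oS R Aᶜ).ncard := ⟨_, rfl⟩
    rw [← hn1] at g1 c1
    rw [← hn2] at g2 c2
    have h7 : n1 + n2 = Fintype.card (NR R) := by omega
    have h8 := Nat.mul_le_mul_left (Fintype.card (NR R)) hle
    have h9 : eF T Rᶜ * n1 + eF T Rᶜ * n2 = eF T Rᶜ * Fintype.card (NR R) := by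
      rw [← mul_add, h7]
    rw [mul_add] at h8
    have h10 : Fintype.card (NR R) * eF T Rᶜ = eF T Rᶜ * Fintype.card (NR R) := mul_comm _ _
    omega
  -- every vertex is reachable from s0
  rw [hA] at h1
  have hreach : ∀ B, Grow (FF T R) (NR.mk s0 hs0) B → ∀ x ∈ B,
      (FF T R).Reachable (NR.mk s0 hs0) x := by
    intro B hB
    induction hB with
    | base =>
      intro x hx
      rw [mem_singleton] at hx
      rw [hx]
    | @step B w u hB hw hu hadj ih =>
      intro x hx
      rcases mem_insert.mp hx with rfl | hx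
      · exact (ih w hw).trans hadj.reachable
      · exact ih x hx
  intro x y
  exact (hreach univ h1 x (mem_univ _)).symm.trans (hreach univ h1 y (mem_univ _))

lemma all_edges (hind : ∀ u ∈ R, ∀ v ∈ R, ¬ T.Adj u v) :
    eF T Rᶜ = ((univ : Finset (Sym2 W)).filter (aE T)).card := by
  unfold eF
  congr 1
  ext e
  simp only [mem_filter, mem_univ, true_and]
  constructor
  · intro h; exact h.1
  · intro h
    refine ⟨h, ?_⟩
    have h' : e ∈ T.edgeSet := h
    clear h
    induction e with
    | _ x y =>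
      have hxy : T.Adj x y := h'
      by_cases hx : x ∈ R
      · refine ⟨y, fun hy => hind x hx y hy hxy, by simp⟩
      · exact ⟨x, hx, by simp⟩

/-- number of the edges and of the roots -/
lemma counts (hT : T.IsTree) (hR : Rᶜ.Nonempty) (hind : ∀ u ∈ R, ∀ v ∈ R, ¬ T.Adj u v)
    (hconn : (FF T R).Preconnected) :
    eF T Rᶜ + 1 = Fintype.card (NR R) + ∑ u : NR R, Fintype.card (Rt T R u) ∧
      ∀ r ∈ R, ∃! u, T.Adj r u := by
  obtain ⟨s0, hs0⟩ := hR
  have h1 := nF_grow T R (grow_univ hconn (NR.mk s0 hs0))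
  have h2 := eF_nF T R (univ : Finset (NR R))
  have h3 : eF T (oS R (univ : Finset (NR R))) = 0 := by
    unfold eF
    rw [Finset.card_eq_zero, Finset.filter_eq_empty_iff]
    rintro e _ ⟨_, v, ⟨hv, hv'⟩, _⟩
    exact hv' (mem_univ _)
  rw [h3, zero_add, ← all_edges hind] at h2
  rw [h2, card_univ] at h1
  have h4 : eF T Rᶜ + 1 = Fintype.card W := by
    rw [all_edges hind]
    have h5 := (SimpleGraph.isTree_iff_connected_and_card.mp hT).2
    rw [Nat.card_eq_fintype_card (α := W)] at h5
    rw [← h5]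
    congr 1
    rw [Nat.card_coe_set_eq, ← Set.ncard_coe_finset]
    congr 1
    ext e
    simp [aE]
  have h5 : Fintype.card W = Fintype.card (NR R) + Fintype.card (RR R) := by
    have e1 : Fintype.card W = Fintype.card (NR R ⊕ RR R) := by
      refine Fintype.card_congr ?_
      refine ⟨fun v => if h : v ∈ R then Sum.inr ⟨v, h⟩ else Sum.inl ⟨v, h⟩,
        fun q => q.elim (fun u => u.1) (fun r => r.1), ?_, ?_⟩
      · intro v
        by_cases h : v ∈ R <;> simp [h]
      · rintro (u | r)
        · have := u.p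
          simp only [Sum.elim_inl]
          rw [dif_neg (show ¬ u.1 ∈ R from this)]
          rfl
        · simp only [Sum.elim_inr]
          rw [dif_pos r.2]
          rfl
    rw [e1, Fintype.card_sum]
  -- every root has a neighbour
  have h6 : ∀ r ∈ R, ∃ u : NR R, T.Adj u.v r := by
    intro r hr
    have hne : r ≠ s0 := by
      rintro rfl
      exact hs0 hr
    obtain ⟨p⟩ := hT.connected.preconnected r s0
    cases p with
    | nil => exact absurd rfl hne
    | @cons _ v _ h q =>
      exact ⟨NR.mk v (fun hv => hind r hr v hv h), h.symm⟩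
  have hsurj : Function.Surjective (fun q : (Σ u : NR R, Rt T R u) =>
      (RR.mk q.2.1 q.2.2.1 : RR R)) := by
    rintro ⟨r, hr⟩
    obtain ⟨u, hu⟩ := h6 r hr
    exact ⟨⟨u, ⟨r, hr, hu⟩⟩, rfl⟩
  have h7 := Fintype.card_le_of_surjective _ hsurj
  rw [Fintype.card_sigma] at h7
  have hpos : 0 < Fintype.card (NR R) := Fintype.card_pos_iff.mpr ⟨NR.mk s0 hs0⟩
  have h8 : Fintype.card (RR R) = ∑ u : NR R, Fintype.card (Rt T R u) := by omega
  refine ⟨by omega, fun r hr => ?_⟩
  have hbij := (Fintype.bijective_iff_surjective_and_card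
    (fun q : (Σ u : NR R, Rt T R u) => (RR.mk q.2.1 q.2.2.1 : RR R))).mpr
    ⟨hsurj, by rw [Fintype.card_sigma, h8]⟩
  obtain ⟨u, hu⟩ := h6 r hr
  refine ⟨u.v, hu.symm, fun v hv => ?_⟩
  have hvR : v ∉ R := fun h => hind r hr v h hv
  have h9 := hbij.1 (a₁ := ⟨u, ⟨r, hr, hu⟩⟩) (a₂ := ⟨NR.mk v hvR, ⟨r, hr, hv.symm⟩⟩) rfl
  have h10 := congrArg (fun q : (Σ u : NR R, Rt T R u) => q.1.v) h9
  exact h10.symm

end conv

end Pool.Agent.H88BC
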