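import Pool.Agent.H88BC.UB

/-!
# A light rich edge
-/

set_option autoImplicit false
set_option linter.unusedSectionVars false

open Finset Classical

namespace Pool.Agent.H88BC

section core

variable {U V : Type} [Fintype U] [Fintype V]
variable {F : SimpleGraph U} {G : SimpleGraph V}

/-- the numerical part of the upper bound -/
lemma ub3 [Nonempty V] {P : Bool → Finset V} {K p w M C : ℝ} {col : U → Bool}
    (hF : F.IsAcyclic) (hF' : F.Preconnected) (hcol : ∀ x y, F.Adj x y → col x ≠ col y)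
    (hH : Host G P K p) (hK : 1 ≤ K) (hw : 1 ≤ w) (hM : 1 ≤ M) (hC : 1 ≤ C) {a b N : ℕ}
    (ha : a = Fintype.card U) (hp : p = (w ^ N)⁻¹)
    (hn : C * w ^ (a * b) ≤ Fintype.card V) {q' : U → ℕ} {ℓ : U → ℕ} {ℓ' : U × U → ℕ} {k0 : U}
    {K₁ : Finset U} (hK₁ : Grow F k0 K₁)
    (hN : ∑ u ∈ K₁, N * (q' u + 1) + N * (K₁.card - 1) + ∑ e ∈ bd F K₁, ℓ' e ≤
      a * b * K₁.card + ∑ u ∈ K₁, ℓ u * q' u) :
    (∏ u ∈ K₁, (K * w ^ (N * (q' u + 1)) / w ^ (ℓ u * q' u) * (M / Fintype.card V))) *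
      ∏ e ∈ bd F K₁, (w ^ (ℓ' e) * p) * bt F G (fun u => P (col u)) one (br F e.1 e.2) ≤
      K ^ (2 * a) * M ^ a / C * bt F G (fun u => P (col u)) one univ := by
  have hn0 : (0 : ℝ) < Fintype.card V := by exact_mod_cast Fintype.card_pos
  have hK0 : 0 < K := by linarith
  have hw0 : 0 < w := by linarith
  have hC0 : 0 < C := by linarith
  have hM0 : 0 < M := by linarith
  have hp0 : 0 < p := by rw [hp]; positivity
  have hk1 : 1 ≤ K₁.card := card_pos.mpr ⟨k0, hK₁.root⟩
  have hkr := bd_card hF hF' hK₁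
  rw [← ha] at hkr
  -- the branches
  have h1 : ∏ e ∈ bd F K₁, (w ^ (ℓ' e) * p) * bt F G (fun u => P (col u)) one (br F e.1 e.2) ≤
      w ^ (∑ e ∈ bd F K₁, ℓ' e) * (K * p) ^ (∑ e ∈ bd F K₁, (br F e.1 e.2).card) := by
    rw [← Finset.prod_pow_eq_pow_sum, ← Finset.prod_pow_eq_pow_sum, ← Finset.prod_mul_distrib]
    refine Finset.prod_le_prod (fun e _ => mul_nonneg (by positivity) (bt_nonneg one_nonneg _))
      fun e he => ?_
    have hB := br_spec hF (mem_bd.mp he).2.2
    have h2 := bt_le hF hcol hH hK hp0 hB.1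
    have hc : (br F e.1 e.2).card = ((br F e.1 e.2).card - 1) + 1 := by
      have : 0 < (br F e.1 e.2).card := card_pos.mpr ⟨_, hB.1.root⟩
      omega
    rw [hc, pow_succ]
    have h3 : 0 ≤ (K * p) ^ ((br F e.1 e.2).card - 1) := by positivity
    have h4 : p * bt F G (fun u => P (col u)) one (br F e.1 e.2) ≤
        (K * p) ^ ((br F e.1 e.2).card - 1) * (K * p) := by
      calc _ ≤ p * (K * p) ^ ((br F e.1 e.2).card - 1) := mul_le_mul_of_nonneg_left h2 hp0.le
        _ ≤ (K * p) * (K * p) ^ ((br F e.1 e.2).card - 1) := by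
            refine mul_le_mul_of_nonneg_right ?_ h3
            nlinarith
        _ = _ := by ring
    have h5 : (0 : ℝ) ≤ w ^ (ℓ' e) := by positivity
    calc _ = w ^ (ℓ' e) * (p * bt F G (fun u => P (col u)) one (br F e.1 e.2)) := by ring
      _ ≤ _ := mul_le_mul_of_nonneg_left h4 h5
  -- the vertices
  have h2 : ∏ u ∈ K₁, (K * w ^ (N * (q' u + 1)) / w ^ (ℓ u * q' u) * (M / Fintype.card V)) =
      K ^ K₁.card * w ^ (∑ u ∈ K₁, N * (q' u + 1)) / w ^ (∑ u ∈ K₁, ℓ u * q' u) *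
        (M / Fintype.card V) ^ K₁.card := by
    rw [Finset.prod_mul_distrib, Finset.prod_div_distrib, Finset.prod_mul_distrib,
      Finset.prod_const, Finset.prod_const, Finset.prod_pow_eq_pow_sum,
      Finset.prod_pow_eq_pow_sum]
  -- the lower bound
  have h3 := bt_ge hF hcol hH hK hp0 (grow_univ hF' k0)
  rw [card_univ, ← ha] at h3
  obtain ⟨h, hh⟩ : ∃ h, h = bt F G (fun u => P (col u)) one univ := ⟨_, rfl⟩
  rw [← hh] at h3 ⊢
  have ha1 : 1 ≤ a := by omega
  have h4 : p ^ (a - 1) ≤ K ^ a * h := by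
    rw [div_pow, div_div, div_le_iff₀ (by positivity)] at h3
    calc _ ≤ h * (K ^ (a - 1) * K) := h3
      _ = K ^ a * h := by
          rw [← pow_succ, Nat.sub_add_cancel ha1]
          ring
  obtain ⟨r, hr⟩ : ∃ r, r = ∑ e ∈ bd F K₁, (br F e.1 e.2).card := ⟨_, rfl⟩
  obtain ⟨y, hy⟩ : ∃ y, y = ∑ e ∈ bd F K₁, ℓ' e := ⟨_, rfl⟩
  obtain ⟨x1, hx1⟩ : ∃ x1, x1 = ∑ u ∈ K₁, N * (q' u + 1) := ⟨_, rfl⟩
  obtain ⟨x2, hx2⟩ : ∃ x2, x2 = ∑ u ∈ K₁, ℓ u * q' u := ⟨_, rfl⟩
  obtain ⟨k, hk⟩ : ∃ k, k = K₁.card := ⟨_, rfl⟩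
  rw [← hr, ← hk] at hkr
  rw [← hr, ← hy] at h1
  rw [← hx1, ← hx2, ← hk] at h2
  rw [← hx1, ← hx2, ← hk, ← hy] at hN
  rw [← hk] at hk1
  have hpr : p ^ r = p ^ (a - 1) * w ^ (N * (k - 1)) := by
    have e1 : a - 1 = r + (k - 1) := by omega
    rw [e1, pow_add, mul_assoc, pow_mul, ← mul_pow, hp, inv_mul_cancel₀ (by positivity), one_pow,
      mul_one]
  have h5 : w ^ (x1 + N * (k - 1) + y) ≤ w ^ (a * b * k) * w ^ x2 := by
    rw [← pow_add]
    exact pow_le_pow_right₀ hw hN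
  have h6 : (w ^ (a * b) / Fintype.card V) ^ k ≤ 1 / C := by
    have h7 : w ^ (a * b) / Fintype.card V ≤ 1 / C := by
      rw [div_le_div_iff₀ hn0 hC0]
      linarith
    have h8 : (0 : ℝ) ≤ w ^ (a * b) / Fintype.card V := by positivity
    have h9 : 1 / C ≤ 1 := by
      rw [div_le_one hC0]; exact hC
    calc _ ≤ (w ^ (a * b) / Fintype.card V) ^ 1 :=
          pow_le_pow_of_le_one h8 (h7.trans h9) hk1
      _ ≤ 1 / C := by rw [pow_one]; exact h7
  have hMk : M ^ k ≤ M ^ a := pow_le_pow_right₀ hM (by omega)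
  rw [h2]
  calc _ ≤ (K ^ k * w ^ x1 / w ^ x2 * (M / Fintype.card V) ^ k) * (w ^ y * (K * p) ^ r) :=
        mul_le_mul_of_nonneg_left h1 (by positivity)
    _ = K ^ (k + r) * M ^ k * p ^ (a - 1) * (w ^ (x1 + N * (k - 1) + y) / w ^ x2) *
          (1 / (Fintype.card V : ℝ) ^ k) := by
        rw [mul_pow, hpr, div_pow, pow_add, pow_add, pow_add]
        ring
    _ ≤ K ^ (k + r) * M ^ k * p ^ (a - 1) * (w ^ (a * b * k)) *
          (1 / (Fintype.card V : ℝ) ^ k) := by
        refine mul_le_mul_of_nonneg_right ?_ (by positivity)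
        refine mul_le_mul_of_nonneg_left ?_ (by positivity)
        rw [div_le_iff₀ (by positivity)]
        exact h5
    _ = K ^ a * M ^ k * p ^ (a - 1) * (w ^ (a * b) / Fintype.card V) ^ k := by
        rw [hkr, div_pow, ← pow_mul]
        ring
    _ ≤ K ^ a * M ^ a * p ^ (a - 1) * (1 / C) := by
        refine mul_le_mul ?_ h6 (by positivity) (by positivity)
        refine mul_le_mul_of_nonneg_right ?_ (by positivity)
        exact mul_le_mul_of_nonneg_left hMk (by positivity)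
    _ ≤ K ^ a * M ^ a * (K ^ a * h) * (1 / C) := by
        refine mul_le_mul_of_nonneg_right ?_ (by positivity)
        exact mul_le_mul_of_nonneg_left h4 (by positivity)
    _ = _ := by
        rw [two_mul, pow_add]
        ring

/-- an unpopular neighbour of a popular vertex is light -/
lemma light [Nonempty V] {Q : U → Finset V} {φ : U → V → ℝ} (hF : F.IsAcyclic)
    (hφ : ∀ u v, 0 ≤ φ u v) {s k : U} (hsk : F.Adj s k) {x L : ℝ} (hx : 0 ≤ x) (hL : 0 ≤ L)
    {v z : V} (hvz : G.Adj v z) (h1 : bt F G Q φ univ ≤ x * bv F G Q φ univ k z)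
    (h2 : ¬ bt F G Q φ univ ≤ (x * L) * bv F G Q φ univ s v) :
    L * bv F G Q φ (br F s k) s v ≤ bN F G Q φ (br F s k) s z := by
  obtain ⟨B, hB⟩ : ∃ B, B = br F s k := ⟨_, rfl⟩
  have hbr := br_spec hF hsk
  rw [← hB] at hbr ⊢
  have hdis : Disjoint Bᶜ B := disjoint_compl_left
  have hun : Bᶜ ∪ B = univ := by rw [union_comm, union_compl]
  have hkB : k ∈ Bᶜ := mem_compl.mpr hbr.2.1
  have hc : ∀ x ∈ B, ∀ y ∈ Bᶜ, F.Adj x y → x = s ∧ y = k :=
    fun x hx y hy hxy => hbr.2.2 x hx y (mem_compl.mp hy) hxy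
  have hg : ∀ X Y : U → V, (∀ u ∈ Bᶜ, X u = Y u) → ind (X k = z) = ind (Y k = z) := by
    intro X Y h
    rw [h k hkB]
  obtain ⟨c, hcd⟩ : ∃ c, c = bv F G Q φ Bᶜ k z := ⟨_, rfl⟩
  have hc0 : 0 ≤ c := by rw [hcd]; exact bv_nonneg hφ _ _ _
  have e1 : bv F G Q φ univ k z = c * bN F G Q φ B s z := by
    have h3 := EX_factor' (G := G) (Q := Q) (φ := φ) hdis hbr.1.root hkB hsk hc
      (g := fun X => ind (X k = z)) hg
    rw [hun] at h3
    have h4 : ∀ X : U → V, Wt F G Q φ Bᶜ X * ind (X k = z) * bN F G Q φ B s (X k) =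
        Wt F G Q φ Bᶜ X * ind (X k = z) * bN F G Q φ B s z := by
      intro X
      by_cases h : X k = z
      · rw [h]
      · rw [ind_false h]; simp
    have h5 : EX (fun X : U → V => Wt F G Q φ Bᶜ X * ind (X k = z) * bN F G Q φ B s (X k)) =
        c * bN F G Q φ B s z := by
      unfold EX
      rw [EE_congr h4, EE_mul_right, hcd]
      rfl
    rw [← h5, ← h3]
    rfl
  have e2 : c * bv F G Q φ B s v ≤ bv F G Q φ univ s v := by
    have h3 := EX_factor (G := G) (Q := Q) (φ := φ) hdis hbr.1.root hkB hsk hc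
      (g := fun X => ind (X k = z)) hg (fun x _ => ind (x = v))
    rw [hun] at h3
    have h4 : ∀ X : U → V, Wt F G Q φ Bᶜ X * ind (X k = z) * ∑ x, ind (G.Adj x (X k)) *
        ind (x = v) * bv F G Q φ B s x =
        Wt F G Q φ Bᶜ X * ind (X k = z) * bv F G Q φ B s v := by
      intro X
      by_cases h : X k = z
      · rw [h]
        congr 1
        have h6 : ∀ x, ind (G.Adj x z) * ind (x = v) * bv F G Q φ B s x =
            ind (v = x) * (ind (G.Adj x z) * bv F G Q φ B s x) := by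
          intro x
          rw [show (x = v) = (v = x) from propext eq_comm]
          ring
        rw [Finset.sum_congr rfl fun x _ => h6 x,
          sum_ind v (fun x => ind (G.Adj x z) * bv F G Q φ B s x), ind_true hvz, one_mul]
      · rw [ind_false h]; simp
    have h5 : EX (fun X : U → V => Wt F G Q φ Bᶜ X * ind (X k = z) *
        ∑ x, ind (G.Adj x (X k)) * ind (x = v) * bv F G Q φ B s x) =
        c * bv F G Q φ B s v := by
      unfold EX
      rw [EE_congr h4, EE_mul_right, hcd]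
      rfl
    rw [← h5, ← h3]
    unfold bv EX
    refine EE_mono uni_nonneg fun X _ => ?_
    have h7 := Wt_nonneg (F := F) (G := G) (Q := Q) hφ univ X
    have h8 : Wt F G Q φ univ X * ind (X k = z) ≤ Wt F G Q φ univ X := by
      have := mul_le_mul_of_nonneg_left (ind_le_one (X k = z)) h7
      linarith
    exact mul_le_mul_of_nonneg_right h8 (ind_nonneg _)
  by_contra hno
  push Not at hno h2
  rw [e1] at h1
  have h3 : (x * L) * (c * bv F G Q φ B s v) ≤ (x * L) * bv F G Q φ univ s v :=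
    mul_le_mul_of_nonneg_left e2 (mul_nonneg hx hL)
  have h4 : (x * c) * bN F G Q φ B s z ≤ (x * c) * (L * bv F G Q φ B s v) :=
    mul_le_mul_of_nonneg_left hno.le (mul_nonneg hx hc0)
  nlinarith

lemma chain_stab {α : Type} [Fintype α] (D : ℕ → Finset α) (hmono : ∀ i, D i ⊆ D (i + 1))
    (h0 : (D 0).Nonempty) : ∃ i, i < Fintype.card α ∧ D i = D (i + 1) := by
  by_contra hcon
  push Not at hcon
  have key : ∀ i, i ≤ Fintype.card α → i + 1 ≤ (D i).card := by
    intro i
    induction i with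
    | zero => intro _; exact card_pos.mpr h0
    | succ i ih =>
      intro hi
      have h1 := ih (by omega)
      have h2 : D i ⊂ D (i + 1) := by
        refine Finset.ssubset_iff_subset_ne.mpr ⟨hmono i, hcon i (by omega)⟩
      have := card_lt_card h2
      omega
  have h1 := key _ le_rfl
  have h2 := Finset.card_le_univ (D (Fintype.card α))
  omega

end core

end Pool.Agent.H88BC
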