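import Pool.Agent.H88BC.Core

/-!
# The mass of the light rich edges
-/

set_option autoImplicit false
set_option linter.unusedSectionVars false

open Finset Classical

namespace Pool.Agent.H88BC

section core2

variable {U V : Type} [Fintype U] [Fintype V]
variable {F : SimpleGraph U} {G : SimpleGraph V} {Q : U → Finset V}

/-- all vertices of `K₁` are popular and the boundary edges are free -/
def EvS (F : SimpleGraph U) (G : SimpleGraph V) (Q : U → Finset V) (M : ℝ) (τ : U × U → ℝ)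
    (K₁ : Finset U) (φ : U → V → ℝ) (X : U → V) : Prop :=
  (∀ u ∈ K₁, bt F G Q φ univ ≤ M * bv F G Q φ univ u (X u)) ∧
    ∀ e ∈ bd F K₁, bN F G Q φ (br F e.1 e.2) e.1 (X e.2) ≤ τ e * bt F G Q φ (br F e.1 e.2)

/-- the edge `e` is rich and light -/
def EvR (F : SimpleGraph U) (G : SimpleGraph V) (Q : U → Finset V) (L : ℝ) (τ : U × U → ℝ)
    (e : U × U) (φ : U → V → ℝ) (X : U → V) : Prop :=
  (¬ bN F G Q φ (br F e.1 e.2) e.1 (X e.2) ≤ τ e * bt F G Q φ (br F e.1 e.2)) ∧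
    L * bv F G Q φ (br F e.1 e.2) e.1 (X e.1) ≤ bN F G Q φ (br F e.1 e.2) e.1 (X e.2)

lemma trich [Nonempty V] {φ : U → V → ℝ} (hF : F.IsAcyclic)
    (hφ : ∀ u v, 0 ≤ φ u v) {L : ℝ} (hL : 1 ≤ L) (huge : U → Prop) (τ : U × U → ℝ) {X : U → V}
    (hX : Wt F G Q φ univ X ≠ 0) :
    (∀ u, ¬ bt F G Q φ univ ≤ L * bv F G Q φ univ u (X u)) ∨
    (∃ u, huge u ∧ bt F G Q φ univ ≤ L ^ (Fintype.card U + 1) * bv F G Q φ univ u (X u)) ∨
    (∃ K₁, (∃ k0, Grow F k0 K₁) ∧ EvS F G Q (L ^ (Fintype.card U + 1)) τ K₁ φ X) ∨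
    ∃ e : U × U, (F.Adj e.1 e.2 ∧ ¬ huge e.2) ∧ EvR F G Q L τ e φ X := by
  by_contra hcon
  push Not at hcon
  obtain ⟨⟨u0, hu0⟩, hB, hC, hD⟩ := hcon
  have hHm : Hm F G Q univ X := by
    by_contra hno
    apply hX
    unfold Wt
    rw [ind_false hno, zero_mul]
  have hL0 : 0 ≤ L := by linarith
  have hpop : ∀ u, 0 ≤ bv F G Q φ univ u (X u) := fun u => bv_nonneg hφ _ _ _
  let D : ℕ → Finset U := fun i => univ.filter
    (fun u => bt F G Q φ univ ≤ L ^ (i + 1) * bv F G Q φ univ u (X u))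
  have hmem : ∀ i u, u ∈ D i ↔ bt F G Q φ univ ≤ L ^ (i + 1) * bv F G Q φ univ u (X u) := by
    intro i u
    simp [D]
  have hle : ∀ i j, i ≤ j → D i ⊆ D j := by
    intro i j hij u hu
    rw [hmem] at hu ⊢
    refine hu.trans ?_
    exact mul_le_mul_of_nonneg_right (pow_le_pow_right₀ hL (by omega)) (hpop u)
  obtain ⟨i, hi, hst⟩ := chain_stab D (fun i => hle i (i + 1) (by omega))
    ⟨u0, by rw [hmem, zero_add, pow_one]; exact hu0⟩
  have hu0i : u0 ∈ D i := hle 0 i (by omega) (by rw [hmem, zero_add, pow_one]; exact hu0)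
  obtain ⟨K₁, hK₁, hsub, hmax⟩ := exists_grow F hu0i
  have hpopK : ∀ u ∈ K₁, bt F G Q φ univ ≤
      L ^ (Fintype.card U + 1) * bv F G Q φ univ u (X u) := by
    intro u hu
    have := hle i (Fintype.card U) hi.le (hsub hu)
    rwa [hmem] at this
  have hno := hC K₁ ⟨u0, hK₁⟩
  unfold EvS at hno
  have hno' : ¬ ∀ e ∈ bd F K₁, bN F G Q φ (br F e.1 e.2) e.1 (X e.2) ≤
      τ e * bt F G Q φ (br F e.1 e.2) := fun h => hno ⟨hpopK, h⟩
  push Not at hno'
  obtain ⟨e, he, hrich⟩ := hno'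
  have he' := mem_bd.mp he
  have hk : e.2 ∈ D i := hsub he'.2.1
  have hs : e.1 ∉ D (i + 1) := by
    rw [← hst]
    intro h
    exact he'.1 (hmax e.2 he'.2.1 e.1 h he'.2.2.symm)
  have hhuge : ¬ huge e.2 := fun h => absurd (hpopK e.2 he'.2.1) (not_le.mpr (hB e.2 h))
  refine hD e ⟨he'.2.2, hhuge⟩ ⟨not_le.mpr hrich, ?_⟩
  rw [hmem] at hk hs
  refine light hF hφ he'.2.2 (x := L ^ (i + 1)) (by positivity) hL0
    (hHm.2 e.1 (mem_univ _) e.2 (mem_univ _) he'.2.2) hk ?_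
  rw [← pow_succ]
  exact hs

variable {Rt : U → Type} {gad : ∀ u, Gad V (Rt u)} {Λ : U → ℝ} {δ : ℝ}

/-- the mass of an event -/
noncomputable def Ms (F : SimpleGraph U) (G : SimpleGraph V) (Q : U → Finset V)
    (gad : ∀ u, Gad V (Rt u)) (E : (U → V → ℝ) → (U → V) → Prop) : ℝ :=
  EG gad (fun γ => EX (fun X => Wt F G Q (phi gad γ) univ X * ind (E (phi gad γ) X)))

theorem core [Nonempty V] (hF : F.IsAcyclic)
    (hv : ∀ u, (gad u).Valid G (Q u) (Λ u) δ) {L x1 : ℝ} (hL : 1 ≤ L) (huge : U → Prop)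
    (τ : U × U → ℝ) (hpos : 0 < bt F G Q one univ)
    (hA : Ms F G Q gad (fun φ X => ∀ u, ¬ bt F G Q φ univ ≤ L * bv F G Q φ univ u (X u)) ≤
      3 / 8 * bt F G Q one univ)
    (hB : ∀ u, huge u → Ms F G Q gad (fun φ X => bt F G Q φ univ ≤
      L ^ (Fintype.card U + 1) * bv F G Q φ univ u (X u)) ≤ x1)
    (hC : ∀ K₁, (∃ k0, Grow F k0 K₁) →
      Ms F G Q gad (EvS F G Q (L ^ (Fintype.card U + 1)) τ K₁) ≤ x1)
    (hx1 : 0 ≤ x1)
    (hx : ((2 : ℝ) ^ Fintype.card U + Fintype.card U) * x1 ≤ 1 / 8 * bt F G Q one univ) :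
    ∃ e : U × U, (F.Adj e.1 e.2 ∧ ¬ huge e.2) ∧
      bt F G Q one univ / (2 * (Fintype.card U : ℝ) ^ 2) ≤ Ms F G Q gad (EvR F G Q L τ e) := by
  obtain ⟨h, hh⟩ : ∃ h, h = bt F G Q one univ := ⟨_, rfl⟩
  obtain ⟨SB, hSB⟩ : ∃ SB : Finset U, SB = univ.filter huge := ⟨_, rfl⟩
  obtain ⟨SC, hSC⟩ : ∃ SC : Finset (Finset U), SC = univ.filter (fun K₁ => ∃ k0, Grow F k0 K₁) :=
    ⟨_, rfl⟩
  obtain ⟨SE, hSE⟩ : ∃ SE : Finset (U × U), SE = univ.filter
    (fun e => F.Adj e.1 e.2 ∧ ¬ huge e.2) := ⟨_, rfl⟩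
  -- pointwise
  have hpt : ∀ (γ : ∀ u, (gad u).Γ) (X : U → V), Wt F G Q (phi gad γ) univ X ≤
      Wt F G Q (phi gad γ) univ X * ind (∀ u, ¬ bt F G Q (phi gad γ) univ ≤
        L * bv F G Q (phi gad γ) univ u (X u)) +
      (∑ u ∈ SB, Wt F G Q (phi gad γ) univ X * ind (bt F G Q (phi gad γ) univ ≤
        L ^ (Fintype.card U + 1) * bv F G Q (phi gad γ) univ u (X u)) +
      (∑ K₁ ∈ SC, Wt F G Q (phi gad γ) univ X *
        ind (EvS F G Q (L ^ (Fintype.card U + 1)) τ K₁ (phi gad γ) X) +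
      ∑ e ∈ SE, Wt F G Q (phi gad γ) univ X * ind (EvR F G Q L τ e (phi gad γ) X))) := by
    intro γ X
    have hφ := phi_nonneg hv γ
    have hW : 0 ≤ Wt F G Q (phi gad γ) univ X := Wt_nonneg hφ _ _
    have n1 : 0 ≤ Wt F G Q (phi gad γ) univ X * ind (∀ u, ¬ bt F G Q (phi gad γ) univ ≤
        L * bv F G Q (phi gad γ) univ u (X u)) := mul_nonneg hW (ind_nonneg _)
    have n2 : 0 ≤ ∑ u ∈ SB, Wt F G Q (phi gad γ) univ X * ind (bt F G Q (phi gad γ) univ ≤
        L ^ (Fintype.card U + 1) * bv F G Q (phi gad γ) univ u (X u)) :=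
      Finset.sum_nonneg fun _ _ => mul_nonneg hW (ind_nonneg _)
    have n3 : 0 ≤ ∑ K₁ ∈ SC, Wt F G Q (phi gad γ) univ X *
        ind (EvS F G Q (L ^ (Fintype.card U + 1)) τ K₁ (phi gad γ) X) :=
      Finset.sum_nonneg fun _ _ => mul_nonneg hW (ind_nonneg _)
    have n4 : 0 ≤ ∑ e ∈ SE, Wt F G Q (phi gad γ) univ X *
        ind (EvR F G Q L τ e (phi gad γ) X) :=
      Finset.sum_nonneg fun _ _ => mul_nonneg hW (ind_nonneg _)
    by_cases hW0 : Wt F G Q (phi gad γ) univ X = 0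
    · rw [hW0] at n1 n2 n3 n4 ⊢
      linarith
    rcases trich hF hφ hL huge τ hW0 with h1 | ⟨u, h1, h2⟩ | ⟨K₁, h1, h2⟩ | ⟨e, h1, h2⟩
    · rw [ind_true h1, mul_one]
      linarith
    · have h3 := Finset.single_le_sum (f := fun u => Wt F G Q (phi gad γ) univ X *
        ind (bt F G Q (phi gad γ) univ ≤
        L ^ (Fintype.card U + 1) * bv F G Q (phi gad γ) univ u (X u)))
        (fun _ _ => mul_nonneg hW (ind_nonneg _)) (show u ∈ SB by rw [hSB]; simpa using h1)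
      rw [ind_true h2, mul_one] at h3
      linarith
    · have h3 := Finset.single_le_sum (f := fun K₁ => Wt F G Q (phi gad γ) univ X *
        ind (EvS F G Q (L ^ (Fintype.card U + 1)) τ K₁ (phi gad γ) X))
        (fun _ _ => mul_nonneg hW (ind_nonneg _)) (show K₁ ∈ SC by rw [hSC]; simpa using h1)
      rw [ind_true h2, mul_one] at h3
      linarith
    · have h3 := Finset.single_le_sum (f := fun e => Wt F G Q (phi gad γ) univ X *
        ind (EvR F G Q L τ e (phi gad γ) X))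
        (fun _ _ => mul_nonneg hW (ind_nonneg _)) (show e ∈ SE by rw [hSE]; simpa using h1)
      rw [ind_true h2, mul_one] at h3
      linarith
  have hγ : ∀ γ : (∀ u, (gad u).Γ), bt F G Q (phi gad γ) univ ≤
      EX (fun X => Wt F G Q (phi gad γ) univ X * ind (∀ u, ¬ bt F G Q (phi gad γ) univ ≤
        L * bv F G Q (phi gad γ) univ u (X u))) +
      (∑ u ∈ SB, EX (fun X => Wt F G Q (phi gad γ) univ X * ind (bt F G Q (phi gad γ) univ ≤
        L ^ (Fintype.card U + 1) * bv F G Q (phi gad γ) univ u (X u))) +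
      (∑ K₁ ∈ SC, EX (fun X => Wt F G Q (phi gad γ) univ X *
        ind (EvS F G Q (L ^ (Fintype.card U + 1)) τ K₁ (phi gad γ) X)) +
      ∑ e ∈ SE, EX (fun X => Wt F G Q (phi gad γ) univ X *
        ind (EvR F G Q L τ e (phi gad γ) X)))) := by
    intro γ
    refine le_trans (EE_mono uni_nonneg fun X _ => hpt γ X) ?_
    unfold EX
    rw [EE_add, EE_add, EE_add, EE_sum, EE_sum, EE_sum]
  have hsum : h ≤ Ms F G Q gad (fun φ X => ∀ u, ¬ bt F G Q φ univ ≤
        L * bv F G Q φ univ u (X u)) +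
      (∑ u ∈ SB, Ms F G Q gad (fun φ X => bt F G Q φ univ ≤
        L ^ (Fintype.card U + 1) * bv F G Q φ univ u (X u)) +
      (∑ K₁ ∈ SC, Ms F G Q gad (EvS F G Q (L ^ (Fintype.card U + 1)) τ K₁) +
      ∑ e ∈ SE, Ms F G Q gad (EvR F G Q L τ e))) := by
    rw [hh, ← EG_bt (F := F) hv univ]
    refine le_trans (EE_mono (fun u => (hv u).ν0) fun γ _ => hγ γ) ?_
    rw [EE_add, EE_add, EE_add, EE_sum, EE_sum, EE_sum]
    rfl
  have sB : ∑ u ∈ SB, Ms F G Q gad (fun φ X => bt F G Q φ univ ≤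
        L ^ (Fintype.card U + 1) * bv F G Q φ univ u (X u)) ≤ (Fintype.card U : ℝ) * x1 := by
    calc _ ≤ ∑ _u ∈ SB, x1 := Finset.sum_le_sum fun u hu => hB u (by
            rw [hSB, mem_filter] at hu; exact hu.2)
      _ = (SB.card : ℝ) * x1 := by rw [Finset.sum_const, nsmul_eq_mul]
      _ ≤ _ := by
          refine mul_le_mul_of_nonneg_right ?_ hx1
          exact_mod_cast Finset.card_le_univ SB
  have sC : ∑ K₁ ∈ SC, Ms F G Q gad (EvS F G Q (L ^ (Fintype.card U + 1)) τ K₁) ≤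
      (2 : ℝ) ^ (Fintype.card U) * x1 := by
    calc _ ≤ ∑ _K ∈ SC, x1 := Finset.sum_le_sum fun K₁ hK₁ => hC K₁ (by
            rw [hSC, mem_filter] at hK₁; exact hK₁.2)
      _ = (SC.card : ℝ) * x1 := by rw [Finset.sum_const, nsmul_eq_mul]
      _ ≤ _ := by
          refine mul_le_mul_of_nonneg_right ?_ hx1
          have := Finset.card_le_univ SC
          rw [Fintype.card_finset] at this
          exact_mod_cast this
  by_contra hcon
  push Not at hcon
  have hU : (1 : ℝ) ≤ (Fintype.card U : ℝ) ^ 2 ∨ SE = ∅ := by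
    by_cases hE : SE = ∅
    · exact Or.inr hE
    · left
      obtain ⟨e, he⟩ := Finset.nonempty_iff_ne_empty.mpr hE
      have : 0 < Fintype.card U := Fintype.card_pos_iff.mpr ⟨e.1⟩
      have h1 : (1 : ℝ) ≤ Fintype.card U := by exact_mod_cast this
      nlinarith
  -- one of the two inequalities must be strict
  have hstrict : ∑ e ∈ SE, Ms F G Q gad (EvR F G Q L τ e) < 1 / 2 * h := by
    rcases Finset.eq_empty_or_nonempty SE with hE | hE
    · rw [hE, Finset.sum_empty]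
      rw [← hh] at hpos
      linarith
    · rcases hU with hU | hU
      swap
      · exact absurd hU hE.ne_empty
      have hU0 : (Fintype.card U : ℝ) ≠ 0 := by
        intro h0
        rw [h0] at hU
        norm_num at hU
      have h0 : (0 : ℝ) ≤ h / (2 * (Fintype.card U : ℝ) ^ 2) := by
        rw [← hh] at hpos
        positivity
      calc _ < ∑ _e ∈ SE, h / (2 * (Fintype.card U : ℝ) ^ 2) :=
            Finset.sum_lt_sum_of_nonempty hE fun e he => by
              rw [hSE, mem_filter] at he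
              rw [hh]
              exact hcon e he.2
        _ = (SE.card : ℝ) * (h / (2 * (Fintype.card U : ℝ) ^ 2)) := by
            rw [Finset.sum_const, nsmul_eq_mul]
        _ ≤ (Fintype.card U : ℝ) ^ 2 * (h / (2 * (Fintype.card U : ℝ) ^ 2)) := by
            refine mul_le_mul_of_nonneg_right ?_ h0
            have : SE.card ≤ Fintype.card U ^ 2 := by
              refine (Finset.card_le_univ _).trans ?_
              rw [Fintype.card_prod, sq]
            exact_mod_cast this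
        _ = 1 / 2 * h := by
            field_simp
  rw [← hh] at hA hx
  have h9 : ((2 : ℝ) ^ Fintype.card U + Fintype.card U) * x1 =
      (2 : ℝ) ^ Fintype.card U * x1 + (Fintype.card U : ℝ) * x1 := by ring
  linarith

end core2

end Pool.Agent.H88BC
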