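import Pool.Agent.H88BC.Fin2

set_option autoImplicit false

open Classical in
/-- The Bukh-Conlon conjecture for every strictly balanced rooted tree whose density exceeds the
maximum degree of the graph induced on the non-roots by more than one. -/
theorem Pool.Agent.H88BC.denseTreesOld :
    ∀ (V : Type) [Fintype V] (T : SimpleGraph V) (R : Set V),
      T.IsTree → R.Nonempty → Rᶜ.Nonempty →
      (∀ u ∈ R, ∀ v ∈ R, ¬ T.Adj u v) →
      ∀ ρ : ℝ,
        ρ = (({e | e ∈ T.edgeSet ∧ ∃ v ∈ Rᶜ, v ∈ e} : Set (Sym2 V)).ncard : ℝ) /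
              ((Rᶜ : Set V).ncard : ℝ) →
        (∀ S : Set V, S.Nonempty → S ⊂ Rᶜ →
          ρ < (({e | e ∈ T.edgeSet ∧ ∃ v ∈ S, v ∈ e} : Set (Sym2 V)).ncard : ℝ) /
                (S.ncard : ℝ)) →
        (∀ v ∈ Rᶜ, (({u | u ∈ Rᶜ ∧ T.Adj v u} : Set V).ncard : ℝ) + 1 < ρ) →
        ∀ t : ℕ, 0 < t →
          ∃ C : ℝ, ∀ n : ℕ, ∀ G : SimpleGraph (Fin n),
            (¬ ∃ f : {p : V × ℕ // p.2 < t ∧ (p.1 ∈ R → p.2 = 0)} → Fin n,
                Function.Injective f ∧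
                ∀ a b : {p : V × ℕ // p.2 < t ∧ (p.1 ∈ R → p.2 = 0)},
                  (SimpleGraph.fromRel
                    (fun a b : {p : V × ℕ // p.2 < t ∧ (p.1 ∈ R → p.2 = 0)} =>
                      T.Adj a.1.1 b.1.1 ∧ (a.1.2 = b.1.2 ∨ a.1.1 ∈ R ∨ b.1.1 ∈ R))).Adj a b →
                  G.Adj (f a) (f b)) →
            (G.edgeSet.ncard : ℝ) ≤ C * (n : ℝ) ^ (2 - 1 / ρ) := by
  intro V _ T R hT _ hR hind ρ hρ hstr hdeg t ht
  have hcard : (Rᶜ : Set V).ncard = Fintype.card (Pool.Agent.H88BC.NR R) := by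
    have h1 := Pool.Agent.H88BC.oS_card R ∅
    rw [Finset.card_empty, add_zero] at h1
    rw [← h1]
    congr 1
    ext v
    constructor
    · intro h
      exact ⟨h, Finset.notMem_empty _⟩
    · rintro ⟨h, _⟩
      exact h
  have hapos : 0 < Fintype.card (Pool.Agent.H88BC.NR R) := by
    rw [← hcard]
    exact (Set.ncard_pos (Set.toFinite _)).mpr hR
  have haR : (0 : ℝ) < (Fintype.card (Pool.Agent.H88BC.NR R) : ℝ) := by exact_mod_cast hapos
  rw [Pool.Agent.H88BC.eF_eq, hcard] at hρ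
  have hS : ∀ S : Set V, S.Nonempty → S ⊂ Rᶜ →
      Pool.Agent.H88BC.eF T Rᶜ * S.ncard <
        Fintype.card (Pool.Agent.H88BC.NR R) * Pool.Agent.H88BC.eF T S := by
    intro S hSn hSR
    have h1 := hstr S hSn hSR
    have hSpos : 0 < S.ncard := (Set.ncard_pos (Set.toFinite _)).mpr hSn
    have hSposR : (0 : ℝ) < (S.ncard : ℝ) := by exact_mod_cast hSpos
    rw [hρ, Pool.Agent.H88BC.eF_eq, div_lt_div_iff₀ haR hSposR] at h1
    rw [mul_comm (Fintype.card (Pool.Agent.H88BC.NR R))]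
    exact_mod_cast h1
  have hD : ∀ u : Pool.Agent.H88BC.NR R, Fintype.card (Pool.Agent.H88BC.NR R) *
      ((Finset.univ.filter (fun x => (Pool.Agent.H88BC.FF T R).Adj u x)).card + 1) + 1 ≤
      Pool.Agent.H88BC.eF T Rᶜ := by
    intro u
    have h1 := hdeg u.v u.p
    have h2 : ({x | x ∈ Rᶜ ∧ T.Adj u.v x} : Set V).ncard =
        (Finset.univ.filter (fun x => (Pool.Agent.H88BC.FF T R).Adj u x)).card := by
      have h3 : ({x | x ∈ Rᶜ ∧ T.Adj u.v x} : Set V) = Pool.Agent.H88BC.NR.v ''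
          ((Finset.univ.filter (fun x => (Pool.Agent.H88BC.FF T R).Adj u x) :
            Finset (Pool.Agent.H88BC.NR R)) : Set (Pool.Agent.H88BC.NR R)) := by
        ext x
        constructor
        · rintro ⟨hx, hadj⟩
          refine ⟨Pool.Agent.H88BC.NR.mk x hx, ?_, rfl⟩
          rw [Finset.mem_coe, Finset.mem_filter]
          exact ⟨Finset.mem_univ _, hadj⟩
        · rintro ⟨y, hy, rfl⟩
          rw [Finset.mem_coe, Finset.mem_filter] at hy
          exact ⟨y.p, hy.2⟩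
      rw [h3, Set.ncard_image_of_injective _ Pool.Agent.H88BC.NR.inj, Set.ncard_coe_finset]
    rw [h2, hρ, lt_div_iff₀ haR] at h1
    have h4 : ((Finset.univ.filter (fun x => (Pool.Agent.H88BC.FF T R).Adj u x)).card + 1) *
        Fintype.card (Pool.Agent.H88BC.NR R) < Pool.Agent.H88BC.eF T Rᶜ := by exact_mod_cast h1
    rw [mul_comm]
    exact h4
  obtain ⟨C, hC⟩ := Pool.Agent.H88BC.tree_main hT hR hind hS hD t ht
  refine ⟨C, fun n G hG => ?_⟩
  have h3 := hC n G (by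
    rintro ⟨f, hf1, hf2⟩
    apply hG
    refine ⟨f, hf1, fun a b hab => ?_⟩
    rw [SimpleGraph.fromRel_adj] at hab
    rcases hab.2 with h | h
    · exact hf2 a b h.1 h.2
    · refine (hf2 b a h.1 h.2).symm)
  rw [hρ]
  exact h3
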