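import Pool.Agent.H88BC.Step
import Pool.Agent.H88BC.Arith

/-!
# The iteration
-/

set_option autoImplicit false
set_option linter.unusedSectionVars false

open Finset Classical

namespace Pool.Agent.H88BC

section fin1

variable {U : Type} [Fintype U]

/-- neighbourhoods of random vertices -/
lemma init {V : Type} [Fintype V] [Nonempty V] {G : SimpleGraph V} {Rt : U → Type}
    [∀ u, Fintype (Rt u)] {col : U → Bool} {q' : U → ℕ}
    (hq' : ∀ u, Fintype.card (Rt u) = q' u + 1) {a b N : ℕ} (hNab : N ≤ a * b) {w K C δ : ℝ}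
    (hw : 1 ≤ w) (hK : 1 ≤ K) (hC : 1 ≤ C) (hδ : 0 < δ) (hCδ : 1 / δ ≤ C)
    (hn : C * w ^ (a * b) ≤ Fintype.card V)
    (hlo : ∀ x, (w ^ N)⁻¹ * Fintype.card V ≤ ((univ.filter (fun y => G.Adj x y)).card : ℝ))
    (hhi : ∀ x, ((univ.filter (fun y => G.Adj x y)).card : ℝ) ≤
      K * (w ^ N)⁻¹ * Fintype.card V) :
    Stage G Rt col q' N w K δ (fun _ => 0) := by
  have hn0 : (0 : ℝ) < Fintype.card V := by exact_mod_cast Fintype.card_pos
  have hw0 : 0 < w := by linarith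
  have hC0 : 0 < C := by linarith
  obtain ⟨p, hp⟩ : ∃ p, p = (w ^ N)⁻¹ := ⟨_, rfl⟩
  have hp0 : 0 < p := by rw [hp]; positivity
  obtain ⟨dg, hdg⟩ : ∃ dg : V → ℝ, dg = fun x => ((univ.filter (fun y => G.Adj x y)).card : ℝ) :=
    ⟨_, rfl⟩
  have hdlo : ∀ x, p * Fintype.card V ≤ dg x := fun x => by rw [hp, hdg]; exact hlo x
  have hd0 : ∀ x, 0 < dg x := fun x => lt_of_lt_of_le (by positivity) (hdlo x)
  refine ⟨fun _ => univ, fun u => mkGad (Γ := Unit) (fun _ => 1)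
    (fun _ _ => (Fintype.card V : ℝ)⁻¹) (fun _ _ => 1)
    (fun z _ v => ind (G.Adj z v) / dg z), ?_, ?_⟩
  · refine ⟨fun b x _ => ?_, fun b x _ => hhi x, fun b => ?_⟩
    · refine (hlo x).trans ?_
      have : (0 : ℝ) ≤ ((univ.filter (fun y => G.Adj x y)).card : ℝ) := Nat.cast_nonneg _
      nlinarith
    · rw [card_univ]
      nlinarith
  · intro u
    refine mkGad_valid (fun _ => zero_le_one) (by simp) (fun _ _ => by positivity) ?_
      (fun _ _ => zero_le_one) (fun z _ v => div_nonneg (ind_nonneg _) (hd0 z).le) ?_ ?_ ?_ ?_ ?_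
    · intro _ _
      rw [Finset.sum_const, card_univ, nsmul_eq_mul]
      exact mul_inv_cancel₀ hn0.ne'
    · intro z _
      simp
    · intro z _ _ _
      rw [← Finset.sum_div, sum_ind_card]
      have : dg z = ((univ.filter (fun y => G.Adj z y)).card : ℝ) := by rw [hdg]
      rw [← this]
      exact div_self (hd0 z).ne'
    · intro z _ _ _ v
      have h1 : ind (G.Adj z v) / dg z ≤ 1 / dg z :=
        div_le_div_of_nonneg_right (ind_le_one _) (hd0 z).le
      refine h1.trans ?_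
      have h2 : C ≤ dg z := by
        refine le_trans ?_ (hdlo z)
        rw [hp, inv_mul_eq_div, le_div_iff₀ (by positivity)]
        refine le_trans ?_ hn
        exact mul_le_mul_of_nonneg_left (pow_le_pow_right₀ hw hNab) hC0.le
      rw [div_le_iff₀ (hd0 z)]
      rw [div_le_iff₀ hδ] at hCδ
      nlinarith
    · intro z _ _ v h
      constructor
      · by_contra hno
        apply h
        rw [ind_false hno, zero_div]
      · positivity
    · intro z _ _ r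
      have h1 : ∏ j, (ind (G.Adj z (r j)) / dg z / (Fintype.card V : ℝ)⁻¹) ≤
          (w ^ N) ^ (q' u + 1) := by
        have e0 : (w ^ N) ^ (q' u + 1) = ∏ _j : Rt u, w ^ N := by
          rw [Finset.prod_const, card_univ, hq' u]
        rw [e0]
        refine Finset.prod_le_prod (fun j _ => ?_) fun j _ => ?_
        · exact div_nonneg (div_nonneg (ind_nonneg _) (hd0 z).le) (by positivity)
        · rw [div_inv_eq_mul, div_mul_eq_mul_div, div_le_iff₀ (hd0 z)]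
          have h2 := hdlo z
          rw [hp, inv_mul_eq_div, div_le_iff₀ (by positivity)] at h2
          have h3 := mul_le_mul_of_nonneg_right (ind_le_one (G.Adj z (r j))) hn0.le
          linarith
      rw [one_mul]
      refine h1.trans ?_
      rw [zero_mul, pow_zero, div_one, ← pow_mul]
      have : (0 : ℝ) < w ^ (N * (q' u + 1)) := by positivity
      nlinarith

theorem iter (F : SimpleGraph U) (hF : F.IsAcyclic) (hF' : F.Preconnected) (col : U → Bool)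
    (hcol : ∀ x y, F.Adj x y → col x ≠ col y) (u0 : U) (Rt : U → Type) [∀ u, Fintype (Rt u)]
    (q' : U → ℕ) (hq' : ∀ u, Fintype.card (Rt u) = q' u + 1) (a b N t : ℕ)
    (ha : a = Fintype.card U) (hNab : N ≤ a * b) (ht : 0 < t)
    (hN1 : ∀ ℓ : Bool → ℕ, (∀ c, ℓ c ≤ N) → ∀ k0 K₁, Grow F k0 K₁ →
      ∑ u ∈ K₁, N * (q' u + 1) + N * (K₁.card - 1) + ∑ e ∈ bd F K₁, (ℓ (col e.2) + 1) ≤
      a * b * K₁.card + ∑ u ∈ K₁, ℓ (col u) * q' u)
    (hTop : ∀ u, N * (q' u + 1) + N * (bd F {u}).card ≤ a * b + N * q' u)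
    (L δ : ℝ) (hL : 1 ≤ L) (hδ : 0 ≤ δ) (hL1 : (a : ℝ) ^ 2 * t / L ≤ 1 / 8)
    (hδ1 : ((Fintype.card (Σ u, Rt u) : ℝ) * (a : ℝ) + (Fintype.card (Σ u, Rt u) : ℝ) ^ 2) * δ ≤
      1 / 8)
    (hδ2 : 4 / (1 / (2 * (a : ℝ) ^ 2) * L) ≤ δ) (m : ℕ) : ∀ K : ℝ, 1 ≤ K →
    ∃ C : ℝ, 1 ≤ C ∧ ∀ (V : Type) [Fintype V] [Nonempty V] (G : SimpleGraph V)
      (w : ℝ), 1 ≤ w → C * w ^ (a * b) ≤ Fintype.card V → ∀ ℓ : Bool → ℕ, (∀ c, ℓ c ≤ N) →
      2 * N ≤ ℓ true + ℓ false + m → Stage G Rt col q' N w K δ ℓ → BU F G Rt t := by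
  induction m with
  | zero =>
    intro K hK
    obtain ⟨K', hK', C, hC, h⟩ := step F hF hF' col hcol u0 Rt q' hq' a b N t ha hNab ht hN1 hTop
      L δ hL hδ hL1 hδ1 hδ2 K hK
    refine ⟨C, hC, fun V _ _ G w hw hn ℓ hℓ hsum hSt => ?_⟩
    rcases h V G w hw hn ℓ hℓ hSt with h1 | ⟨c, hc, _⟩
    · exact h1
    · exfalso
      have e1 := hℓ true
      have e2 := hℓ false
      cases c <;> omega
  | succ m ih =>
    intro K hK
    obtain ⟨K', hK', C, hC, h⟩ := step F hF hF' col hcol u0 Rt q' hq' a b N t ha hNab ht hN1 hTop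
      L δ hL hδ hL1 hδ1 hδ2 K hK
    obtain ⟨C', hC', h'⟩ := ih K' hK'
    refine ⟨max C C', hC.trans (le_max_left _ _), fun V _ _ G w hw hn ℓ hℓ hsum hSt => ?_⟩
    have hw0 : (0 : ℝ) ≤ w ^ (a * b) := by positivity
    have hn1 : C * w ^ (a * b) ≤ Fintype.card V :=
      (mul_le_mul_of_nonneg_right (le_max_left _ _) hw0).trans hn
    have hn2 : C' * w ^ (a * b) ≤ Fintype.card V :=
      (mul_le_mul_of_nonneg_right (le_max_right _ _) hw0).trans hn
    rcases h V G w hw hn1 ℓ hℓ hSt with h1 | ⟨c, hc, hSt'⟩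
    · exact h1
    · refine h' V G w hw hn2 _ ?_ ?_ hSt'
      · intro c'
        by_cases hcc : c' = c
        · rw [hcc, Function.update_self]
          omega
        · rw [Function.update_of_ne hcc]
          exact hℓ c'
      · cases c
        · rw [Function.update_self, Function.update_of_ne (by simp)]
          omega
        · rw [Function.update_self, Function.update_of_ne (by simp)]
          omega

/-- almost regular graphs of large degree contain the blowup -/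
theorem main (F : SimpleGraph U) (hF : F.IsAcyclic) (hF' : F.Preconnected) (col : U → Bool)
    (hcol : ∀ x y, F.Adj x y → col x ≠ col y) (u0 : U) (Rt : U → Type) [∀ u, Fintype (Rt u)]
    (q' : U → ℕ) (hq' : ∀ u, Fintype.card (Rt u) = q' u + 1) (a b t : ℕ)
    (ha : a = Fintype.card U) (ht : 0 < t)
    (hS1 : ∀ k0 K₁, Grow F k0 K₁ → K₁ ≠ univ →
      a * (∑ u ∈ K₁, (q' u + 1) + (K₁.card - 1)) + 1 ≤ b * K₁.card)
    (hS2 : ∀ u, a * ((univ.filter (fun x => F.Adj u x)).card + 1) + 1 ≤ b)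
    (hS3 : b + 1 = a + ∑ u, (q' u + 1)) (K : ℝ) (hK : 1 ≤ K) :
    ∃ C : ℝ, 1 ≤ C ∧ ∀ (V : Type) [Fintype V] [Nonempty V] (G : SimpleGraph V)
      (w : ℝ), 1 ≤ w → C * w ^ (a * b) ≤ Fintype.card V →
      (∀ x, (w ^ (a * a))⁻¹ * Fintype.card V ≤ ((univ.filter (fun y => G.Adj x y)).card : ℝ)) →
      (∀ x, ((univ.filter (fun y => G.Adj x y)).card : ℝ) ≤
        K * (w ^ (a * a))⁻¹ * Fintype.card V) → BU F G Rt t := by
  have ha1 : 1 ≤ a := by
    rw [ha]
    exact Fintype.card_pos_iff.mpr ⟨u0⟩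
  have haR : (1 : ℝ) ≤ a := by exact_mod_cast ha1
  have hab : a ≤ b := by
    have := hS2 u0
    nlinarith
  have hNab : a * a ≤ a * b := Nat.mul_le_mul_left a hab
  obtain ⟨r, hr⟩ : ∃ r : ℝ, r = (Fintype.card (Σ u, Rt u) : ℝ) := ⟨_, rfl⟩
  have hr0 : 0 ≤ r := by rw [hr]; exact Nat.cast_nonneg _
  obtain ⟨δ, hδ⟩ : ∃ δ : ℝ, δ = 1 / (8 * (r * a + r ^ 2 + 1)) := ⟨_, rfl⟩
  have hδ0 : 0 < δ := by rw [hδ]; positivity
  obtain ⟨η, hη⟩ : ∃ η : ℝ, η = 1 / (2 * (a : ℝ) ^ 2) := ⟨_, rfl⟩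
  have hη0 : 0 < η := by rw [hη]; positivity
  obtain ⟨L, hL⟩ : ∃ L : ℝ, L = 1 + 8 * (a : ℝ) ^ 2 * t + 4 / (η * δ) := ⟨_, rfl⟩
  have p1 : 0 ≤ 8 * (a : ℝ) ^ 2 * t := by positivity
  have p2 : 0 < 4 / (η * δ) := by positivity
  have hL1 : 1 ≤ L := by rw [hL]; linarith
  have hL0 : 0 < L := by linarith
  have hLt : (a : ℝ) ^ 2 * t / L ≤ 1 / 8 := by
    rw [div_le_iff₀ hL0, hL]
    linarith
  have hδ1 : ((Fintype.card (Σ u, Rt u) : ℝ) * (a : ℝ) + (Fintype.card (Σ u, Rt u) : ℝ) ^ 2) * δ ≤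
      1 / 8 := by
    rw [← hr, hδ, mul_one_div, div_le_div_iff₀ (by positivity) (by norm_num)]
    linarith
  have hδ2 : 4 / (1 / (2 * (a : ℝ) ^ 2) * L) ≤ δ := by
    rw [← hη, div_le_iff₀ (by positivity)]
    have h1 : 4 / (η * δ) ≤ L := by rw [hL]; linarith
    rw [div_le_iff₀ (by positivity)] at h1
    linarith
  obtain ⟨C, hC, h⟩ := iter F hF hF' col hcol u0 Rt q' hq' a b (a * a) t ha hNab ht
    (fun ℓ hℓ k0 K₁ hK₁ => cond_N1 hF hF' col hcol q' a b ha hS1 hS2 hS3 ℓ hℓ k0 K₁ hK₁)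
    (by
      intro u
      rw [card_bd_single]
      have h1 := hS2 u
      have h2 : a * (a * ((univ.filter (fun x => F.Adj u x)).card + 1)) ≤ a * b :=
        Nat.mul_le_mul_left a (by omega)
      nlinarith)
    L δ hL1 hδ0.le hLt hδ1 hδ2 (2 * (a * a)) K hK
  refine ⟨max C (1 / δ), hC.trans (le_max_left _ _), fun V _ _ G w hw hn hlo hhi => ?_⟩
  have hw0 : (0 : ℝ) ≤ w ^ (a * b) := by positivity
  have hn1 : C * w ^ (a * b) ≤ Fintype.card V :=
    (mul_le_mul_of_nonneg_right (le_max_left _ _) hw0).trans hn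
  refine h V G w hw hn1 (fun _ => 0) (fun _ => Nat.zero_le _) (by omega) ?_
  exact init hq' hNab hw hK (hC.trans (le_max_left _ _)) hδ0 (le_max_right _ _) hn hlo hhi

end fin1

end Pool.Agent.H88BC
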