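import Pool.Agent.H88BC.Conv
import Pool.Agent.W247.BC.REG

/-!
# From the core theorem to rooted trees
-/

set_option autoImplicit false
set_option linter.unusedSectionVars false

open Finset Classical

namespace Pool.Agent.H88BC

section fin2

variable {W : Type} [Fintype W] {T : SimpleGraph W} {R : Set W}

lemma eF_single (u : NR R) : eF T {u.v} ≤
    (univ.filter (fun x => (FF T R).Adj u x)).card + Fintype.card (Rt T R u) := by
  have h1 : (univ : Finset (Sym2 W)).filter (mE T {u.v}) ⊆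
      (univ.filter (fun x => (FF T R).Adj u x)).image (fun x : NR R => s(u.v, x.v)) ∪
      univ.image (fun r : Rt T R u => s(u.v, r.1)) := by
    intro e he
    rw [mem_filter] at he
    obtain ⟨_, he1, v, hv, hve⟩ := he
    rw [Set.mem_singleton_iff] at hv
    rw [hv] at hve
    obtain ⟨x, rfl⟩ := Sym2.mem_iff_exists.mp hve
    have hadj : T.Adj u.v x := he1
    by_cases hx : x ∈ R
    · refine mem_union_right _ (mem_image.mpr ⟨⟨x, hx, hadj⟩, mem_univ _, rfl⟩)
    · refine mem_union_left _ (mem_image.mpr ⟨NR.mk x hx, ?_, rfl⟩)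
      rw [mem_filter]
      exact ⟨mem_univ _, hadj⟩
  unfold eF
  refine (card_le_card h1).trans ((card_union_le _ _).trans ?_)
  exact Nat.add_le_add card_image_le (by
    have := card_image_le (s := (univ : Finset (Rt T R u))) (f := fun r : Rt T R u => s(u.v, r.1))
    rwa [card_univ] at this)

/-- the blowup inside a graph -/
lemma embed (hind : ∀ u ∈ R, ∀ v ∈ R, ¬ T.Adj u v) (hleaf : ∀ r ∈ R, ∃! u, T.Adj r u) {V : Type}
    {G : SimpleGraph V} {t : ℕ} (h : BU (FF T R) G (Rt T R) t) :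
    ∃ f : {p : W × ℕ // p.2 < t ∧ (p.1 ∈ R → p.2 = 0)} → V, Function.Injective f ∧
      ∀ a b : {p : W × ℕ // p.2 < t ∧ (p.1 ∈ R → p.2 = 0)},
        T.Adj a.1.1 b.1.1 → (a.1.2 = b.1.2 ∨ a.1.1 ∈ R ∨ b.1.1 ∈ R) → G.Adj (f a) (f b) := by
  obtain ⟨r, X, h1, h2, h3, h4, h5, h6⟩ := h
  have hro : ∀ v : W, v ∈ R → ∃ q : (Σ u, Rt T R u), q.2.1 = v := by
    intro v hv
    obtain ⟨u, hu, _⟩ := hleaf v hv
    exact ⟨⟨NR.mk u (fun h => hind v hv u h hu), ⟨v, hv, hu.symm⟩⟩, rfl⟩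
  choose ro hro' using hro
  have huniq : ∀ (v : W) (hv : v ∈ R) (u : NR R) (hu : T.Adj u.v v),
      ro v hv = ⟨u, ⟨v, hv, hu⟩⟩ := by
    intro v hv u hu
    have e1 := hro' v hv
    obtain ⟨⟨u', ⟨v', hv', hu'⟩⟩, hq⟩ : ∃ q, q = ro v hv := ⟨_, rfl⟩
    rw [← hq] at e1 ⊢
    simp only at e1
    subst e1
    have e2 : u' = u := by
      obtain ⟨x, _, hx⟩ := hleaf v' hv
      have a1 := hx u'.v hu'.symm
      have a2 := hx u.v hu.symm
      exact NR.inj (a1.trans a2.symm)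
    subst e2
    rfl
  have hroinj : ∀ v v' hv hv', ro v hv = ro v' hv' → v = v' := by
    intro v v' hv hv' he
    rw [← hro' v hv, ← hro' v' hv', he]
  refine ⟨fun p => if hp : p.1.1 ∈ R then r (ro p.1.1 hp) else X ⟨p.1.2, p.2.1⟩ (NR.mk p.1.1 hp),
    ?_, ?_⟩
  · intro p p' he
    simp only at he
    by_cases hp : p.1.1 ∈ R <;> by_cases hp' : p'.1.1 ∈ R
    · rw [dif_pos hp, dif_pos hp'] at he
      have e1 := hroinj _ _ _ _ (h1 he)
      exact Subtype.ext (Prod.ext e1 ((p.2.2 hp).trans (p'.2.2 hp').symm))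
    · rw [dif_pos hp, dif_neg hp'] at he
      exact absurd he (h4 _ _ _)
    · rw [dif_neg hp, dif_pos hp'] at he
      exact absurd he.symm (h4 _ _ _)
    · rw [dif_neg hp, dif_neg hp'] at he
      have e1 : (⟨p.1.2, p.2.1⟩ : Fin t) = ⟨p'.1.2, p'.2.1⟩ := by
        by_contra hne
        exact h3 _ _ hne _ _ he
      rw [e1] at he
      have e2 := h2 _ he
      have e3 := congrArg NR.v e2
      rw [NR.mk_v, NR.mk_v] at e3
      exact Subtype.ext (Prod.ext e3 (by simpa using congrArg Fin.val e1))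
  · intro p p' hadj hor
    simp only
    by_cases hp : p.1.1 ∈ R <;> by_cases hp' : p'.1.1 ∈ R
    · exact absurd hadj (hind _ hp _ hp')
    · rw [dif_pos hp, dif_neg hp', huniq _ hp (NR.mk p'.1.1 hp') hadj.symm]
      exact (h6 _ _ _).symm
    · rw [dif_neg hp, dif_pos hp', huniq _ hp' (NR.mk p.1.1 hp) hadj]
      exact h6 _ _ _
    · rw [dif_neg hp, dif_neg hp']
      have e1 : (⟨p.1.2, p.2.1⟩ : Fin t) = ⟨p'.1.2, p'.2.1⟩ := by
        rcases hor with h | h | h
        · exact Fin.ext h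
        · exact absurd h hp
        · exact absurd h hp'
      rw [e1]
      exact h5 _ _ _ hadj

theorem tree_main (hT : T.IsTree) (hR : Rᶜ.Nonempty) (hind : ∀ u ∈ R, ∀ v ∈ R, ¬ T.Adj u v)
    (hstr : ∀ S : Set W, S.Nonempty → S ⊂ Rᶜ →
      eF T Rᶜ * S.ncard < Fintype.card (NR R) * eF T S)
    (hdeg : ∀ u : NR R, Fintype.card (NR R) *
      ((univ.filter (fun x => (FF T R).Adj u x)).card + 1) + 1 ≤ eF T Rᶜ) (t : ℕ) (ht : 0 < t) :
    ∃ C : ℝ, ∀ n : ℕ, ∀ G : SimpleGraph (Fin n),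
      (¬ ∃ f : {p : W × ℕ // p.2 < t ∧ (p.1 ∈ R → p.2 = 0)} → Fin n, Function.Injective f ∧
        ∀ a b : {p : W × ℕ // p.2 < t ∧ (p.1 ∈ R → p.2 = 0)},
        T.Adj a.1.1 b.1.1 → (a.1.2 = b.1.2 ∨ a.1.1 ∈ R ∨ b.1.1 ∈ R) → G.Adj (f a) (f b)) →
      (G.edgeSet.ncard : ℝ) ≤
        C * (n : ℝ) ^ (2 - 1 / ((eF T Rᶜ : ℝ) / (Fintype.card (NR R) : ℝ))) := by
  have hconn := conn hR hstr
  obtain ⟨hcnt, hleaf⟩ := counts hT hR hind hconn
  obtain ⟨s0, hs0⟩ := hR
  obtain ⟨a, ha⟩ : ∃ a, a = Fintype.card (NR R) := ⟨_, rfl⟩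
  obtain ⟨b, hb⟩ : ∃ b, b = eF T Rᶜ := ⟨_, rfl⟩
  have ha1 : 1 ≤ a := by rw [ha]; exact Fintype.card_pos_iff.mpr ⟨NR.mk s0 hs0⟩
  -- every non-root has a root neighbour
  have hq1 : ∀ u : NR R, 1 ≤ Fintype.card (Rt T R u) := by
    intro u
    have h1 : eF T Rᶜ ≤ Fintype.card (NR R) * eF T {u.v} := by
      by_cases hS : ({u.v} : Set W) = Rᶜ
      · rw [hS]
        exact Nat.le_mul_of_pos_left _ (by omega)
      · have h2 := hstr {u.v} (Set.singleton_nonempty _) ⟨by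
          rw [Set.singleton_subset_iff]
          exact u.p, fun h => hS (Set.Subset.antisymm (by
          rw [Set.singleton_subset_iff]
          exact u.p) h)⟩
        rw [Set.ncard_singleton, mul_one] at h2
        exact h2.le
    have h2 := hdeg u
    have h3 := eF_single (T := T) u
    have h4 := Nat.mul_le_mul_left (Fintype.card (NR R)) h3
    by_contra hno
    have h5 : Fintype.card (Rt T R u) = 0 := by omega
    rw [h5, add_zero] at h4
    have h6 := h2.trans (h1.trans h4)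
    rw [mul_add] at h6
    omega
  obtain ⟨q', hq'⟩ : ∃ q' : NR R → ℕ, q' = fun u => Fintype.card (Rt T R u) - 1 := ⟨_, rfl⟩
  have hq : ∀ u, Fintype.card (Rt T R u) = q' u + 1 := by
    intro u
    rw [hq']
    have := hq1 u
    simp only
    omega
  have hF : (FF T R).IsAcyclic := by
    have := hT.isAcyclic.of_comap ⟨NR.v (R := R), NR.inj⟩
    exact this
  obtain ⟨colo⟩ := hT.isAcyclic.colorable_two
  have hS1 : ∀ k0 K₁, Grow (FF T R) k0 K₁ → K₁ ≠ univ →
      a * (∑ u ∈ K₁, (q' u + 1) + (K₁.card - 1)) + 1 ≤ b * K₁.card := by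
    intro k0 K₁ hK₁ hne
    have h1 : (oS R K₁).Nonempty := by
      by_contra hcon
      rw [Set.not_nonempty_iff_eq_empty] at hcon
      apply hne
      rw [Finset.eq_univ_iff_forall]
      intro x
      by_contra hx
      have : x.v ∈ oS R K₁ := ⟨x.p, hx⟩
      rw [hcon] at this
      exact this
    have h2 : oS R K₁ ⊂ Rᶜ := by
      refine ⟨fun v hv => hv.1, fun h => ?_⟩
      obtain ⟨_, h'⟩ := h (show k0.v ∈ Rᶜ from k0.p)
      exact h' hK₁.root
    have h3 := hstr _ h1 h2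
    have h4 := oS_card R K₁
    have h5 := eF_nF T R K₁
    have h6 := nF_grow T R hK₁
    rw [← all_edges hind] at h5
    rw [← ha, ← hb] at h3
    rw [← ha] at h4
    rw [← hb] at h5
    have h7 : ∑ u ∈ K₁, Fintype.card (Rt T R u) = ∑ u ∈ K₁, (q' u + 1) :=
      Finset.sum_congr rfl fun u _ => hq u
    rw [h7] at h6
    have h8 := Nat.mul_le_mul_left a h6
    have h9 : b * (oS R K₁).ncard + b * K₁.card = b * a := by rw [← mul_add, h4]
    have h10 : a * eF T (oS R K₁) + a * nF T R K₁ = a * b := by rw [← mul_add, h5]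
    have h11 : a * b = b * a := mul_comm _ _
    omega
  have hab : a < b := by
    have := hdeg (NR.mk s0 hs0)
    rw [← ha, ← hb] at this
    nlinarith
  -- the exponents
  have haR : (1 : ℝ) ≤ a := by exact_mod_cast ha1
  have ha0 : (0 : ℝ) < a := by linarith
  have hbR : (a : ℝ) < b := by exact_mod_cast hab
  have hb0 : (0 : ℝ) < b := by linarith
  obtain ⟨ρ, hρ⟩ : ∃ ρ : ℝ, ρ = (b : ℝ) / (a : ℝ) := ⟨_, rfl⟩
  have hρ1 : 1 < ρ := by rw [hρ, one_lt_div ha0]; exact hbR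
  have hρ0 : 0 < ρ := by linarith
  obtain ⟨ε, hε⟩ : ∃ ε : ℝ, ε = 1 - 1 / ρ := ⟨_, rfl⟩
  have hinv : 1 / ρ < 1 := by rw [div_lt_one hρ0]; exact hρ1
  have hinv0 : 0 < 1 / ρ := by positivity
  obtain ⟨K, hK, hreg⟩ := Pool.Agent.W247.BC.reg_holds ε (by rw [hε]; linarith)
    (by rw [hε]; linarith)
  have hKR : (1 : ℝ) ≤ (K : ℝ) := by exact_mod_cast hK
  obtain ⟨C, hC, hmain⟩ := main (FF T R) hF hconn (fun u => colo u.v = 0) (by
      intro x y hxy he
      have h1 : colo x.v ≠ colo y.v := colo.valid hxy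
      simp only [decide_eq_decide] at he
      omega) (NR.mk s0 hs0) (Rt T R) q' hq a b t ha ht hS1 (by rw [ha, hb]; exact hdeg) (by
      rw [hb, ha, hcnt]
      congr 1
      exact Finset.sum_congr rfl fun u _ => hq u) K hKR
  have hC0 : 0 < C := by linarith
  obtain ⟨C', hC'⟩ := hreg C
  refine ⟨C', fun n G hno => ?_⟩
  rw [← ha, ← hb, ← hρ]
  have hexp : 2 - 1 / ρ = 1 + ε := by rw [hε]; ring
  rw [hexp]
  by_contra hcon
  push Not at hcon
  obtain ⟨U0, W0, D, hUW, hU, hW, hD, hdU, hdW⟩ := hC' n G hcon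
  apply hno
  -- the host graph
  let V : Type := {v : Fin n // v ∈ U0 ∪ W0}
  let H : SimpleGraph V :=
    { Adj := fun x y => G.Adj x.1 y.1 ∧ ((x.1 ∈ U0 ∧ y.1 ∈ W0) ∨ (x.1 ∈ W0 ∧ y.1 ∈ U0))
      symm := ⟨fun x y h => ⟨h.1.symm, h.2.elim (fun h' => Or.inr ⟨h'.2, h'.1⟩)
        (fun h' => Or.inl ⟨h'.2, h'.1⟩)⟩⟩
      loopless := ⟨fun x h => G.loopless.irrefl x.1 h.1⟩ }
  have hcard : Fintype.card V = U0.card + W0.card := by
    rw [Fintype.card_coe, Finset.card_union_of_disjoint hUW]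
  have hne : Nonempty V := by
    obtain ⟨u, hu⟩ := hU
    exact ⟨⟨u, Finset.mem_union_left _ hu⟩⟩
  obtain ⟨N, hN⟩ : ∃ N : ℝ, N = (Fintype.card V : ℝ) := ⟨_, rfl⟩
  have hN1 : 1 ≤ N := by
    rw [hN]
    exact_mod_cast Fintype.card_pos
  have hN0 : 0 < N := by linarith
  rw [← hcard, ← hN] at hD
  have hNε : 0 < N ^ ε := Real.rpow_pos_of_pos hN0 ε
  have hD0 : (0 : ℝ) < D := lt_of_lt_of_le (by positivity) hD
  -- degrees
  have hdegU : ∀ x : V, x.1 ∈ U0 → ((univ : Finset V).filter (fun y => H.Adj x y)).card =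
      (W0.filter (fun w => G.Adj x.1 w)).card := by
    intro x hx
    have hxW : x.1 ∉ W0 := fun h => (Finset.disjoint_left.mp hUW) hx h
    refine Finset.card_bij (fun y _ => y.1) ?_ (fun _ _ _ _ h => Subtype.ext h) ?_
    · intro y hy
      rw [mem_filter] at hy ⊢
      obtain ⟨_, h1, h2 | h2⟩ := hy
      · exact ⟨h2.2, h1⟩
      · exact absurd h2.1 hxW
    · intro y hy
      rw [mem_filter] at hy
      exact ⟨⟨y, Finset.mem_union_right _ hy.1⟩, by
        rw [mem_filter]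
        exact ⟨mem_univ _, hy.2, Or.inl ⟨hx, hy.1⟩⟩, rfl⟩
  have hdegW : ∀ x : V, x.1 ∈ W0 → ((univ : Finset V).filter (fun y => H.Adj x y)).card =
      (U0.filter (fun u => G.Adj u x.1)).card := by
    intro x hx
    have hxU : x.1 ∉ U0 := fun h => (Finset.disjoint_left.mp hUW) h hx
    refine Finset.card_bij (fun y _ => y.1) ?_ (fun _ _ _ _ h => Subtype.ext h) ?_
    · intro y hy
      rw [mem_filter] at hy ⊢
      obtain ⟨_, h1, h2 | h2⟩ := hy
      · exact absurd h2.1 hxU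
      · exact ⟨h2.2, h1.symm⟩
    · intro y hy
      rw [mem_filter] at hy
      exact ⟨⟨y, Finset.mem_union_left _ hy.1⟩, by
        rw [mem_filter]
        exact ⟨mem_univ _, hy.2.symm, Or.inr ⟨hx, hy.1⟩⟩, rfl⟩
  have hdH : ∀ x : V, (D : ℝ) ≤ (((univ : Finset V).filter (fun y => H.Adj x y)).card : ℝ) ∧
      (((univ : Finset V).filter (fun y => H.Adj x y)).card : ℝ) ≤ K * D := by
    intro x
    rcases Finset.mem_union.mp x.2 with hx | hx
    · rw [hdegU x hx]
      have := hdU x.1 hx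
      exact ⟨by exact_mod_cast this.1, by exact_mod_cast this.2⟩
    · rw [hdegW x hx]
      have := hdW x.1 hx
      exact ⟨by exact_mod_cast this.1, by exact_mod_cast this.2⟩
  have hDN : (D : ℝ) ≤ N := by
    obtain ⟨x⟩ := hne
    refine (hdH x).1.trans ?_
    rw [hN]
    exact_mod_cast Finset.card_le_univ _
  -- the parameter
  have hND : 1 ≤ N / D := by rw [one_le_div hD0]; exact hDN
  have hND0 : 0 < N / D := by linarith
  obtain ⟨w, hw⟩ : ∃ w : ℝ, w = (N / D) ^ (((a * a : ℕ) : ℝ)⁻¹) := ⟨_, rfl⟩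
  have haa : a * a ≠ 0 := Nat.mul_ne_zero (by omega) (by omega)
  have hw1 : 1 ≤ w := by
    rw [hw]
    exact Real.one_le_rpow hND (by positivity)
  have hwaa : w ^ (a * a) = N / D := by
    rw [hw]
    exact Real.rpow_inv_natCast_pow hND0.le haa
  have hwab : w ^ (a * b) = (N / D) ^ ρ := by
    rw [hw, ← Real.rpow_natCast, ← Real.rpow_mul hND0.le]
    congr 1
    rw [hρ]
    push_cast
    field_simp
  have hbig : C * w ^ (a * b) ≤ (Fintype.card V : ℝ) := by
    rw [← hN, hwab]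
    have h1 : N / D ≤ N ^ (1 / ρ) / C := by
      rw [div_le_div_iff₀ hD0 hC0]
      have h2 : N = N ^ (1 / ρ) * N ^ ε := by
        rw [← Real.rpow_add hN0, hε]
        have : 1 / ρ + (1 - 1 / ρ) = 1 := by ring
        rw [this, Real.rpow_one]
      have h3 : 0 < N ^ (1 / ρ) := Real.rpow_pos_of_pos hN0 _
      calc N * C = N ^ (1 / ρ) * (C * N ^ ε) := by
            nth_rewrite 1 [h2]
            ring
        _ ≤ _ := mul_le_mul_of_nonneg_left hD h3.le
    have h4 : (N / D) ^ ρ ≤ (N ^ (1 / ρ) / C) ^ ρ := Real.rpow_le_rpow hND0.le h1 hρ0.le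
    have h5 : (N ^ (1 / ρ) / C) ^ ρ = N / C ^ ρ := by
      rw [Real.div_rpow (Real.rpow_nonneg hN0.le _) hC0.le, ← Real.rpow_mul hN0.le,
        one_div, inv_mul_cancel₀ hρ0.ne', Real.rpow_one]
    have h6 : C ≤ C ^ ρ := by
      calc C = C ^ (1 : ℝ) := (Real.rpow_one C).symm
        _ ≤ _ := Real.rpow_le_rpow_of_exponent_le hC hρ1.le
    have h7 : 0 < C ^ ρ := Real.rpow_pos_of_pos hC0 ρ
    calc C * (N / D) ^ ρ ≤ C * (N / C ^ ρ) := by
          rw [← h5]
          exact mul_le_mul_of_nonneg_left h4 hC0.le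
      _ = N * (C / C ^ ρ) := by ring
      _ ≤ N * 1 := by
          refine mul_le_mul_of_nonneg_left ?_ hN0.le
          rw [div_le_one h7]
          exact h6
      _ = N := mul_one N
  have hDeq : (w ^ (a * a))⁻¹ * (Fintype.card V : ℝ) = D := by
    rw [hwaa, ← hN]
    field_simp
  have hBU := hmain V H w hw1 hbig (fun x => by rw [hDeq]; convert (hdH x).1)
    (fun x => by rw [mul_assoc, hDeq]; convert (hdH x).2)
  obtain ⟨f, hf1, hf2⟩ := embed hind hleaf hBU
  exact ⟨fun p => (f p).1, fun p p' h => hf1 (Subtype.ext h), fun p p' h h' => (hf2 p p' h h').1⟩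

end fin2

end Pool.Agent.H88BC
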