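import Pool.Agent.H88BC.Host

/-!
# Random roots
-/

set_option autoImplicit false
set_option linter.unusedSectionVars false

open Finset Classical

namespace Pool.Agent.H88BC

section prob2

variable {U : Type} [Fintype U] {Ω : U → Type} [∀ u, Fintype (Ω u)] {w : ∀ u, Ω u → ℝ}

lemma EE_prod_mul (g : ∀ u, Ω u → ℝ) (u : U) (h : Ω u → ℝ) :
    EE w (fun ω => (∏ v, g v (ω v)) * h (ω u)) =
      (∑ x, w u x * (g u x * h x)) * ∏ v ∈ univ.erase u, ∑ x, w v x * g v x := by
  have h1 : ∀ ω : (∀ u, Ω u), (∏ v, g v (ω v)) * h (ω u) =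
      ∏ v, (Function.update g u (fun x => g u x * h x)) v (ω v) := by
    intro ω
    rw [← Finset.mul_prod_erase univ _ (mem_univ u),
      ← Finset.mul_prod_erase univ (fun v => Function.update g u (fun x => g u x * h x) v (ω v))
        (mem_univ u)]
    have h2 : ∏ v ∈ univ.erase u, Function.update g u (fun x => g u x * h x) v (ω v) =
        ∏ v ∈ univ.erase u, g v (ω v) := by
      refine Finset.prod_congr rfl fun v hv => ?_
      rw [Function.update_of_ne (mem_erase.mp hv).1]
    rw [h2, Function.update_self]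
    ring
  rw [EE_congr h1, EE_prod_univ, ← Finset.mul_prod_erase univ _ (mem_univ u)]
  congr 1
  · rw [Function.update_self]
  · refine Finset.prod_congr rfl fun v hv => ?_
    rw [Function.update_of_ne (mem_erase.mp hv).1]

lemma EE_prod_mul1 (g : ∀ u, Ω u → ℝ) (u : U) (hg : ∀ v, ∑ x, w v x * g v x = 1) (h : Ω u → ℝ) :
    EE w (fun ω => (∏ v, g v (ω v)) * h (ω u)) = ∑ x, w u x * (g u x * h x) := by
  rw [EE_prod_mul, Finset.prod_eq_one fun v _ => hg v, mul_one]

lemma EE_prod_mul2 (g : ∀ u, Ω u → ℝ) (hg : ∀ v, ∑ x, w v x * g v x = 1) {u u' : U} (hu : u ≠ u')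
    (h : Ω u → ℝ) (h' : Ω u' → ℝ) :
    EE w (fun ω => (∏ v, g v (ω v)) * (h (ω u) * h' (ω u'))) =
      (∑ x, w u x * (g u x * h x)) * ∑ x, w u' x * (g u' x * h' x) := by
  have h1 : ∀ ω : (∀ u, Ω u), (∏ v, g v (ω v)) * (h (ω u) * h' (ω u')) =
      (∏ v, (Function.update g u (fun x => g u x * h x)) v (ω v)) * h' (ω u') := by
    intro ω
    rw [← Finset.mul_prod_erase univ _ (mem_univ u),
      ← Finset.mul_prod_erase univ (fun v => Function.update g u (fun x => g u x * h x) v (ω v))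
        (mem_univ u)]
    have h2 : ∏ v ∈ univ.erase u, Function.update g u (fun x => g u x * h x) v (ω v) =
        ∏ v ∈ univ.erase u, g v (ω v) := by
      refine Finset.prod_congr rfl fun v hv => ?_
      rw [Function.update_of_ne (mem_erase.mp hv).1]
    rw [h2, Function.update_self]
    ring
  rw [EE_congr h1, EE_prod_mul, Function.update_of_ne hu.symm]
  have h3 : ∏ v ∈ univ.erase u', ∑ x, w v x * Function.update g u (fun x => g u x * h x) v x =
      ∑ x, w u x * (g u x * h x) := by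
    rw [Finset.prod_eq_single_of_mem u (mem_erase.mpr ⟨hu, mem_univ u⟩)]
    · rw [Function.update_self]
    · intro v _ hv
      rw [Function.update_of_ne hv]
      exact hg v
  rw [h3]
  ring

end prob2

/-- a random configuration of roots for one vertex -/
structure Gad (V ι : Type) where
  Γ : Type
  fin : Fintype Γ
  ν : Γ → ℝ
  f : V → Γ → ℝ
  root : Γ → ι → V

instance {V ι : Type} (g : Gad V ι) : Fintype g.Γ := g.fin

/-- `f z` is a density with respect to `ν`, for all possible positions `z` of the vertex -/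
structure Gad.Valid {V ι : Type} (g : Gad V ι) (G : SimpleGraph V) (Q : Finset V) (Λ δ : ℝ) :
    Prop where
  ν0 : ∀ γ, 0 ≤ g.ν γ
  ν1 : ∑ γ, g.ν γ = 1
  f0 : ∀ z γ, 0 ≤ g.f z γ
  f1 : ∀ z ∈ Q, ∑ γ, g.ν γ * g.f z γ = 1
  fb : ∀ z ∈ Q, ∀ γ, g.f z γ ≤ Λ
  c1 : ∀ z ∈ Q, ∀ j v, ∑ γ, g.ν γ * (g.f z γ * ind (g.root γ j = v)) ≤ δ
  c2 : ∀ z ∈ Q, ∀ j j', j ≠ j' → ∑ γ, g.ν γ * (g.f z γ * ind (g.root γ j = g.root γ j')) ≤ δ
  adj : ∀ z ∈ Q, ∀ γ, g.ν γ * g.f z γ ≠ 0 → ∀ j, G.Adj z (g.root γ j)

section family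

variable {U V : Type} [Fintype U] [Fintype V] {Rt : U → Type}

/-- the densities for given roots -/
def phi (gad : ∀ u, Gad V (Rt u)) (γ : ∀ u, (gad u).Γ) : U → V → ℝ := fun u z => (gad u).f z (γ u)

/-- expectation over the independent roots -/
noncomputable def EG (gad : ∀ u, Gad V (Rt u)) (h : (∀ u, (gad u).Γ) → ℝ) : ℝ :=
  EE (fun u => (gad u).ν) h

variable {F : SimpleGraph U} {G : SimpleGraph V} {Q : U → Finset V} {gad : ∀ u, Gad V (Rt u)}
  {Λ : U → ℝ} {δ : ℝ}

lemma phi_nonneg (hv : ∀ u, (gad u).Valid G (Q u) (Λ u) δ) (γ : ∀ u, (gad u).Γ) :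
    ∀ u z, 0 ≤ phi gad γ u z := fun u z => (hv u).f0 z (γ u)

lemma EG_Wt (hv : ∀ u, (gad u).Valid G (Q u) (Λ u) δ) (B : Finset U) (g : (U → V) → ℝ) :
    EG gad (fun γ => EX (fun X => Wt F G Q (phi gad γ) B X * g X)) =
      EX (fun X => Wt F G Q one B X * g X) := by
  unfold EG EX
  rw [EE_swap]
  refine EE_congr fun X => ?_
  rw [EE_mul_right]
  congr 1
  by_cases hX : Hm F G Q B X
  · unfold Wt
    rw [ind_true hX, EE_mul_left]
    congr 1
    have h := EE_prod (w := fun u => (gad u).ν) (fun u => (hv u).ν1) B (fun u γ => (gad u).f (X u) γ)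
    unfold phi
    rw [h]
    unfold one
    exact Finset.prod_congr rfl fun u hu => (hv u).f1 (X u) (hX.1 u hu)
  · unfold Wt
    rw [ind_false hX]
    simp only [zero_mul]
    unfold EE
    simp

lemma EG_bt (hv : ∀ u, (gad u).Valid G (Q u) (Λ u) δ) (B : Finset U) :
    EG gad (fun γ => bt F G Q (phi gad γ) B) = bt F G Q one B := by
  have h := EG_Wt (F := F) hv B (fun _ => 1)
  simp only [mul_one] at h
  exact h

lemma EG_bv (hv : ∀ u, (gad u).Valid G (Q u) (Λ u) δ) (B : Finset U) (s : U) (v : V) :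
    EG gad (fun γ => bv F G Q (phi gad γ) B s v) = bv F G Q one B s v :=
  EG_Wt (F := F) hv B (fun X => ind (X s = v))

lemma EG_bN (hv : ∀ u, (gad u).Valid G (Q u) (Λ u) δ) (B : Finset U) (s : U) (z : V) :
    EG gad (fun γ => bN F G Q (phi gad γ) B s z) = bN F G Q one B s z := by
  unfold bN EG
  rw [EE_sum]
  refine Finset.sum_congr rfl fun v _ => ?_
  rw [EE_mul_left]
  congr 1
  exact EG_bv hv B s v

/-- bounding the mass of an event of small conditional probability -/
lemma EG_le (_hv : ∀ u, (gad u).Valid G (Q u) (Λ u) δ) {c : ℝ}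
    (h : (∀ u, (gad u).Γ) → (U → V) → ℝ)
    (hh : ∀ X, Hm F G Q univ X → EG gad (fun γ => (∏ u, phi gad γ u (X u)) * h γ X) ≤ c) :
    EG gad (fun γ => EX (fun X => Wt F G Q (phi gad γ) univ X * h γ X)) ≤
      bt F G Q one univ * c := by
  unfold EG at hh ⊢
  unfold bt EX
  rw [EE_swap, ← EE_mul_right]
  refine EE_mono uni_nonneg fun X _ => ?_
  by_cases hX : Hm F G Q univ X
  · unfold Wt
    rw [ind_true hX]
    simp only [one_mul]
    have : ∏ u : U, (one : U → V → ℝ) u (X u) = 1 := by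
      unfold one
      exact Finset.prod_const_one
    rw [this, one_mul]
    exact hh X hX
  · unfold Wt
    rw [ind_false hX]
    simp only [zero_mul]
    unfold EE
    simp

/-- collision of a root and a fixed vertex -/
lemma coll1 (hv : ∀ u, (gad u).Valid G (Q u) (Λ u) δ) (u : U) (j : Rt u) (v : U) :
    EG gad (fun γ => EX (fun X => Wt F G Q (phi gad γ) univ X *
      ind ((gad u).root (γ u) j = X v))) ≤ bt F G Q one univ * δ := by
  refine EG_le hv _ fun X hX => ?_
  unfold EG phi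
  have h := EE_prod_mul1 (w := fun u => (gad u).ν) (fun u γ => (gad u).f (X u) γ) u
    (fun v => (hv v).f1 (X v) (hX.1 v (mem_univ v))) (fun γ => ind ((gad u).root γ j = X v))
  rw [h]
  exact (hv u).c1 (X u) (hX.1 u (mem_univ u)) j (X v)

/-- collision of two roots of the same vertex -/
lemma coll2 (hv : ∀ u, (gad u).Valid G (Q u) (Λ u) δ) (u : U) (j j' : Rt u) (hj : j ≠ j') :
    EG gad (fun γ => EX (fun X => Wt F G Q (phi gad γ) univ X *
      ind ((gad u).root (γ u) j = (gad u).root (γ u) j'))) ≤ bt F G Q one univ * δ := by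
  refine EG_le hv _ fun X hX => ?_
  unfold EG phi
  have h := EE_prod_mul1 (w := fun u => (gad u).ν) (fun u γ => (gad u).f (X u) γ) u
    (fun v => (hv v).f1 (X v) (hX.1 v (mem_univ v)))
    (fun γ => ind ((gad u).root γ j = (gad u).root γ j'))
  rw [h]
  exact (hv u).c2 (X u) (hX.1 u (mem_univ u)) j j' hj

/-- collision of two roots of different vertices -/
lemma coll3 (hv : ∀ u, (gad u).Valid G (Q u) (Λ u) δ) {u u' : U} (hu : u ≠ u') (j : Rt u)
    (j' : Rt u') :
    EG gad (fun γ => EX (fun X => Wt F G Q (phi gad γ) univ X *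
      ind ((gad u).root (γ u) j = (gad u').root (γ u') j'))) ≤ bt F G Q one univ * δ := by
  refine EG_le hv _ fun X hX => ?_
  unfold EG phi
  have h0 : ∀ γ : (∀ u, (gad u).Γ), (∏ u, (gad u).f (X u) (γ u)) *
      ind ((gad u).root (γ u) j = (gad u').root (γ u') j') =
      ∑ v : V, (∏ u, (gad u).f (X u) (γ u)) *
        (ind ((gad u).root (γ u) j = v) * ind ((gad u').root (γ u') j' = v)) := by
    intro γ
    rw [← Finset.mul_sum]
    congr 1
    have := sum_ind ((gad u).root (γ u) j) (fun v => ind ((gad u').root (γ u') j' = v))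
    rw [this]
    unfold ind
    by_cases h : (gad u).root (γ u) j = (gad u').root (γ u') j'
    · rw [if_pos h, if_pos h.symm]
    · rw [if_neg h, if_neg fun h' => h h'.symm]
  rw [EE_congr h0, EE_sum]
  have h1 : ∀ v : V, EE (fun u => (gad u).ν) (fun γ => (∏ u, (gad u).f (X u) (γ u)) *
        (ind ((gad u).root (γ u) j = v) * ind ((gad u').root (γ u') j' = v))) ≤
      δ * ∑ x, (gad u').ν x * ((gad u').f (X u') x * ind ((gad u').root x j' = v)) := by
    intro v
    have h := EE_prod_mul2 (w := fun u => (gad u).ν) (fun u γ => (gad u).f (X u) γ)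
      (fun v => (hv v).f1 (X v) (hX.1 v (mem_univ v))) hu (fun γ => ind ((gad u).root γ j = v))
      (fun γ => ind ((gad u').root γ j' = v))
    rw [h]
    refine mul_le_mul_of_nonneg_right ((hv u).c1 (X u) (hX.1 u (mem_univ u)) j v) ?_
    exact Finset.sum_nonneg fun x _ => mul_nonneg ((hv u').ν0 x)
      (mul_nonneg ((hv u').f0 _ x) (ind_nonneg _))
  refine (Finset.sum_le_sum fun v _ => h1 v).trans ?_
  rw [← Finset.mul_sum, Finset.sum_comm]
  have h2 : ∑ x, ∑ v : V, (gad u').ν x * ((gad u').f (X u') x * ind ((gad u').root x j' = v)) = 1 := by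
    rw [← (hv u').f1 (X u') (hX.1 u' (mem_univ u'))]
    refine Finset.sum_congr rfl fun x _ => ?_
    rw [← Finset.mul_sum, ← Finset.mul_sum]
    have := sum_ind ((gad u').root x j') (fun _ => (1 : ℝ))
    simp only [mul_one] at this
    rw [this, mul_one]
  rw [h2, mul_one]

end family

end Pool.Agent.H88BC
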