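import Pool.Agent.H88BC.Wt

/-!
# Homomorphism densities of trees in almost regular hosts
-/

set_option autoImplicit false
set_option linter.unusedSectionVars false

open Finset Classical

namespace Pool.Agent.H88BC

section host

variable {U V : Type} [Fintype U] [Fintype V]

/-- the parts `P b` induce an almost regular bipartite graph of density `p` -/
structure Host (G : SimpleGraph V) (P : Bool → Finset V) (K p : ℝ) : Prop where
  lo : ∀ b, ∀ x ∈ P b, p * Fintype.card V ≤ K * (((P (!b)).filter (fun y => G.Adj x y)).card : ℝ)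
  hi : ∀ b, ∀ x ∈ P b, (((P (!b)).filter (fun y => G.Adj x y)).card : ℝ) ≤ K * p * Fintype.card V
  big : ∀ b, (Fintype.card V : ℝ) ≤ K * ((P b).card : ℝ)

/-- the constant weights -/
def one : U → V → ℝ := fun _ _ => 1

lemma one_nonneg : ∀ (u : U) (v : V), 0 ≤ (one : U → V → ℝ) u v := fun _ _ => zero_le_one

variable {F : SimpleGraph U} {G : SimpleGraph V} {P : Bool → Finset V} {K p : ℝ} {col : U → Bool}

lemma Wt_zero {Q : U → Finset V} {φ : U → V → ℝ} {B : Finset U} {u : U} (hu : u ∈ B) {X : U → V}
    (h : X u ∉ Q u) : Wt F G Q φ B X = 0 := by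
  unfold Wt
  rw [ind_false, zero_mul]
  intro hm
  exact h (hm.1 u hu)

lemma bv_zero {Q : U → Finset V} {φ : U → V → ℝ} {B : Finset U} {s : U} (hs : s ∈ B) {v : V}
    (h : v ∉ Q s) : bv F G Q φ B s v = 0 := by
  unfold bv
  have h1 : ∀ X : U → V, Wt F G Q φ B X * ind (X s = v) = 0 := by
    intro X
    by_cases hX : X s = v
    · rw [Wt_zero hs (by rw [hX]; exact h), zero_mul]
    · rw [ind_false hX, mul_zero]
  unfold EX
  rw [EE_congr h1]
  unfold EE
  simp

lemma EX_ind [Nonempty V] (s : U) (z : V) :
    EX (fun X : U → V => ind (X s = z)) = (Fintype.card V : ℝ)⁻¹ := by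
  have h := EE_prod (Ω := fun _ : U => V) (w := fun _ _ => ((Fintype.card V : ℝ))⁻¹) uni_sum {s}
    (fun _ x => ind (x = z))
  simp only [Finset.prod_singleton] at h
  unfold EX
  rw [h, ← Finset.mul_sum]
  unfold ind
  simp

lemma Wt_single {Q : U → Finset V} {s : U} (X : U → V) :
    Wt F G Q one {s} X = ind (X s ∈ Q s) := by
  unfold Wt one Hm
  simp only [mem_singleton, forall_eq, SimpleGraph.irrefl, false_implies, and_true,
    Finset.prod_const_one, mul_one]

lemma bv_single [Nonempty V] {Q : U → Finset V} {s : U} (v : V) :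
    bv F G Q one {s} s v = ind (v ∈ Q s) * (Fintype.card V : ℝ)⁻¹ := by
  have h1 : ∀ X : U → V, Wt F G Q one {s} X * ind (X s = v) = ind (v ∈ Q s) * ind (X s = v) := by
    intro X
    rw [Wt_single]
    by_cases hX : X s = v
    · rw [hX]
    · rw [ind_false hX, mul_zero, mul_zero]
  unfold bv EX
  rw [EE_congr h1, EE_mul_left]
  congr 1
  exact EX_ind s v

lemma sum_ind_adj {z : V} (A : Finset V) (c : ℝ) :
    ∑ v, ind (G.Adj v z) * (ind (v ∈ A) * c) = ((A.filter (fun y => G.Adj z y)).card : ℝ) * c := by
  have h1 : ∀ v, ind (G.Adj v z) * (ind (v ∈ A) * c) = (if v ∈ A ∧ G.Adj z v then c else 0) := by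
    intro v
    unfold ind
    by_cases h1 : v ∈ A <;> by_cases h2 : G.Adj z v
    · simp [h1, h2, h2.symm]
    · have h3 : ¬ G.Adj v z := fun h => h2 h.symm
      simp [h1, h2, h3]
    · simp [h1]
    · simp [h1]
  rw [Finset.sum_congr rfl fun v _ => h1 v, ← Finset.sum_filter, Finset.sum_const, nsmul_eq_mul]
  congr 3
  ext v
  simp

lemma bN_single [Nonempty V] {u : U} (z : V) :
    bN F G (fun u => P (col u)) one {u} u z =
      (((P (col u)).filter (fun y => G.Adj z y)).card : ℝ) * (Fintype.card V : ℝ)⁻¹ := by
  unfold bN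
  rw [Finset.sum_congr rfl fun v _ => by rw [bv_single]]
  exact sum_ind_adj _ _

section

variable (hF : F.IsAcyclic) (hcol : ∀ x y, F.Adj x y → col x ≠ col y)
  (hH : Host G P K p) (hK : 1 ≤ K) (hp : 0 < p)

include hF hcol hH hK hp

lemma bN_single_bd [Nonempty V] {u w : U} (hadj : F.Adj w u) {z : V} (hz : z ∈ P (col w)) :
    p / K ≤ bN F G (fun u => P (col u)) one {u} u z ∧
      bN F G (fun u => P (col u)) one {u} u z ≤ K * p := by
  have hn : (0 : ℝ) < Fintype.card V := by exact_mod_cast Fintype.card_pos
  have hc : col u = !(col w) := by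
    have := hcol w u hadj
    cases h1 : col w <;> cases h2 : col u <;> simp_all
  rw [bN_single, hc]
  constructor
  · rw [div_le_iff₀ (by linarith), ← div_eq_mul_inv, div_mul_eq_mul_div, le_div_iff₀ hn]
    have := hH.lo (col w) z hz
    linarith
  · rw [← div_eq_mul_inv, div_le_iff₀ hn]
    exact hH.hi (col w) z hz

/-- rooted densities of trees -/
lemma bv_bd [Nonempty V] {s : U} {A : Finset U} (hA : Grow F s A) {z : V} (hz : z ∈ P (col s)) :
    (p / K) ^ (A.card - 1) * (Fintype.card V : ℝ)⁻¹ ≤
        bv F G (fun u => P (col u)) one A s z ∧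
      bv F G (fun u => P (col u)) one A s z ≤
        (K * p) ^ (A.card - 1) * (Fintype.card V : ℝ)⁻¹ := by
  have hK0 : 0 < K := by linarith
  induction hA with
  | base =>
    rw [bv_single, ind_true hz]
    simp
  | @step A w u hA hw hu hadj ih =>
    have hins : insert u A = A ∪ {u} := by
      rw [Finset.insert_eq, Finset.union_comm]
    have hdis : Disjoint A {u} := by simpa using hu
    have hf := EX_factor' (F := F) (G := G) (Q := fun u => P (col u)) (φ := one) hdis
      (s := u) (k := w) (mem_singleton_self u) hw hadj.symm (by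
        intro x hx y hy hxy
        rw [mem_singleton] at hx
        refine ⟨hx, ?_⟩
        rw [hx] at hxy
        exact hA.uniq hF hu hy hw hxy.symm hadj)
      (g := fun X => ind (X s = z)) (by
        intro X Y h
        show ind (X s = z) = ind (Y s = z)
        rw [h s hA.root])
    have e1 : bv F G (fun u => P (col u)) one (insert u A) s z =
        EX (fun X : U → V => Wt F G (fun u => P (col u)) one A X * ind (X s = z) *
          bN F G (fun u => P (col u)) one {u} u (X w)) := by
      unfold bv
      rw [hins]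
      exact hf
    have hcard : (insert u A).card - 1 = (A.card - 1) + 1 := by
      rw [card_insert_of_notMem hu]
      have : 0 < A.card := card_pos.mpr ⟨w, hw⟩
      omega
    rw [e1, hcard]
    have hpt : ∀ X : U → V, Wt F G (fun u => P (col u)) one A X * ind (X s = z) * (p / K) ≤
        Wt F G (fun u => P (col u)) one A X * ind (X s = z) *
          bN F G (fun u => P (col u)) one {u} u (X w) ∧
        Wt F G (fun u => P (col u)) one A X * ind (X s = z) *
          bN F G (fun u => P (col u)) one {u} u (X w) ≤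
        Wt F G (fun u => P (col u)) one A X * ind (X s = z) * (K * p) := by
      intro X
      by_cases hX : X w ∈ P (col w)
      · have hb := bN_single_bd hF hcol hH hK hp hadj hX
        have h0 : 0 ≤ Wt F G (fun u => P (col u)) one A X * ind (X s = z) :=
          mul_nonneg (Wt_nonneg one_nonneg _ _) (ind_nonneg _)
        exact ⟨mul_le_mul_of_nonneg_left hb.1 h0, mul_le_mul_of_nonneg_left hb.2 h0⟩
      · rw [Wt_zero hw hX]
        simp
    constructor
    · calc (p / K) ^ ((A.card - 1) + 1) * (Fintype.card V : ℝ)⁻¹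
          = ((p / K) ^ (A.card - 1) * (Fintype.card V : ℝ)⁻¹) * (p / K) := by ring
        _ ≤ bv F G (fun u => P (col u)) one A s z * (p / K) :=
            mul_le_mul_of_nonneg_right ih.1 (by positivity)
        _ = EX (fun X : U → V => Wt F G (fun u => P (col u)) one A X * ind (X s = z) *
              (p / K)) := by
            unfold bv EX
            rw [EE_mul_right]
        _ ≤ _ := EE_mono uni_nonneg fun X _ => (hpt X).1
    · calc _ ≤ EX (fun X : U → V => Wt F G (fun u => P (col u)) one A X * ind (X s = z) *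
              (K * p)) := EE_mono uni_nonneg fun X _ => (hpt X).2
        _ = bv F G (fun u => P (col u)) one A s z * (K * p) := by
            unfold bv EX
            rw [EE_mul_right]
        _ ≤ ((K * p) ^ (A.card - 1) * (Fintype.card V : ℝ)⁻¹) * (K * p) :=
            mul_le_mul_of_nonneg_right ih.2 (by positivity)
        _ = _ := by ring

lemma bv_le [Nonempty V] {s : U} {A : Finset U} (hA : Grow F s A) (z : V) :
    bv F G (fun u => P (col u)) one A s z ≤
        (K * p) ^ (A.card - 1) * (Fintype.card V : ℝ)⁻¹ := by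
  have hK0 : 0 < K := by linarith
  by_cases hz : z ∈ P (col s)
  · exact (bv_bd hF hcol hH hK hp hA hz).2
  · rw [bv_zero hA.root hz]
    positivity

lemma bt_le [Nonempty V] {s : U} {A : Finset U} (hA : Grow F s A) :
    bt F G (fun u => P (col u)) one A ≤ (K * p) ^ (A.card - 1) := by
  have hn : (0 : ℝ) < Fintype.card V := by exact_mod_cast Fintype.card_pos
  rw [bt_eq A s]
  calc _ ≤ ∑ _v : V, (K * p) ^ (A.card - 1) * (Fintype.card V : ℝ)⁻¹ :=
        Finset.sum_le_sum fun v _ => bv_le hF hcol hH hK hp hA v
    _ = _ := by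
        rw [Finset.sum_const, Finset.card_univ, nsmul_eq_mul]
        field_simp

lemma bt_ge [Nonempty V] {s : U} {A : Finset U} (hA : Grow F s A) :
    (p / K) ^ (A.card - 1) / K ≤ bt F G (fun u => P (col u)) one A := by
  have hn : (0 : ℝ) < Fintype.card V := by exact_mod_cast Fintype.card_pos
  have hK0 : 0 < K := by linarith
  rw [bt_eq A s]
  calc (p / K) ^ (A.card - 1) / K
      ≤ ((P (col s)).card : ℝ) * ((p / K) ^ (A.card - 1) * (Fintype.card V : ℝ)⁻¹) := by
        have h1 := hH.big (col s)
        have h2 : (0 : ℝ) < (p / K) ^ (A.card - 1) := by positivity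
        rw [div_le_iff₀ hK0]
        have h3 : (1 : ℝ) ≤ K * ((P (col s)).card : ℝ) * (Fintype.card V : ℝ)⁻¹ := by
          rw [← div_eq_mul_inv, le_div_iff₀ hn, one_mul]
          exact h1
        nlinarith
    _ = ∑ _v ∈ P (col s), (p / K) ^ (A.card - 1) * (Fintype.card V : ℝ)⁻¹ := by
        rw [Finset.sum_const, nsmul_eq_mul]
    _ ≤ ∑ v ∈ P (col s), bv F G (fun u => P (col u)) one A s v :=
        Finset.sum_le_sum fun v hv => (bv_bd hF hcol hH hK hp hA hv).1
    _ ≤ _ := Finset.sum_le_sum_of_subset_of_nonneg (subset_univ _)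
        fun v _ _ => bv_nonneg one_nonneg _ _ _

/-- the density at a neighbour of the root -/
lemma bN_bd [Nonempty V] {s k : U} {A : Finset U} (hA : Grow F s A) (hsk : F.Adj s k) {z : V}
    (hz : z ∈ P (col k)) :
    (p / K) ^ A.card ≤ bN F G (fun u => P (col u)) one A s z ∧
      bN F G (fun u => P (col u)) one A s z ≤ (K * p) ^ A.card := by
  have hn : (0 : ℝ) < Fintype.card V := by exact_mod_cast Fintype.card_pos
  have hK0 : 0 < K := by linarith
  have hcA : A.card = (A.card - 1) + 1 := by
    have : 0 < A.card := card_pos.mpr ⟨s, hA.root⟩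
    omega
  have hs := bN_single_bd hF hcol hH hK hp hsk.symm hz
  have e : ∀ c : ℝ, ∑ v, ind (G.Adj v z) * (ind (v ∈ P (col s)) * (c * (Fintype.card V : ℝ)⁻¹)) =
      c * bN F G (fun u => P (col u)) one {s} s z := by
    intro c
    rw [bN_single, sum_ind_adj]
    ring
  constructor
  · calc (p / K) ^ A.card = (p / K) ^ (A.card - 1) * (p / K) := by
          rw [← pow_succ, ← hcA]
      _ ≤ (p / K) ^ (A.card - 1) * bN F G (fun u => P (col u)) one {s} s z :=
          mul_le_mul_of_nonneg_left hs.1 (by positivity)
      _ = _ := (e _).symm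
      _ ≤ _ := by
          unfold bN
          refine Finset.sum_le_sum fun v _ => mul_le_mul_of_nonneg_left ?_ (ind_nonneg _)
          by_cases hv : v ∈ P (col s)
          · rw [ind_true hv, one_mul]
            exact (bv_bd hF hcol hH hK hp hA hv).1
          · rw [ind_false hv, zero_mul]
            exact bv_nonneg one_nonneg _ _ _
  · calc bN F G (fun u => P (col u)) one A s z
        ≤ ∑ v, ind (G.Adj v z) * (ind (v ∈ P (col s)) *
            ((K * p) ^ (A.card - 1) * (Fintype.card V : ℝ)⁻¹)) := by
          unfold bN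
          refine Finset.sum_le_sum fun v _ => mul_le_mul_of_nonneg_left ?_ (ind_nonneg _)
          by_cases hv : v ∈ P (col s)
          · rw [ind_true hv, one_mul]
            exact (bv_bd hF hcol hH hK hp hA hv).2
          · rw [ind_false hv, zero_mul, bv_zero hA.root hv]
      _ = (K * p) ^ (A.card - 1) * bN F G (fun u => P (col u)) one {s} s z := e _
      _ ≤ (K * p) ^ (A.card - 1) * (K * p) := mul_le_mul_of_nonneg_left hs.2 (by positivity)
      _ = (K * p) ^ A.card := by
          rw [← pow_succ, ← hcA]

end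

end host

end Pool.Agent.H88BC
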