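import Pool.Agent.H88BC.Mk

/-!
# Better random roots from light rich edges
-/

set_option autoImplicit false
set_option linter.unusedSectionVars false

open Finset Classical

namespace Pool.Agent.H88BC

section imp

variable {U V : Type} [Fintype U] [Fintype V]
variable {F : SimpleGraph U} {G : SimpleGraph V} {Q : U → Finset V}

/-- the light part of the weight of the branch -/
noncomputable def lam (F : SimpleGraph U) (G : SimpleGraph V) (Q : U → Finset V)
    (φ : U → V → ℝ) (L : ℝ) (B : Finset U) (s : U) (z : V) : ℝ :=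
  ∑ v, ind (G.Adj v z) * ind (L * bv F G Q φ B s v ≤ bN F G Q φ B s z) * bv F G Q φ B s v

lemma lam_nonneg {φ : U → V → ℝ} (hφ : ∀ u v, 0 ≤ φ u v) (L : ℝ) (B : Finset U) (s : U) (z : V) :
    0 ≤ lam F G Q φ L B s z :=
  Finset.sum_nonneg fun _ _ => mul_nonneg (mul_nonneg (ind_nonneg _) (ind_nonneg _))
    (bv_nonneg hφ _ _ _)

lemma lam_le {φ : U → V → ℝ} (hφ : ∀ u v, 0 ≤ φ u v) (L : ℝ) (B : Finset U) (s : U) (z : V) :
    lam F G Q φ L B s z ≤ bN F G Q φ B s z := by
  refine Finset.sum_le_sum fun v _ => ?_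
  refine mul_le_mul_of_nonneg_right ?_ (bv_nonneg hφ _ _ _)
  have := mul_le_mul_of_nonneg_left (ind_le_one (L * bv F G Q φ B s v ≤ bN F G Q φ B s z))
    (ind_nonneg (G.Adj v z))
  linarith

lemma lam_congr_phi {φ φ' : U → V → ℝ} {B : Finset U} (h : ∀ u ∈ B, φ u = φ' u) (L : ℝ) (s : U)
    (z : V) : lam F G Q φ L B s z = lam F G Q φ' L B s z := by
  unfold lam
  refine Finset.sum_congr rfl fun v _ => ?_
  rw [bv_congr_phi h, bN_congr_phi h]

variable {Rt : U → Type} {gad : ∀ u, Gad V (Rt u)} {Λ : U → ℝ} {δ : ℝ}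

lemma Ms_factor [Nonempty V] (hF : F.IsAcyclic)
    (hv : ∀ u, (gad u).Valid G (Q u) (Λ u) δ) {s k : U} (hsk : F.Adj s k) (L : ℝ)
    (τ : U × U → ℝ) :
    Ms F G Q gad (EvR F G Q L τ (s, k)) =
      ∑ z, bv F G Q one (br F s k)ᶜ k z * EG gad (fun γ =>
        ind (¬ bN F G Q (phi gad γ) (br F s k) s z ≤ τ (s, k) * bt F G Q (phi gad γ) (br F s k)) *
          lam F G Q (phi gad γ) L (br F s k) s z) := by
  obtain ⟨B, hB⟩ : ∃ B, B = br F s k := ⟨_, rfl⟩
  have hbr := br_spec hF hsk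
  rw [← hB] at hbr
  have hdis : Disjoint Bᶜ B := disjoint_compl_left
  have hun : Bᶜ ∪ B = univ := by rw [union_comm, union_compl]
  have hkB : k ∈ Bᶜ := mem_compl.mpr hbr.2.1
  have hc : ∀ x ∈ B, ∀ y ∈ Bᶜ, F.Adj x y → x = s ∧ y = k :=
    fun x hx y hy hxy => hbr.2.2 x hx y (mem_compl.mp hy) hxy
  have hγ : ∀ γ : (∀ u, (gad u).Γ), EX (fun X => Wt F G Q (phi gad γ) univ X *
      ind (EvR F G Q L τ (s, k) (phi gad γ) X)) =
      ∑ z, bv F G Q (phi gad γ) Bᶜ k z *
        (ind (¬ bN F G Q (phi gad γ) B s z ≤ τ (s, k) * bt F G Q (phi gad γ) B) *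
          lam F G Q (phi gad γ) L B s z) := by
    intro γ
    have h1 : ∀ X : U → V, Wt F G Q (phi gad γ) univ X *
        ind (EvR F G Q L τ (s, k) (phi gad γ) X) =
        Wt F G Q (phi gad γ) (Bᶜ ∪ B) X *
          ind (¬ bN F G Q (phi gad γ) B s (X k) ≤ τ (s, k) * bt F G Q (phi gad γ) B) *
          ind (L * bv F G Q (phi gad γ) B s (X s) ≤ bN F G Q (phi gad γ) B s (X k)) := by
      intro X
      rw [hun]
      unfold EvR
      simp only
      rw [← hB, ind_and]
      ring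
    have h2 := EX_factor (G := G) (Q := Q) (φ := phi gad γ) hdis hbr.1.root hkB hsk hc
      (g := fun X => ind (¬ bN F G Q (phi gad γ) B s (X k) ≤
        τ (s, k) * bt F G Q (phi gad γ) B)) (by
        intro X Y h
        show ind _ = ind _
        rw [h k hkB]) (fun x z => ind (L * bv F G Q (phi gad γ) B s x ≤
          bN F G Q (phi gad γ) B s z))
    have h3 : EX (fun X : U → V => Wt F G Q (phi gad γ) univ X *
        ind (EvR F G Q L τ (s, k) (phi gad γ) X)) = EX (fun X : U → V =>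
        Wt F G Q (phi gad γ) (Bᶜ ∪ B) X *
          ind (¬ bN F G Q (phi gad γ) B s (X k) ≤ τ (s, k) * bt F G Q (phi gad γ) B) *
          ind (L * bv F G Q (phi gad γ) B s (X s) ≤ bN F G Q (phi gad γ) B s (X k))) := by
      unfold EX
      exact EE_congr h1
    rw [h3, h2]
    have h4 := EX_split k (fun X : U → V => Wt F G Q (phi gad γ) Bᶜ X)
      (fun z => ind (¬ bN F G Q (phi gad γ) B s z ≤ τ (s, k) * bt F G Q (phi gad γ) B) *
          lam F G Q (phi gad γ) L B s z)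
    rw [show (∑ z, bv F G Q (phi gad γ) Bᶜ k z *
        (ind (¬ bN F G Q (phi gad γ) B s z ≤ τ (s, k) * bt F G Q (phi gad γ) B) *
          lam F G Q (phi gad γ) L B s z)) = _ from h4.symm]
    unfold EX
    refine EE_congr fun X => ?_
    unfold lam
    ring
  have h5 : Ms F G Q gad (EvR F G Q L τ (s, k)) = EG gad (fun γ =>
      ∑ z, bv F G Q (phi gad γ) Bᶜ k z *
        (ind (¬ bN F G Q (phi gad γ) B s z ≤ τ (s, k) * bt F G Q (phi gad γ) B) *
          lam F G Q (phi gad γ) L B s z)) := by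
    unfold Ms EG
    exact EE_congr hγ
  rw [h5, ← hB]
  unfold EG
  rw [EE_sum]
  refine Finset.sum_congr rfl fun z _ => ?_
  have h6 := EG_bv (F := F) hv Bᶜ k z
  unfold EG at h6
  rw [← h6]
  refine EE_indep (fun u => (hv u).ν1) hdis ?_ ?_
  · intro γ γ' h
    refine bv_congr_phi (fun u hu => ?_) _ _
    unfold phi
    rw [h u hu]
  · intro γ γ' h
    have h7 : ∀ u ∈ B, phi gad γ u = phi gad γ' u := by
      intro u hu
      unfold phi
      rw [h u hu]
    rw [bN_congr_phi h7, bt_congr_phi h7, lam_congr_phi h7]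

lemma bt_factor [Nonempty V] (hF : F.IsAcyclic) {s k : U} (hsk : F.Adj s k) :
    bt F G Q one univ = ∑ z, bv F G Q one (br F s k)ᶜ k z * bN F G Q one (br F s k) s z := by
  obtain ⟨B, hB⟩ : ∃ B, B = br F s k := ⟨_, rfl⟩
  have hbr := br_spec hF hsk
  rw [← hB] at hbr ⊢
  have hdis : Disjoint Bᶜ B := disjoint_compl_left
  have hun : Bᶜ ∪ B = univ := by rw [union_comm, union_compl]
  have hkB : k ∈ Bᶜ := mem_compl.mpr hbr.2.1
  have hc : ∀ x ∈ B, ∀ y ∈ Bᶜ, F.Adj x y → x = s ∧ y = k :=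
    fun x hx y hy hxy => hbr.2.2 x hx y (mem_compl.mp hy) hxy
  have h2 := EX_factor' (G := G) (Q := Q) (φ := one) hdis hbr.1.root hkB hsk hc
    (g := fun _ => 1) (fun _ _ _ => rfl)
  simp only [mul_one] at h2
  rw [hun] at h2
  have h4 := EX_split k (fun X : U → V => Wt F G Q one Bᶜ X) (fun z => bN F G Q one B s z)
  unfold bt
  rw [h2, h4]
  rfl

end imp

end Pool.Agent.H88BC
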