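import Pool.Agent.H88BC.Imp

/-!
# Better random roots from light rich edges, continued
-/

set_option autoImplicit false
set_option linter.unusedSectionVars false

open Finset Classical

namespace Pool.Agent.H88BC

section imp2

variable {U V : Type} [Fintype U] [Fintype V]
variable {F : SimpleGraph U} {G : SimpleGraph V}
variable {Rt : U → Type} {gad : ∀ u, Gad V (Rt u)} {Λ : U → ℝ} {δ : ℝ}

/-- good data for the position `z` -/
def Gd (F : SimpleGraph U) (G : SimpleGraph V) (Q : U → Finset V) (L τ η : ℝ) (B : Finset U)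
    (s : U) (φ : U → V → ℝ) (z : V) : Prop :=
  (¬ bN F G Q φ B s z ≤ τ * bt F G Q φ B) ∧ η / 4 * bN F G Q φ B s z ≤ lam F G Q φ L B s z

/-- the new random roots -/
noncomputable def newGad (F : SimpleGraph U) (G : SimpleGraph V) (Q : U → Finset V)
    (gad : ∀ u, Gad V (Rt u)) (L τ η : ℝ) (B : Finset U) (s : U) (ι : Type) [Fintype ι] :
    Gad V ι :=
  mkGad (Γ := ∀ u, (gad u).Γ) (fun γ => (∏ u, (gad u).ν (γ u)) *
      (bt F G Q (phi gad γ) B / bt F G Q one B))
    (fun γ v => bv F G Q (phi gad γ) B s v / bt F G Q (phi gad γ) B)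
    (fun z γ => ind (Gd F G Q L τ η B s (phi gad γ) z) *
      (bt F G Q one B * lam F G Q (phi gad γ) L B s z /
        (bt F G Q (phi gad γ) B * EG gad (fun γ => ind (Gd F G Q L τ η B s (phi gad γ) z) *
          lam F G Q (phi gad γ) L B s z))))
    (fun z γ v => ind (Gd F G Q L τ η B s (phi gad γ) z) * (ind (G.Adj v z) *
      ind (L * bv F G Q (phi gad γ) B s v ≤ bN F G Q (phi gad γ) B s z) *
      bv F G Q (phi gad γ) B s v / lam F G Q (phi gad γ) L B s z))

lemma newGad_valid {Q : U → Finset V} (hv : ∀ u, (gad u).Valid G (Q u) (Λ u) δ) {L τ η : ℝ}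
    (hL : 0 < L) (hτ : 0 < τ) (hη : 0 < η) {B : Finset U} {s : U} (hB : 0 < bt F G Q one B)
    {ι : Type} [Fintype ι] {q : ℕ} (hι : Fintype.card ι = q + 1) {Z : Finset V} {c : ℝ}
    (hc : 0 ≤ c)
    (hZ : ∀ z ∈ Z, 0 < EG gad (fun γ => ind (Gd F G Q L τ η B s (phi gad γ) z) *
          lam F G Q (phi gad γ) L B s z) ∧
        bt F G Q one B ≤ c * EG gad (fun γ => ind (Gd F G Q L τ η B s (phi gad γ) z) *
          lam F G Q (phi gad γ) L B s z)) :
    (newGad F G Q gad L τ η B s ι).Valid G Z (c * ((4 / η) / τ) ^ q) (4 / (η * L)) := by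
  -- consequences of being good
  have hgd : ∀ γ z, Gd F G Q L τ η B s (phi gad γ) z →
      0 < bN F G Q (phi gad γ) B s z ∧ 0 < bt F G Q (phi gad γ) B ∧
        0 < lam F G Q (phi gad γ) L B s z ∧
        bt F G Q (phi gad γ) B / lam F G Q (phi gad γ) L B s z ≤ (4 / η) / τ := by
    intro γ z hg
    obtain ⟨h1, h2⟩ := hg
    push Not at h1
    have hφ := phi_nonneg hv γ
    have h3 : 0 ≤ bt F G Q (phi gad γ) B := bt_nonneg hφ _
    have h4 : 0 < bN F G Q (phi gad γ) B s z := lt_of_le_of_lt (mul_nonneg hτ.le h3) h1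
    have h5 : 0 < bt F G Q (phi gad γ) B := lt_of_lt_of_le h4 (bN_le_bt hφ _ _ _)
    have h6 : 0 < lam F G Q (phi gad γ) L B s z := by
      refine lt_of_lt_of_le ?_ h2
      positivity
    refine ⟨h4, h5, h6, ?_⟩
    rw [div_div, div_le_div_iff₀ h6 (by positivity)]
    calc _ ≤ η * bN F G Q (phi gad γ) B s z := by nlinarith
      _ = 4 * (η / 4 * bN F G Q (phi gad γ) B s z) := by ring
      _ ≤ _ := by linarith
  refine mkGad_valid ?_ ?_ ?_ ?_ ?_ ?_ ?_ ?_ ?_ ?_ ?_
  · intro γ
    exact mul_nonneg (Finset.prod_nonneg fun u _ => (hv u).ν0 _)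
      (div_nonneg (bt_nonneg (phi_nonneg hv γ) _) hB.le)
  · have h1 := EG_bt (F := F) hv B
    unfold EG EE at h1
    calc _ = (∑ γ : (∀ u, (gad u).Γ), (∏ u, (gad u).ν (γ u)) * bt F G Q (phi gad γ) B) *
          (bt F G Q one B)⁻¹ := by
          rw [Finset.sum_mul]
          exact Finset.sum_congr rfl fun γ _ => by ring
      _ = 1 := by
          rw [h1]
          exact mul_inv_cancel₀ hB.ne'
  · intro γ v
    exact div_nonneg (bv_nonneg (phi_nonneg hv γ) _ _ _) (bt_nonneg (phi_nonneg hv γ) _)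
  · intro γ h
    have h1 : bt F G Q (phi gad γ) B ≠ 0 := by
      intro h0
      apply h
      simp [h0]
    rw [← Finset.sum_div, ← bt_eq]
    exact div_self h1
  · intro z γ
    by_cases hg : Gd F G Q L τ η B s (phi gad γ) z
    · have h2 := lam_nonneg (F := F) (G := G) (Q := Q) (phi_nonneg hv γ) L B s z
      refine mul_nonneg (ind_nonneg _) (div_nonneg (mul_nonneg hB.le h2)
        (mul_nonneg (bt_nonneg (phi_nonneg hv γ) _) ?_))
      exact EE_nonneg (fun u => (hv u).ν0) fun γ' _ => mul_nonneg (ind_nonneg _)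
        (lam_nonneg (phi_nonneg hv γ') _ _ _ _)
    · rw [ind_false hg, zero_mul]
  · intro z γ v
    exact mul_nonneg (ind_nonneg _) (div_nonneg (mul_nonneg (mul_nonneg (ind_nonneg _)
      (ind_nonneg _)) (bv_nonneg (phi_nonneg hv γ) _ _ _)) (lam_nonneg (phi_nonneg hv γ) _ _ _ _))
  · intro z hz
    obtain ⟨α, hα⟩ : ∃ α, α = EG gad (fun γ => ind (Gd F G Q L τ η B s (phi gad γ) z) *
          lam F G Q (phi gad γ) L B s z) := ⟨_, rfl⟩
    have hα0 : 0 < α := by rw [hα]; exact (hZ z hz).1
    rw [← hα]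
    have h1 : ∀ γ : (∀ u, (gad u).Γ), (∏ u, (gad u).ν (γ u)) *
        (bt F G Q (phi gad γ) B / bt F G Q one B) * (ind (Gd F G Q L τ η B s (phi gad γ) z) *
        (bt F G Q one B * lam F G Q (phi gad γ) L B s z / (bt F G Q (phi gad γ) B * α))) =
        (∏ u, (gad u).ν (γ u)) * (ind (Gd F G Q L τ η B s (phi gad γ) z) *
          lam F G Q (phi gad γ) L B s z) * α⁻¹ := by
      intro γ
      by_cases hg : Gd F G Q L τ η B s (phi gad γ) z
      · obtain ⟨g1, g2, g3, g4⟩ := hgd γ z hg
        field_simp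
      · rw [ind_false hg]; simp
    rw [Finset.sum_congr rfl fun γ _ => h1 γ, ← Finset.sum_mul]
    rw [show (∑ γ : (∀ u, (gad u).Γ), (∏ u, (gad u).ν (γ u)) *
      (ind (Gd F G Q L τ η B s (phi gad γ) z) * lam F G Q (phi gad γ) L B s z)) = α from hα.symm]
    exact mul_inv_cancel₀ hα0.ne'
  · intro z hz γ h
    by_cases hg : Gd F G Q L τ η B s (phi gad γ) z
    · obtain ⟨g1, g2, g3, g4⟩ := hgd γ z hg
      simp only [ind_true hg, one_mul]
      rw [← Finset.sum_div]
      exact div_self g3.ne'
    · exfalso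
      apply h
      rw [ind_false hg]
      simp
  · intro z hz γ h v
    have hg : Gd F G Q L τ η B s (phi gad γ) z := by
      by_contra hg
      apply h
      rw [ind_false hg]
      simp
    obtain ⟨g1, g2, g3, g4⟩ := hgd γ z hg
    simp only [ind_true hg, one_mul]
    by_cases h2 : L * bv F G Q (phi gad γ) B s v ≤ bN F G Q (phi gad γ) B s z
    · rw [div_le_div_iff₀ g3 (by positivity)]
      have h3 := ind_le_one (G.Adj v z)
      have h4 := bv_nonneg (F := F) (G := G) (Q := Q) (phi_nonneg hv γ) B s v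
      rw [ind_true h2, mul_one]
      calc _ ≤ 1 * bv F G Q (phi gad γ) B s v * (η * L) := by
            refine mul_le_mul_of_nonneg_right ?_ (by positivity)
            exact mul_le_mul_of_nonneg_right h3 h4
        _ = η * (L * bv F G Q (phi gad γ) B s v) := by ring
        _ ≤ η * bN F G Q (phi gad γ) B s z := mul_le_mul_of_nonneg_left h2 hη.le
        _ = 4 * (η / 4 * bN F G Q (phi gad γ) B s z) := by ring
        _ ≤ 4 * lam F G Q (phi gad γ) L B s z := by
            have := hg.2
            linarith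
    · rw [ind_false h2, mul_zero, zero_mul, zero_div]
      positivity
  · intro z hz γ v h
    have h1 := left_ne_zero_of_mul h
    have hg : Gd F G Q L τ η B s (phi gad γ) z := by
      by_contra hg
      exact h1 (ind_false hg)
    obtain ⟨g1, g2, g3, g4⟩ := hgd γ z hg
    have h2 := right_ne_zero_of_mul h
    have h3 : ind (G.Adj v z) * ind (L * bv F G Q (phi gad γ) B s v ≤
        bN F G Q (phi gad γ) B s z) * bv F G Q (phi gad γ) B s v ≠ 0 := by
      intro h0
      apply h2
      rw [h0, zero_div]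
    have h4 := left_ne_zero_of_mul (left_ne_zero_of_mul h3)
    have h5 := right_ne_zero_of_mul h3
    refine ⟨?_, div_ne_zero h5 g2.ne'⟩
    by_contra hno
    exact h4 (ind_false fun h => hno h.symm)
  · intro z hz γ r
    have hR : 0 ≤ c * ((4 / η) / τ) ^ q := by positivity
    by_cases hg : Gd F G Q L τ η B s (phi gad γ) z
    swap
    · rw [ind_false hg, zero_mul, zero_mul]
      exact hR
    obtain ⟨g1, g2, g3, g4⟩ := hgd γ z hg
    obtain ⟨hα0, hα1⟩ := hZ z hz
    obtain ⟨α, hα⟩ : ∃ α, α = EG gad (fun γ => ind (Gd F G Q L τ η B s (phi gad γ) z) *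
          lam F G Q (phi gad γ) L B s z) := ⟨_, rfl⟩
    rw [← hα] at hα0 hα1 ⊢
    rw [ind_true hg, one_mul]
    have h1 : ∏ j, (1 * (ind (G.Adj (r j) z) *
        ind (L * bv F G Q (phi gad γ) B s (r j) ≤ bN F G Q (phi gad γ) B s z) *
        bv F G Q (phi gad γ) B s (r j) / lam F G Q (phi gad γ) L B s z) /
        (bv F G Q (phi gad γ) B s (r j) / bt F G Q (phi gad γ) B)) ≤
        (bt F G Q (phi gad γ) B / lam F G Q (phi gad γ) L B s z) ^ (q + 1) := by
      rw [← hι, ← Finset.card_univ, ← Finset.prod_const]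
      have h4 : ∀ j, 0 ≤ bv F G Q (phi gad γ) B s (r j) := fun j =>
        bv_nonneg (phi_nonneg hv γ) _ _ _
      refine Finset.prod_le_prod (fun j _ => ?_) fun j _ => ?_
      · have h5 := h4 j
        have h6 := ind_nonneg (G.Adj (r j) z)
        have h7 := ind_nonneg (L * bv F G Q (phi gad γ) B s (r j) ≤
          bN F G Q (phi gad γ) B s z)
        positivity
      · by_cases h0 : bv F G Q (phi gad γ) B s (r j) = 0
        · rw [h0]
          simp only [mul_zero, zero_div, div_zero]
          positivity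
        · have h5 : 0 < bv F G Q (phi gad γ) B s (r j) := lt_of_le_of_ne (h4 j) (Ne.symm h0)
          rw [one_mul, div_div_eq_mul_div, div_mul_eq_mul_div, div_div, div_le_div_iff₀
            (mul_pos g3 h5) g3]
          have h6 : ind (G.Adj (r j) z) * ind (L * bv F G Q (phi gad γ) B s (r j) ≤
              bN F G Q (phi gad γ) B s z) ≤ 1 := by
            rw [← ind_and]
            exact ind_le_one _
          have h7 : 0 ≤ bv F G Q (phi gad γ) B s (r j) * bt F G Q (phi gad γ) B *
              lam F G Q (phi gad γ) L B s z := by positivity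
          nlinarith
    have h8 : 0 ≤ bt F G Q one B * lam F G Q (phi gad γ) L B s z /
        (bt F G Q (phi gad γ) B * α) := by positivity
    calc _ ≤ bt F G Q one B * lam F G Q (phi gad γ) L B s z /
        (bt F G Q (phi gad γ) B * α) *
          (bt F G Q (phi gad γ) B / lam F G Q (phi gad γ) L B s z) ^ (q + 1) := by
          exact mul_le_mul_of_nonneg_left h1 h8
      _ = (bt F G Q one B / α) *
          (bt F G Q (phi gad γ) B / lam F G Q (phi gad γ) L B s z) ^ q := by
          rw [pow_succ]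
          field_simp
      _ ≤ c * ((4 / η) / τ) ^ q := by
          refine mul_le_mul ?_ ?_ (by positivity) hc
          · rw [div_le_iff₀ hα0]
            exact hα1
          · exact pow_le_pow_left₀ (by positivity) g4 q

end imp2

end Pool.Agent.H88BC
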