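import Pool.Agent.H88BC.Imp2

/-!
# The set of vertices with better random roots
-/

set_option autoImplicit false
set_option linter.unusedSectionVars false

open Finset Classical

namespace Pool.Agent.H88BC

section imp3

variable {U V : Type} [Fintype U] [Fintype V]
variable {F : SimpleGraph U} {G : SimpleGraph V}
variable {Rt : U → Type} {gad : ∀ u, Gad V (Rt u)} {Λ : U → ℝ} {δ : ℝ}
  {P : Bool → Finset V} {K p : ℝ} {col : U → Bool}

lemma exists_Z [Nonempty V] (hF : F.IsAcyclic) (hF' : F.Preconnected)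
    (hcol : ∀ x y, F.Adj x y → col x ≠ col y)
    (hH : Host G P K p) (hK : 1 ≤ K) (hp : 0 < p)
    (hv : ∀ u, (gad u).Valid G (P (col u)) (Λ u) δ) {s k : U} (hsk : F.Adj s k) {L η : ℝ}
    (hη : 0 < η) (τ : U × U → ℝ)
    (hM : η * bt F G (fun u => P (col u)) one univ ≤
      Ms F G (fun u => P (col u)) gad (EvR F G (fun u => P (col u)) L τ (s, k))) :
    ∃ Z ⊆ P (col k), (Fintype.card V : ℝ) * (η / 2) ≤ (Z.card : ℝ) * K ^ (2 * Fintype.card U) ∧
      ∀ z ∈ Z, 0 < EG gad (fun γ => ind (Gd F G (fun u => P (col u)) L (τ (s, k)) η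
          (br F s k) s (phi gad γ) z) * lam F G (fun u => P (col u)) (phi gad γ) L (br F s k) s z) ∧
        bt F G (fun u => P (col u)) one (br F s k) ≤
          (4 / η * (K ^ (2 * Fintype.card U) / p)) *
          EG gad (fun γ => ind (Gd F G (fun u => P (col u)) L (τ (s, k)) η
          (br F s k) s (phi gad γ) z) *
            lam F G (fun u => P (col u)) (phi gad γ) L (br F s k) s z) := by
  have hn : (0 : ℝ) < Fintype.card V := by exact_mod_cast Fintype.card_pos
  have hK0 : 0 < K := by linarith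
  obtain ⟨Q, hQ⟩ : ∃ Q : U → Finset V, Q = fun u => P (col u) := ⟨_, rfl⟩
  have hv' : ∀ u, (gad u).Valid G (Q u) (Λ u) δ := by rw [hQ]; exact hv
  obtain ⟨B, hB⟩ : ∃ B, B = br F s k := ⟨_, rfl⟩
  have hbr := br_spec hF hsk
  rw [← hB] at hbr
  have hA := hbr.compl hF'
  have hcB : 0 < B.card := card_pos.mpr ⟨s, hbr.1.root⟩
  have hcA : 0 < Bᶜ.card := card_pos.mpr ⟨k, hA.root⟩
  have hcAB : Bᶜ.card + B.card = Fintype.card U := card_compl_add_card B
  -- the quantities
  obtain ⟨E, hE⟩ : ∃ E : V → ℝ, E = fun z => EG gad (fun γ =>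
        ind (¬ bN F G Q (phi gad γ) B s z ≤ τ (s, k) * bt F G Q (phi gad γ) B) *
          lam F G Q (phi gad γ) L B s z) := ⟨_, rfl⟩
  obtain ⟨A, hAd⟩ : ∃ A : V → ℝ, A = fun z => EG gad (fun γ =>
        ind (Gd F G Q L (τ (s, k)) η B s (phi gad γ) z) *
          lam F G Q (phi gad γ) L B s z) := ⟨_, rfl⟩
  obtain ⟨β, hβ⟩ : ∃ β : V → ℝ, β = fun z => bN F G Q one B s z := ⟨_, rfl⟩
  obtain ⟨C, hC⟩ : ∃ C : V → ℝ, C = fun z => bv F G Q one Bᶜ k z := ⟨_, rfl⟩
  have hC0 : ∀ z, 0 ≤ C z := fun z => by rw [hC]; exact bv_nonneg one_nonneg _ _ _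
  have hβ0 : ∀ z, 0 ≤ β z := fun z => by rw [hβ]; exact bN_nonneg one_nonneg _ _ _
  have hEβ : ∀ z, E z ≤ β z := by
    intro z
    rw [hE, hβ]
    simp only
    rw [← EG_bN (F := F) hv' B s z]
    refine EE_mono (fun u => (hv' u).ν0) fun γ _ => ?_
    have h1 := lam_le (F := F) (G := G) (Q := Q) (phi_nonneg hv' γ) L B s z
    have h2 := lam_nonneg (F := F) (G := G) (Q := Q) (phi_nonneg hv' γ) L B s z
    calc _ ≤ 1 * lam F G Q (phi gad γ) L B s z :=
          mul_le_mul_of_nonneg_right (ind_le_one _) h2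
      _ ≤ _ := by linarith
  have hEA : ∀ z, E z ≤ A z + η / 4 * β z := by
    intro z
    rw [hE, hβ, hAd]
    simp only
    have h0 := EG_bN (F := F) hv' B s z
    unfold EG at h0 ⊢
    rw [← h0, ← EE_mul_left, ← EE_add]
    refine EE_mono (fun u => (hv' u).ν0) fun γ _ => ?_
    have h2 := lam_nonneg (F := F) (G := G) (Q := Q) (phi_nonneg hv' γ) L B s z
    have h3 : 0 ≤ bN F G Q (phi gad γ) B s z := bN_nonneg (phi_nonneg hv' γ) _ _ _
    by_cases h4 : bN F G Q (phi gad γ) B s z ≤ τ (s, k) * bt F G Q (phi gad γ) B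
    · rw [ind_false (not_not.mpr h4), zero_mul]
      have := mul_nonneg (ind_nonneg (Gd F G Q L (τ (s, k)) η B s (phi gad γ) z)) h2
      positivity
    · rw [ind_true h4, one_mul]
      by_cases h5 : η / 4 * bN F G Q (phi gad γ) B s z ≤ lam F G Q (phi gad γ) L B s z
      · have h6 : Gd F G Q L (τ (s, k)) η B s (phi gad γ) z := ⟨h4, h5⟩
        rw [ind_true h6, one_mul]
        have : 0 ≤ η / 4 * bN F G Q (phi gad γ) B s z := by positivity
        linarith
      · push Not at h5
        have := mul_nonneg (ind_nonneg (Gd F G Q L (τ (s, k)) η B s (phi gad γ) z)) h2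
        linarith
  obtain ⟨h, hh⟩ : ∃ h, h = bt F G Q one univ := ⟨_, rfl⟩
  have hsum1 : η * h ≤ ∑ z, C z * E z := by
    rw [← hQ] at hM
    rw [Ms_factor hF hv' hsk, ← hh, ← hB] at hM
    rw [hC, hE]
    exact hM
  have hsum2 : h = ∑ z, C z * β z := by
    rw [hh, bt_factor hF hsk, ← hB, hC, hβ]
  obtain ⟨Z, hZ⟩ : ∃ Z : Finset V, Z = (P (col k)).filter (fun z => η / 2 * β z < E z) := ⟨_, rfl⟩
  have hbt := bt_ge hF hcol hH hK hp (grow_univ hF' s)
  rw [← hQ, ← hh, card_univ] at hbt
  have hCz : ∀ z, z ∉ P (col k) → C z = 0 := by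
    intro z hz
    rw [hC]
    exact bv_zero hA.root (by rw [hQ]; exact hz)
  have hbound : ∀ z ∈ Z, C z * β z ≤ (K * p) ^ (Fintype.card U - 1) * (Fintype.card V : ℝ)⁻¹ := by
    intro z hz
    rw [hZ, mem_filter] at hz
    have h1 := bv_le hF hcol hH hK hp hA z
    have h2 := (bN_bd hF hcol hH hK hp hbr.1 hsk hz.1).2
    rw [← hQ] at h1 h2
    have e : Fintype.card U - 1 = (Bᶜ.card - 1) + B.card := by omega
    rw [e, pow_add]
    calc _ ≤ ((K * p) ^ (Bᶜ.card - 1) * (Fintype.card V : ℝ)⁻¹) * (K * p) ^ B.card := by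
          refine mul_le_mul ?_ ?_ (hβ0 z) (by positivity)
          · rw [hC]; exact h1
          · rw [hβ]; exact h2
      _ = _ := by ring
  refine ⟨Z, by rw [hZ]; exact filter_subset _ _, ?_, ?_⟩
  · have h1 : ∑ z, C z * E z ≤ η / 2 * h + ∑ z ∈ Z, C z * β z := by
      rw [hsum2, Finset.mul_sum, ← Finset.sum_filter_add_sum_filter_not univ (fun z => z ∈ Z)]
      rw [Finset.filter_mem_eq_inter, Finset.univ_inter]
      have h2 : ∑ z ∈ Z, C z * E z ≤ ∑ z ∈ Z, C z * β z :=
        Finset.sum_le_sum fun z _ => mul_le_mul_of_nonneg_left (hEβ z) (hC0 z)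
      have h3 : ∑ z ∈ univ.filter (fun z => z ∉ Z), C z * E z ≤ ∑ z, η / 2 * (C z * β z) := by
        calc _ ≤ ∑ z ∈ univ.filter (fun z => z ∉ Z), η / 2 * (C z * β z) := by
              refine Finset.sum_le_sum fun z hz => ?_
              rw [mem_filter] at hz
              by_cases h4 : z ∈ P (col k)
              · have h5 : E z ≤ η / 2 * β z := by
                  by_contra hno
                  apply hz.2
                  rw [hZ, mem_filter]
                  exact ⟨h4, lt_of_not_ge hno⟩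
                have := mul_le_mul_of_nonneg_left h5 (hC0 z)
                linarith
              · rw [hCz z h4]
                simp
          _ ≤ _ := Finset.sum_le_sum_of_subset_of_nonneg (subset_univ _) fun z _ _ =>
              mul_nonneg (by positivity) (mul_nonneg (hC0 z) (hβ0 z))
      linarith
    have h2 : ∑ z ∈ Z, C z * β z ≤
        (Z.card : ℝ) * ((K * p) ^ (Fintype.card U - 1) * (Fintype.card V : ℝ)⁻¹) := by
      rw [← nsmul_eq_mul, ← Finset.sum_const]
      exact Finset.sum_le_sum hbound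
    have h3 : η / 2 * h ≤
        (Z.card : ℝ) * ((K * p) ^ (Fintype.card U - 1) * (Fintype.card V : ℝ)⁻¹) := by
      linarith
    have hcU : 1 ≤ Fintype.card U := by omega
    have h4 : η / 2 * ((p / K) ^ (Fintype.card U - 1) / K) ≤
        (Z.card : ℝ) * ((K * p) ^ (Fintype.card U - 1) * (Fintype.card V : ℝ)⁻¹) :=
      (mul_le_mul_of_nonneg_left hbt (by positivity)).trans h3
    obtain ⟨m, hm⟩ : ∃ m, m = Fintype.card U - 1 := ⟨_, rfl⟩
    rw [← hm] at h4
    have h5 : 2 * Fintype.card U = m + m + 1 + 1 := by omega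
    rw [h5]
    have h6 : (0 : ℝ) < (Fintype.card V : ℝ) * K ^ (m + 1) / p ^ m := by positivity
    have h7 : (Fintype.card V : ℝ) * (η / 2) ≤ (Z.card : ℝ) * K ^ (m + m + 1) := by
      have h8 := mul_le_mul_of_nonneg_right h4 h6.le
      have e1 : η / 2 * ((p / K) ^ m / K) * ((Fintype.card V : ℝ) * K ^ (m + 1) / p ^ m) =
          (Fintype.card V : ℝ) * (η / 2) := by
        rw [div_pow, pow_succ]
        field_simp
      have e2 : (Z.card : ℝ) * ((K * p) ^ m * (Fintype.card V : ℝ)⁻¹) *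
          ((Fintype.card V : ℝ) * K ^ (m + 1) / p ^ m) = (Z.card : ℝ) * K ^ (m + m + 1) := by
        rw [mul_pow, add_assoc m m 1, pow_add K m (m + 1)]
        field_simp
      rw [e1, e2] at h8
      exact h8
    refine h7.trans ?_
    refine mul_le_mul_of_nonneg_left ?_ (Nat.cast_nonneg _)
    exact pow_le_pow_right₀ hK (Nat.le_succ _)
  · intro z hz
    rw [hZ, mem_filter] at hz
    have h1 := (bN_bd hF hcol hH hK hp hbr.1 hsk hz.1).1
    rw [← hQ] at h1
    have h2 : η / 4 * (p / K) ^ B.card ≤ A z := by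
      have h3 := hEA z
      have h4 : (p / K) ^ B.card ≤ β z := by rw [hβ]; exact h1
      have h5 : η / 4 * (p / K) ^ B.card ≤ η / 4 * β z :=
        mul_le_mul_of_nonneg_left h4 (by positivity)
      have := hz.2
      linarith
    have h3 : 0 < A z := lt_of_lt_of_le (by positivity) h2
    have h4 := bt_le hF hcol hH hK hp hbr.1
    rw [← hQ] at h4 ⊢
    rw [← hB]
    rw [hAd] at h2 h3
    refine ⟨h3, h4.trans ?_⟩
    simp only at h2
    have h5 : (K * p) ^ (B.card - 1) ≤ (4 / η * (K ^ (2 * Fintype.card U) / p)) *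
        (η / 4 * (p / K) ^ B.card) := by
      have e1 : (4 / η * (K ^ (2 * Fintype.card U) / p)) * (η / 4 * (p / K) ^ B.card) =
          K ^ (2 * Fintype.card U - B.card) * p ^ (B.card - 1) := by
        have e2 : B.card = (B.card - 1) + 1 := by omega
        have e3 : K ^ (2 * Fintype.card U) = K ^ (2 * Fintype.card U - B.card) * K ^ B.card := by
          rw [← pow_add]
          congr 1
          omega
        have e4 : p ^ B.card = p ^ (B.card - 1) * p := by
          rw [← pow_succ, ← e2]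
        rw [e3, div_pow, e4]
        field_simp
      rw [e1, mul_pow]
      refine mul_le_mul_of_nonneg_right ?_ (by positivity)
      exact pow_le_pow_right₀ hK (by omega)
    refine h5.trans ?_
    exact mul_le_mul_of_nonneg_left h2 (by positivity)

end imp3

end Pool.Agent.H88BC
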