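import Pool.Agent.H88BC.Core2

/-!
# Roots which are independent for given auxiliary data
-/

set_option autoImplicit false
set_option linter.unusedSectionVars false

open Finset Classical

namespace Pool.Agent.H88BC

section mk

variable {V ι Γ : Type} [Fintype V] [Fintype ι] [Fintype Γ]

noncomputable def mkGad (ν₁ : Γ → ℝ) (y : Γ → V → ℝ) (κ : V → Γ → ℝ) (x : V → Γ → V → ℝ) :
    Gad V ι where
  Γ := Γ × (ι → V)
  fin := inferInstance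
  ν := fun γ => ν₁ γ.1 * ∏ j, y γ.1 (γ.2 j)
  f := fun z γ => κ z γ.1 * ∏ j, (x z γ.1 (γ.2 j) / y γ.1 (γ.2 j))
  root := fun γ j => γ.2 j

lemma sum_pi_prod (g : V → ℝ) (hg : ∑ v, g v = 1) : ∑ r : ι → V, ∏ j, g (r j) = 1 := by
  have h := EE_prod_univ (Ω := fun _ : ι => V) (w := fun _ _ => (1 : ℝ)) (fun _ v => g v)
  unfold EE at h
  simp only [Finset.prod_const_one, one_mul] at h
  rw [h, Finset.prod_const, hg, one_pow]

lemma sum_pi_prod1 (g : V → ℝ) (hg : ∑ v, g v = 1) (j0 : ι) (v : V) :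
    ∑ r : ι → V, (∏ j, g (r j)) * ind (r j0 = v) = g v := by
  have h := EE_prod_mul1 (Ω := fun _ : ι => V) (w := fun _ _ => (1 : ℝ)) (fun _ v => g v) j0
    (fun _ => by simpa using hg) (fun x => ind (x = v))
  unfold EE at h
  simp only [Finset.prod_const_one, one_mul] at h
  rw [h]
  have h1 : ∀ x, g x * ind (x = v) = ind (v = x) * g x := by
    intro x
    rw [show (x = v) = (v = x) from propext eq_comm, mul_comm]
  rw [Finset.sum_congr rfl fun x _ => h1 x, sum_ind]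

lemma sum_pi_prod2 (g : V → ℝ) (hg0 : ∀ v, 0 ≤ g v) (hg : ∑ v, g v = 1) {δ : ℝ}
    (hδ : ∀ v, g v ≤ δ) {j0 j1 : ι} (hj : j0 ≠ j1) :
    ∑ r : ι → V, (∏ j, g (r j)) * ind (r j0 = r j1) ≤ δ := by
  have h0 : ∀ r : ι → V, (∏ j, g (r j)) * ind (r j0 = r j1) =
      ∑ v, (∏ j, g (r j)) * (ind (r j0 = v) * ind (r j1 = v)) := by
    intro r
    rw [← Finset.mul_sum]
    congr 1
    have := sum_ind (r j0) (fun v => ind (r j1 = v))
    rw [this]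
    rw [show (r j0 = r j1) = (r j1 = r j0) from propext eq_comm]
  rw [Finset.sum_congr rfl fun r _ => h0 r, Finset.sum_comm]
  have h1 : ∀ v, ∑ r : ι → V, (∏ j, g (r j)) * (ind (r j0 = v) * ind (r j1 = v)) = g v * g v := by
    intro v
    have h := EE_prod_mul2 (Ω := fun _ : ι => V) (w := fun _ _ => (1 : ℝ)) (fun _ v => g v)
      (fun _ => by simpa using hg) hj (fun x => ind (x = v)) (fun x => ind (x = v))
    unfold EE at h
    simp only [Finset.prod_const_one, one_mul] at h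
    rw [h]
    have h1 : ∀ x, g x * ind (x = v) = ind (v = x) * g x := by
      intro x
      rw [show (x = v) = (v = x) from propext eq_comm, mul_comm]
    rw [Finset.sum_congr rfl fun x _ => h1 x, sum_ind]
  rw [Finset.sum_congr rfl fun v _ => h1 v]
  calc _ ≤ ∑ v, δ * g v := Finset.sum_le_sum fun v _ => mul_le_mul_of_nonneg_right (hδ v) (hg0 v)
    _ = δ := by rw [← Finset.mul_sum, hg, mul_one]

lemma mkGad_valid {G : SimpleGraph V} {Q : Finset V} {Λ δ : ℝ} {ν₁ : Γ → ℝ} {y : Γ → V → ℝ}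
    {κ : V → Γ → ℝ} {x : V → Γ → V → ℝ}
    (hν0 : ∀ γ, 0 ≤ ν₁ γ) (hν1 : ∑ γ, ν₁ γ = 1) (hy0 : ∀ γ v, 0 ≤ y γ v)
    (hy1 : ∀ γ, ν₁ γ ≠ 0 → ∑ v, y γ v = 1) (hκ0 : ∀ z γ, 0 ≤ κ z γ) (hx0 : ∀ z γ v, 0 ≤ x z γ v)
    (hκ1 : ∀ z ∈ Q, ∑ γ, ν₁ γ * κ z γ = 1)
    (hx1 : ∀ z ∈ Q, ∀ γ, ν₁ γ * κ z γ ≠ 0 → ∑ v, x z γ v = 1)
    (hxδ : ∀ z ∈ Q, ∀ γ, ν₁ γ * κ z γ ≠ 0 → ∀ v, x z γ v ≤ δ)
    (hxadj : ∀ z ∈ Q, ∀ γ v, x z γ v ≠ 0 → G.Adj z v ∧ y γ v ≠ 0)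
    (hΛ : ∀ z ∈ Q, ∀ γ (r : ι → V), κ z γ * ∏ j, (x z γ (r j) / y γ (r j)) ≤ Λ) :
    (mkGad (ι := ι) ν₁ y κ x).Valid G Q Λ δ := by
  have hprod : ∀ z ∈ Q, ∀ γ (r : ι → V),
      (ν₁ γ * ∏ j, y γ (r j)) * (κ z γ * ∏ j, (x z γ (r j) / y γ (r j))) =
      (ν₁ γ * κ z γ) * ∏ j, x z γ (r j) := by
    intro z hz γ r
    have h1 : ∏ j, x z γ (r j) = (∏ j, y γ (r j)) * ∏ j, (x z γ (r j) / y γ (r j)) := by
      rw [← Finset.prod_mul_distrib]
      refine Finset.prod_congr rfl fun j _ => ?_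
      by_cases h : x z γ (r j) = 0
      · rw [h, zero_div, mul_zero]
      · have := (hxadj z hz γ (r j) h).2
        field_simp
    rw [h1]
    ring
  -- expectation of a function of the roots
  have hexp : ∀ z ∈ Q, ∀ (h : (ι → V) → ℝ) (c : ℝ),
      (∀ γ, ν₁ γ * κ z γ ≠ 0 → ∑ r : ι → V, (∏ j, x z γ (r j)) * h r ≤ c) →
      ∑ γ : Γ × (ι → V), (ν₁ γ.1 * ∏ j, y γ.1 (γ.2 j)) *
        ((κ z γ.1 * ∏ j, (x z γ.1 (γ.2 j) / y γ.1 (γ.2 j))) * h γ.2) ≤ c := by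
    intro z hz h c hc
    rw [Fintype.sum_prod_type]
    have h1 : ∀ γ, ∑ r : ι → V, (ν₁ γ * ∏ j, y γ (r j)) *
        ((κ z γ * ∏ j, (x z γ (r j) / y γ (r j))) * h r) ≤ (ν₁ γ * κ z γ) * c := by
      intro γ
      have h2 : ∀ r : ι → V, (ν₁ γ * ∏ j, y γ (r j)) *
        ((κ z γ * ∏ j, (x z γ (r j) / y γ (r j))) * h r) =
          (ν₁ γ * κ z γ) * ((∏ j, x z γ (r j)) * h r) := by
        intro r
        rw [← mul_assoc, hprod z hz γ r, mul_assoc]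
      rw [Finset.sum_congr rfl fun r _ => h2 r, ← Finset.mul_sum]
      by_cases h0 : ν₁ γ * κ z γ = 0
      · rw [h0, zero_mul, zero_mul]
      · exact mul_le_mul_of_nonneg_left (hc γ h0) (mul_nonneg (hν0 γ) (hκ0 z γ))
    refine (Finset.sum_le_sum fun γ _ => h1 γ).trans ?_
    rw [← Finset.sum_mul, hκ1 z hz, one_mul]
  refine ⟨?_, ?_, ?_, ?_, ?_, ?_, ?_, ?_⟩
  · intro γ
    exact mul_nonneg (hν0 _) (Finset.prod_nonneg fun j _ => hy0 _ _)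
  · show ∑ γ : Γ × (ι → V), ν₁ γ.1 * ∏ j, y γ.1 (γ.2 j) = 1
    rw [Fintype.sum_prod_type, ← hν1]
    refine Finset.sum_congr rfl fun γ _ => ?_
    simp only
    rw [← Finset.mul_sum]
    by_cases h : ν₁ γ = 0
    · rw [h, zero_mul]
    · rw [sum_pi_prod _ (hy1 γ h), mul_one]
  · intro z γ
    exact mul_nonneg (hκ0 _ _) (Finset.prod_nonneg fun j _ => div_nonneg (hx0 _ _ _) (hy0 _ _))
  · intro z hz
    show ∑ γ : Γ × (ι → V), (ν₁ γ.1 * ∏ j, y γ.1 (γ.2 j)) *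
        (κ z γ.1 * ∏ j, (x z γ.1 (γ.2 j) / y γ.1 (γ.2 j))) = 1
    rw [Fintype.sum_prod_type, ← hκ1 z hz]
    refine Finset.sum_congr rfl fun γ _ => ?_
    simp only
    rw [Finset.sum_congr rfl fun r _ => hprod z hz γ r, ← Finset.mul_sum]
    by_cases h : ν₁ γ * κ z γ = 0
    · rw [h, zero_mul]
    · rw [sum_pi_prod _ (hx1 z hz γ h), mul_one]
  · intro z hz γ
    exact hΛ z hz γ.1 γ.2
  · intro z hz j v
    refine hexp z hz (fun r => ind (r j = v)) δ fun γ h0 => ?_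
    rw [sum_pi_prod1 _ (hx1 z hz γ h0)]
    exact hxδ z hz γ h0 v
  · intro z hz j j' hj
    refine hexp z hz (fun r => ind (r j = r j')) δ fun γ h0 => ?_
    exact sum_pi_prod2 _ (hx0 z γ) (hx1 z hz γ h0) (hxδ z hz γ h0) hj
  · intro z hz γ h j
    have h1 : (ν₁ γ.1 * κ z γ.1) * ∏ j, x z γ.1 (γ.2 j) ≠ 0 := by
      rw [← hprod z hz γ.1 γ.2]
      exact h
    have h2 := right_ne_zero_of_mul h1
    rw [Finset.prod_ne_zero_iff] at h2
    exact (hxadj z hz γ.1 (γ.2 j) (h2 j (mem_univ j))).1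

end mk

end Pool.Agent.H88BC
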