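import Pool.Agent.H88BE.Fin4

set_option autoImplicit false

open Classical in
/-- The Bukh-Conlon conjecture for every strictly balanced rooted tree of density at least two in
which every non-root has a root neighbour, if in one of the two colour classes all vertices with
exactly one root neighbour, with at most one exception, satisfy a degree condition. -/
theorem Pool.Agent.H88BC.OneClassTreesOld.result :
    ∀ (V : Type) [Fintype V] (T : SimpleGraph V) (R : Set V),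
      T.IsTree → R.Nonempty → Rᶜ.Nonempty →
      (∀ u ∈ R, ∀ v ∈ R, ¬ T.Adj u v) →
      ∀ ρ : ℝ, 2 ≤ ρ →
        ρ = (({e | e ∈ T.edgeSet ∧ ∃ v ∈ Rᶜ, v ∈ e} : Set (Sym2 V)).ncard : ℝ) /
              ((Rᶜ : Set V).ncard : ℝ) →
        (∀ S : Set V, S.Nonempty → S ⊂ Rᶜ →
          ρ < (({e | e ∈ T.edgeSet ∧ ∃ v ∈ S, v ∈ e} : Set (Sym2 V)).ncard : ℝ) /
                (S.ncard : ℝ)) →
        (∀ v ∈ Rᶜ, ∃ u ∈ R, T.Adj v u) →
        ∀ A : Set V,
        (∀ u ∈ Rᶜ, ∀ v ∈ Rᶜ, T.Adj u v → (u ∈ A ↔ v ∉ A)) →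
        ({v | v ∈ Rᶜ ∧ v ∈ A ∧ ({u | u ∈ R ∧ T.Adj v u} : Set V).ncard = 1 ∧
            ρ - 2 < ((⌈ρ⌉ : ℝ) - ρ) *
              min (({x | x ∈ Rᶜ ∧ T.Adj v x ∧
                  ρ - 1 < (({u | u ∈ R ∧ T.Adj x u} : Set V).ncard : ℝ)} : Set V).ncard : ℝ)
                ((({x | x ∈ Rᶜ ∧ T.Adj v x} : Set V).ncard : ℝ) - 1)} : Set V).Subsingleton →
        ∀ t : ℕ, 0 < t →
          ∃ C : ℝ, ∀ n : ℕ, ∀ G : SimpleGraph (Fin n),
            (¬ ∃ f : {p : V × ℕ // p.2 < t ∧ (p.1 ∈ R → p.2 = 0)} → Fin n,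
                Function.Injective f ∧
                ∀ a b : {p : V × ℕ // p.2 < t ∧ (p.1 ∈ R → p.2 = 0)},
                  (SimpleGraph.fromRel
                    (fun a b : {p : V × ℕ // p.2 < t ∧ (p.1 ∈ R → p.2 = 0)} =>
                      T.Adj a.1.1 b.1.1 ∧ (a.1.2 = b.1.2 ∨ a.1.1 ∈ R ∨ b.1.1 ∈ R))).Adj a b →
                  G.Adj (f a) (f b)) →
            (G.edgeSet.ncard : ℝ) ≤ C * (n : ℝ) ^ (2 - 1 / ρ) := by
  intro V _ T R hT _ hR hind ρ hρ2 hρ hstr hroot A hA hexc t ht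
  have hcard : (Rᶜ : Set V).ncard = Fintype.card (Pool.Agent.H88BD.NR R) := by
    have h1 := Pool.Agent.H88BD.oS_card R ∅
    rw [Finset.card_empty, add_zero] at h1
    rw [← h1]
    congr 1
    ext v
    constructor
    · intro h
      exact ⟨h, Finset.notMem_empty _⟩
    · rintro ⟨h, _⟩
      exact h
  have hapos : 0 < Fintype.card (Pool.Agent.H88BD.NR R) := by
    rw [← hcard]
    exact (Set.ncard_pos (Set.toFinite _)).mpr hR
  have haR : (0 : ℝ) < (Fintype.card (Pool.Agent.H88BD.NR R) : ℝ) := by exact_mod_cast hapos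
  have hρ0 := hρ
  rw [Pool.Agent.H88BD.eF_eq, hcard] at hρ
  have hS : ∀ S : Set V, S.Nonempty → S ⊂ Rᶜ →
      Pool.Agent.H88BD.eF T Rᶜ * S.ncard <
        Fintype.card (Pool.Agent.H88BD.NR R) * Pool.Agent.H88BD.eF T S := by
    intro S hSn hSR
    have h1 := hstr S hSn hSR
    have hSpos : 0 < S.ncard := (Set.ncard_pos (Set.toFinite _)).mpr hSn
    have hSposR : (0 : ℝ) < (S.ncard : ℝ) := by exact_mod_cast hSpos
    rw [hρ, Pool.Agent.H88BD.eF_eq, div_lt_div_iff₀ haR hSposR] at h1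
    rw [mul_comm (Fintype.card (Pool.Agent.H88BD.NR R))]
    exact_mod_cast h1
  have hq : ∀ u : Pool.Agent.H88BD.NR R, ({x | x ∈ R ∧ T.Adj u.v x} : Set V).ncard =
      Fintype.card (Pool.Agent.H88BD.Rt T R u) := by
    intro u
    rw [← Nat.card_coe_set_eq, Nat.card_eq_fintype_card]
    exact Fintype.card_congr (Equiv.refl _)
  have hd : ∀ (u : Pool.Agent.H88BD.NR R) (Q : V → Prop),
      ({x | x ∈ Rᶜ ∧ T.Adj u.v x ∧ Q x} : Set V).ncard =
      (Finset.univ.filter (fun x : Pool.Agent.H88BD.NR R =>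
        (Pool.Agent.H88BD.FF T R).Adj u x ∧ Q x.v)).card := by
    intro u Q
    have h3 : ({x | x ∈ Rᶜ ∧ T.Adj u.v x ∧ Q x} : Set V) = Pool.Agent.H88BD.NR.v ''
        ((Finset.univ.filter (fun x : Pool.Agent.H88BD.NR R =>
          (Pool.Agent.H88BD.FF T R).Adj u x ∧ Q x.v) :
          Finset (Pool.Agent.H88BD.NR R)) : Set (Pool.Agent.H88BD.NR R)) := by
      ext x
      constructor
      · rintro ⟨hx, hadj, hQ⟩
        refine ⟨Pool.Agent.H88BD.NR.mk x hx, ?_, rfl⟩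
        rw [Finset.mem_coe, Finset.mem_filter]
        exact ⟨Finset.mem_univ _, hadj, hQ⟩
      · rintro ⟨y, hy, rfl⟩
        rw [Finset.mem_coe, Finset.mem_filter] at hy
        exact ⟨y.p, hy.2⟩
    rw [h3, Set.ncard_image_of_injective _ Pool.Agent.H88BD.NR.inj, Set.ncard_coe_finset]
  have hd1 : ∀ u : Pool.Agent.H88BD.NR R, ({x | x ∈ Rᶜ ∧ T.Adj u.v x} : Set V).ncard =
      (Finset.univ.filter (fun x : Pool.Agent.H88BD.NR R =>
        (Pool.Agent.H88BD.FF T R).Adj u x)).card := by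
    intro u
    have h1 := hd u (fun _ => True)
    simp only [and_true] at h1
    exact h1
  have hd2 : ∀ u : Pool.Agent.H88BD.NR R, ({x | x ∈ Rᶜ ∧ T.Adj u.v x ∧
      ρ - 1 < (({r | r ∈ R ∧ T.Adj x r} : Set V).ncard : ℝ)} : Set V).ncard =
      (Finset.univ.filter (fun x : Pool.Agent.H88BD.NR R =>
        (Pool.Agent.H88BD.FF T R).Adj u x ∧
          ρ - 1 < (Fintype.card (Pool.Agent.H88BD.Rt T R x) : ℝ))).card := by
    intro u
    rw [hd u (fun x => ρ - 1 < (({r | r ∈ R ∧ T.Adj x r} : Set V).ncard : ℝ))]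
    congr 1
    refine Finset.filter_congr fun x _ => ?_
    rw [hq x]
  obtain ⟨C, hC⟩ := Pool.Agent.H88BE.tree_main3 hT hR hind hS
    (by
      intro u
      obtain ⟨r, hr1, hr2⟩ := hroot u.v u.p
      exact Fintype.card_pos_iff.mpr ⟨⟨r, hr1, hr2⟩⟩) ρ hρ hρ2
    (fun u => decide (u.v ∈ A)) (by
      intro x y hxy he
      have h1 := hA x.v x.p y.v y.p hxy
      simp only [decide_eq_decide] at he
      tauto)
    (by
      intro u v hu hv
      have key : ∀ u : Pool.Agent.H88BD.NR R, (decide (u.v ∈ A) = true ∧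
          Fintype.card (Pool.Agent.H88BD.Rt T R u) = 1 ∧
          ρ - 2 < ((⌈ρ⌉ : ℝ) - ρ) * min (((Finset.univ.filter
          (fun x : Pool.Agent.H88BD.NR R => (Pool.Agent.H88BD.FF T R).Adj u x ∧
          ρ - 1 < (Fintype.card (Pool.Agent.H88BD.Rt T R x) : ℝ))).card : ℝ))
          (((Finset.univ.filter (fun x : Pool.Agent.H88BD.NR R =>
            (Pool.Agent.H88BD.FF T R).Adj u x)).card : ℝ) - 1)) →
          u.v ∈ ({v | v ∈ Rᶜ ∧ v ∈ A ∧ ({u | u ∈ R ∧ T.Adj v u} : Set V).ncard = 1 ∧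
            ρ - 2 < ((⌈ρ⌉ : ℝ) - ρ) *
              min (({x | x ∈ Rᶜ ∧ T.Adj v x ∧
                  ρ - 1 < (({u | u ∈ R ∧ T.Adj x u} : Set V).ncard : ℝ)} : Set V).ncard : ℝ)
                ((({x | x ∈ Rᶜ ∧ T.Adj v x} : Set V).ncard : ℝ) - 1)} : Set V) := by
        rintro u ⟨h1, h2, h3⟩
        refine ⟨u.p, by simpa using h1, by rw [hq u]; exact h2, ?_⟩
        rw [hd2 u, hd1 u]
        exact h3
      exact Pool.Agent.H88BD.NR.inj (hexc (key u hu) (key v hv))) t ht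
  refine ⟨C, fun n G hG => ?_⟩
  have h3 := hC n G (by
    rintro ⟨f, hf1, hf2⟩
    apply hG
    refine ⟨f, hf1, fun a b hab => ?_⟩
    rw [SimpleGraph.fromRel_adj] at hab
    rcases hab.2 with h | h
    · exact hf2 a b h.1 h.2
    · refine (hf2 b a h.1 h.2).symm)
  rw [hρ]
  exact h3
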