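import Mathlib

/-!
# Expectations over finite product spaces
-/

set_option autoImplicit false
set_option linter.unusedSectionVars false

open Finset Classical

namespace Pool.Agent.H88BC

section prob

variable {U : Type} [Fintype U] {Ω : U → Type} [∀ u, Fintype (Ω u)]

/-- expectation with respect to the product of the weights `w u` -/
noncomputable def EE (w : ∀ u, Ω u → ℝ) (f : (∀ u, Ω u) → ℝ) : ℝ :=
  ∑ ω : (∀ u, Ω u), (∏ u, w u (ω u)) * f ω

variable {w : ∀ u, Ω u → ℝ}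

lemma EE_add (f g : (∀ u, Ω u) → ℝ) : EE w (fun ω => f ω + g ω) = EE w f + EE w g := by
  unfold EE
  rw [← Finset.sum_add_distrib]
  exact Finset.sum_congr rfl fun ω _ => by ring

lemma EE_sum {ι : Type} (s : Finset ι) (f : ι → (∀ u, Ω u) → ℝ) :
    EE w (fun ω => ∑ i ∈ s, f i ω) = ∑ i ∈ s, EE w (f i) := by
  unfold EE
  rw [Finset.sum_comm]
  exact Finset.sum_congr rfl fun ω _ => by rw [Finset.mul_sum]

lemma EE_mul_left (c : ℝ) (f : (∀ u, Ω u) → ℝ) : EE w (fun ω => c * f ω) = c * EE w f := by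
  unfold EE
  rw [Finset.mul_sum]
  exact Finset.sum_congr rfl fun ω _ => by ring

lemma EE_mul_right (c : ℝ) (f : (∀ u, Ω u) → ℝ) : EE w (fun ω => f ω * c) = EE w f * c := by
  unfold EE
  rw [Finset.sum_mul]
  exact Finset.sum_congr rfl fun ω _ => by ring

lemma EE_congr {f g : (∀ u, Ω u) → ℝ} (h : ∀ ω, f ω = g ω) : EE w f = EE w g := by
  have : f = g := funext h
  rw [this]

lemma EE_nonneg (hw : ∀ u x, 0 ≤ w u x) {f : (∀ u, Ω u) → ℝ}
    (h : ∀ ω, (∀ u, w u (ω u) ≠ 0) → 0 ≤ f ω) : 0 ≤ EE w f := by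
  unfold EE
  refine Finset.sum_nonneg fun ω _ => ?_
  by_cases h0 : ∀ u, w u (ω u) ≠ 0
  · exact mul_nonneg (Finset.prod_nonneg fun u _ => hw u _) (h ω h0)
  · push Not at h0
    obtain ⟨u, hu⟩ := h0
    rw [Finset.prod_eq_zero (Finset.mem_univ u) hu, zero_mul]

lemma EE_mono (hw : ∀ u x, 0 ≤ w u x) {f g : (∀ u, Ω u) → ℝ}
    (h : ∀ ω, (∀ u, w u (ω u) ≠ 0) → f ω ≤ g ω) : EE w f ≤ EE w g := by
  unfold EE
  refine Finset.sum_le_sum fun ω _ => ?_
  by_cases h0 : ∀ u, w u (ω u) ≠ 0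
  · exact mul_le_mul_of_nonneg_left (h ω h0) (Finset.prod_nonneg fun u _ => hw u _)
  · push Not at h0
    obtain ⟨u, hu⟩ := h0
    rw [Finset.prod_eq_zero (Finset.mem_univ u) hu, zero_mul, zero_mul]

lemma EE_swap {U' : Type} [Fintype U'] {Ω' : U' → Type} [∀ u, Fintype (Ω' u)]
    {w' : ∀ u, Ω' u → ℝ} (f : (∀ u, Ω u) → (∀ u, Ω' u) → ℝ) :
    EE w (fun ω => EE w' (fun ω' => f ω ω')) = EE w' (fun ω' => EE w (fun ω => f ω ω')) := by
  unfold EE
  simp_rw [Finset.mul_sum]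
  rw [Finset.sum_comm]
  exact Finset.sum_congr rfl fun ω _ => Finset.sum_congr rfl fun ω' _ => by ring

/-- expectation of a product of functions of the single coordinates -/
lemma EE_prod_univ (g : ∀ u, Ω u → ℝ) :
    EE w (fun ω => ∏ u, g u (ω u)) = ∏ u, ∑ x, w u x * g u x := by
  unfold EE
  rw [Finset.prod_univ_sum]
  rw [Fintype.piFinset_univ]
  exact Finset.sum_congr rfl fun ω _ => by rw [Finset.prod_mul_distrib]

lemma EE_prod (hw1 : ∀ u, ∑ x, w u x = 1) (B : Finset U) (g : ∀ u, Ω u → ℝ) :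
    EE w (fun ω => ∏ u ∈ B, g u (ω u)) = ∏ u ∈ B, ∑ x, w u x * g u x := by
  have h1 : ∀ ω : (∀ u, Ω u), ∏ u ∈ B, g u (ω u) = ∏ u, (if u ∈ B then g u (ω u) else 1) := by
    intro ω
    rw [Finset.prod_ite_mem, Finset.univ_inter]
  rw [EE_congr h1]
  have h2 := EE_prod_univ (w := w) (fun u x => if u ∈ B then g u x else 1)
  rw [h2, ← Finset.univ_inter B, ← Finset.prod_ite_mem, Finset.univ_inter]
  refine Finset.prod_congr rfl fun u _ => ?_
  by_cases hu : u ∈ B
  · simp [hu]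
  · simp [hu, hw1 u]

lemma EE_one (hw1 : ∀ u, ∑ x, w u x = 1) : EE w (fun _ => 1) = 1 := by
  have := EE_prod_univ (w := w) (fun _ _ => 1)
  simp only [Finset.prod_const_one, mul_one] at this
  rw [this]
  exact Finset.prod_eq_one fun u _ => hw1 u

lemma EE_const (hw1 : ∀ u, ∑ x, w u x = 1) (c : ℝ) :
    EE w (fun _ : (∀ u, Ω u) => c) = c := by
  have h := EE_mul_left (w := w) c (fun _ => 1)
  rw [EE_one hw1, mul_one] at h
  simpa using h

lemma EE_indep_aux (hw1 : ∀ u, ∑ x, w u x = 1) (p : U → Prop)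
    {f g : (∀ u, Ω u) → ℝ} (hf : ∀ x y, (∀ u, p u → x u = y u) → f x = f y)
    (hg : ∀ x y, (∀ u, ¬ p u → x u = y u) → g x = g y) :
    EE w (fun ω => f ω * g ω) = EE w f * EE w g := by
  by_cases hne : Nonempty (∀ u, Ω u)
  swap
  · have : IsEmpty (∀ u, Ω u) := not_nonempty_iff.mp hne
    unfold EE
    simp
  obtain ⟨ω0⟩ := hne
  let e := Equiv.piEquivPiSubtypeProd p Ω
  have key : ∀ F : (∀ u, Ω u) → ℝ, EE w F =
      ∑ x : (∀ i : {u // p u}, Ω i), ∑ y : (∀ i : {u // ¬ p u}, Ω i),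
        ((∏ i, w i.1 (x i)) * (∏ i, w i.1 (y i))) * F (e.symm (x, y)) := by
    intro F
    unfold EE
    rw [← Fintype.sum_prod_type']
    refine (Fintype.sum_equiv e.symm _ _ ?_).symm
    rintro ⟨x, y⟩
    have h1 : (∏ u, w u ((e.symm (x, y)) u)) = (∏ i, w i.1 (x i)) * (∏ i, w i.1 (y i)) := by
      rw [← Fintype.prod_subtype_mul_prod_subtype p]
      congr 1
      · refine Finset.prod_congr rfl fun i _ => ?_
        have : (e.symm (x, y)) i.1 = x i := by
          simp [e, Equiv.piEquivPiSubtypeProd, i.2]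
        rw [this]
      · refine Finset.prod_congr rfl fun i _ => ?_
        have : (e.symm (x, y)) i.1 = y i := by
          simp [e, Equiv.piEquivPiSubtypeProd, i.2]
        rw [this]
    rw [h1]
  have ef : ∀ x y, f (e.symm (x, y)) = f (e.symm (x, (e ω0).2)) := by
    intro x y
    apply hf
    intro u hu
    simp [e, Equiv.piEquivPiSubtypeProd, hu]
  have eg : ∀ x y, g (e.symm (x, y)) = g (e.symm ((e ω0).1, y)) := by
    intro x y
    apply hg
    intro u hu
    simp [e, Equiv.piEquivPiSubtypeProd, hu]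
  have s1 : (∑ x : (∀ i : {u // p u}, Ω i), (∏ i, w i.1 (x i))) = 1 := by
    rw [← Fintype.piFinset_univ, ← Finset.prod_univ_sum]
    exact Finset.prod_eq_one fun i _ => hw1 i.1
  have s2 : (∑ x : (∀ i : {u // ¬ p u}, Ω i), (∏ i, w i.1 (x i))) = 1 := by
    rw [← Fintype.piFinset_univ, ← Finset.prod_univ_sum]
    exact Finset.prod_eq_one fun i _ => hw1 i.1
  have kf : EE w f = ∑ x : (∀ i : {u // p u}, Ω i),
      (∏ i, w i.1 (x i)) * f (e.symm (x, (e ω0).2)) := by
    rw [key]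
    refine Finset.sum_congr rfl fun x _ => ?_
    calc _ = ∑ y : (∀ i : {u // ¬ p u}, Ω i), (∏ i, w i.1 (y i)) *
          ((∏ i, w i.1 (x i)) * f (e.symm (x, (e ω0).2))) :=
          Finset.sum_congr rfl fun y _ => by rw [ef]; ring
      _ = _ := by rw [← Finset.sum_mul, s2, one_mul]
  have kg : EE w g = ∑ y : (∀ i : {u // ¬ p u}, Ω i),
      (∏ i, w i.1 (y i)) * g (e.symm ((e ω0).1, y)) := by
    rw [key, Finset.sum_comm]
    refine Finset.sum_congr rfl fun y _ => ?_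
    calc _ = ∑ x : (∀ i : {u // p u}, Ω i), (∏ i, w i.1 (x i)) *
          ((∏ i, w i.1 (y i)) * g (e.symm ((e ω0).1, y))) :=
          Finset.sum_congr rfl fun x _ => by rw [eg]; ring
      _ = _ := by rw [← Finset.sum_mul, s1, one_mul]
  rw [key, kf, kg, Finset.sum_mul_sum]
  refine Finset.sum_congr rfl fun x _ => Finset.sum_congr rfl fun y _ => ?_
  show _ * (f (e.symm (x, y)) * g (e.symm (x, y))) = _
  rw [ef x y, eg x y]
  ring

/-- functions of disjoint sets of coordinates are independent -/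
lemma EE_indep (hw1 : ∀ u, ∑ x, w u x = 1) {A B : Finset U} (hAB : Disjoint A B)
    {f g : (∀ u, Ω u) → ℝ} (hf : ∀ x y, (∀ u ∈ A, x u = y u) → f x = f y)
    (hg : ∀ x y, (∀ u ∈ B, x u = y u) → g x = g y) :
    EE w (fun ω => f ω * g ω) = EE w f * EE w g :=
  EE_indep_aux hw1 (fun u => u ∈ A) hf
    (fun x y h => hg x y fun u hu => h u fun hA => (Finset.disjoint_left.mp hAB hA) hu)

end prob

end Pool.Agent.H88BC
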