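import Pool.Agent.H88BC.Imp3

/-!
# Almost regular subgraphs on large sets
-/

set_option autoImplicit false
set_option linter.unusedSectionVars false

open Finset Classical

namespace Pool.Agent.H88BC

section ref

variable {V : Type} [Fintype V] {G : SimpleGraph V}

/-- number of edges between two sets -/
noncomputable def eR (G : SimpleGraph V) (A B : Finset V) : ℝ :=
  ∑ x ∈ A, ∑ y ∈ B, ind (G.Adj x y)

lemma sum_ind_card (B : Finset V) (x : V) :
    ∑ y ∈ B, ind (G.Adj x y) = ((B.filter (fun y => G.Adj x y)).card : ℝ) := by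
  unfold ind
  rw [Finset.sum_ite]
  simp

lemma eR_comm (A B : Finset V) : eR G A B = eR G B A := by
  unfold eR
  rw [Finset.sum_comm]
  refine Finset.sum_congr rfl fun x _ => Finset.sum_congr rfl fun y _ => ?_
  rw [show G.Adj y x = G.Adj x y from propext ⟨fun h => h.symm, fun h => h.symm⟩]

lemma eR_erase {A : Finset V} {x : V} (hx : x ∈ A) (B : Finset V) :
    eR G A B = eR G (A.erase x) B + ((B.filter (fun y => G.Adj x y)).card : ℝ) := by
  unfold eR
  rw [← Finset.add_sum_erase A _ hx, sum_ind_card, add_comm]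

lemma refine_host [Nonempty V] {P : Bool → Finset V} {K p : ℝ} (hH : Host G P K p) (hK : 1 ≤ K)
    (hp : 0 < p) {c : Bool} {Z : Finset V} (hZ : Z ⊆ P c) {c₁ : ℝ} (hc : 0 < c₁)
    (hZc : (Fintype.card V : ℝ) * c₁ ≤ (Z.card : ℝ)) :
    ∃ P' : Bool → Finset V, P' c ⊆ Z ∧ P' (!c) ⊆ P (!c) ∧ Host G P' (4 * K ^ 2 / c₁) p := by
  have hn : (0 : ℝ) < Fintype.card V := by exact_mod_cast Fintype.card_pos
  have hK0 : 0 < K := by linarith
  have hc1 : c₁ ≤ 1 := by
    have h1 : (Z.card : ℝ) ≤ Fintype.card V := by exact_mod_cast Finset.card_le_univ Z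
    have h2 : (Fintype.card V : ℝ) * c₁ ≤ (Fintype.card V : ℝ) * 1 := by linarith
    exact le_of_mul_le_mul_left h2 hn
  obtain ⟨n, hnd⟩ : ∃ n : ℝ, n = Fintype.card V := ⟨_, rfl⟩
  obtain ⟨m, hm⟩ : ∃ m : ℝ, m = c₁ * p * n / (4 * K) := ⟨_, rfl⟩
  have hm0 : 0 ≤ m := by rw [hm, hnd]; positivity
  obtain ⟨⟨A, B⟩, hAB, hmax⟩ := Finset.exists_max_image (Z.powerset ×ˢ (P (!c)).powerset)
    (fun q => eR G q.1 q.2 - m * ((q.1.card : ℝ) + (q.2.card : ℝ)))
    ⟨(Z, P (!c)), by simp⟩
  rw [mem_product, mem_powerset, mem_powerset] at hAB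
  obtain ⟨hA, hB⟩ := hAB
  simp only at hA hB
  have hdA : ∀ x ∈ A, m ≤ ((B.filter (fun y => G.Adj x y)).card : ℝ) := by
    intro x hx
    have h1 := hmax (A.erase x, B) (by
      rw [mem_product, mem_powerset, mem_powerset]
      exact ⟨(erase_subset _ _).trans hA, hB⟩)
    simp only at h1
    rw [eR_erase hx B] at h1
    have h2 : ((A.erase x).card : ℝ) = (A.card : ℝ) - 1 := by
      rw [card_erase_of_mem hx, Nat.cast_sub (card_pos.mpr ⟨x, hx⟩)]
      simp
    rw [h2] at h1
    nlinarith
  have hdB : ∀ y ∈ B, m ≤ ((A.filter (fun x => G.Adj y x)).card : ℝ) := by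
    intro y hy
    have h1 := hmax (A, B.erase y) (by
      rw [mem_product, mem_powerset, mem_powerset]
      exact ⟨hA, (erase_subset _ _).trans hB⟩)
    simp only at h1
    rw [eR_comm A B, eR_erase hy A, eR_comm A (B.erase y)] at h1
    have h2 : ((B.erase y).card : ℝ) = (B.card : ℝ) - 1 := by
      rw [card_erase_of_mem hy, Nat.cast_sub (card_pos.mpr ⟨y, hy⟩)]
      simp
    rw [h2] at h1
    nlinarith
  have hE : c₁ * p * n ^ 2 / (2 * K) ≤ eR G A B := by
    have h1 := hmax (Z, P (!c)) (by simp)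
    simp only at h1
    have h2 : (Z.card : ℝ) * (p * n / K) ≤ eR G Z (P (!c)) := by
      unfold eR
      rw [← nsmul_eq_mul, ← Finset.sum_const]
      refine Finset.sum_le_sum fun x hx => ?_
      rw [sum_ind_card, div_le_iff₀ hK0, hnd]
      have := hH.lo c x (hZ hx)
      linarith
    have h3 : n * c₁ * (p * n / K) ≤ (Z.card : ℝ) * (p * n / K) := by
      refine mul_le_mul_of_nonneg_right ?_ (by rw [hnd]; positivity)
      rw [hnd]; exact hZc
    have h4 : (Z.card : ℝ) ≤ n := by
      rw [hnd]; exact_mod_cast Finset.card_le_univ Z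
    have h5 : ((P (!c)).card : ℝ) ≤ n := by
      rw [hnd]; exact_mod_cast Finset.card_le_univ _
    have h6 : m * ((Z.card : ℝ) + ((P (!c)).card : ℝ)) ≤ m * (n + n) :=
      mul_le_mul_of_nonneg_left (by linarith) hm0
    have h7 : 0 ≤ m * ((A.card : ℝ) + (B.card : ℝ)) := by positivity
    have h8 : n * c₁ * (p * n / K) - m * (n + n) = c₁ * p * n ^ 2 / (2 * K) := by
      rw [hm]
      field_simp
      ring
    linarith
  have hcardA : c₁ * n / (2 * K ^ 2) ≤ (A.card : ℝ) := by
    have h1 : eR G A B ≤ (A.card : ℝ) * (K * p * n) := by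
      unfold eR
      rw [← nsmul_eq_mul, ← Finset.sum_const]
      refine Finset.sum_le_sum fun x hx => ?_
      rw [sum_ind_card, hnd]
      have h2 := hH.hi c x (hZ (hA hx))
      refine le_trans ?_ h2
      exact_mod_cast card_le_card (filter_subset_filter _ hB)
    have h2 := hE.trans h1
    have h3 : (0 : ℝ) < K * p * n := by rw [hnd]; positivity
    have h4 : c₁ * n / (2 * K ^ 2) * (K * p * n) = c₁ * p * n ^ 2 / (2 * K) := by
      field_simp
    have h5 : c₁ * n / (2 * K ^ 2) * (K * p * n) ≤ (A.card : ℝ) * (K * p * n) := by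
      rw [h4]; exact h2
    exact le_of_mul_le_mul_right h5 h3
  have hcardB : c₁ * n / (2 * K ^ 2) ≤ (B.card : ℝ) := by
    have h1 : eR G A B ≤ (B.card : ℝ) * (K * p * n) := by
      rw [eR_comm]
      unfold eR
      rw [← nsmul_eq_mul, ← Finset.sum_const]
      refine Finset.sum_le_sum fun x hx => ?_
      rw [sum_ind_card]
      have h2 := hH.hi (!c) x (hB hx)
      rw [Bool.not_not] at h2
      rw [hnd]
      refine le_trans ?_ h2
      exact_mod_cast card_le_card (filter_subset_filter _ (hA.trans hZ))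
    have h2 := hE.trans h1
    have h3 : (0 : ℝ) < K * p * n := by rw [hnd]; positivity
    have h4 : c₁ * n / (2 * K ^ 2) * (K * p * n) = c₁ * p * n ^ 2 / (2 * K) := by
      field_simp
    have h5 : c₁ * n / (2 * K ^ 2) * (K * p * n) ≤ (B.card : ℝ) * (K * p * n) := by
      rw [h4]; exact h2
    exact le_of_mul_le_mul_right h5 h3
  have hKK : K ≤ 4 * K ^ 2 / c₁ := by
    rw [le_div_iff₀ hc]
    nlinarith
  -- the three conditions
  have lo : ∀ d : ℝ, m ≤ d → p * n ≤ 4 * K ^ 2 / c₁ * d := by
    intro d hd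
    have h1 : 4 * K ^ 2 / c₁ * m ≤ 4 * K ^ 2 / c₁ * d :=
      mul_le_mul_of_nonneg_left hd (by positivity)
    have h2 : 4 * K ^ 2 / c₁ * m = K * (p * n) := by
      rw [hm]
      field_simp
    have h3 : 0 ≤ p * n := by rw [hnd]; positivity
    nlinarith
  have big : ∀ d : ℝ, c₁ * n / (2 * K ^ 2) ≤ d → n ≤ 4 * K ^ 2 / c₁ * d := by
    intro d hd
    have h1 : 4 * K ^ 2 / c₁ * (c₁ * n / (2 * K ^ 2)) ≤ 4 * K ^ 2 / c₁ * d :=
      mul_le_mul_of_nonneg_left hd (by positivity)
    have h2 : 4 * K ^ 2 / c₁ * (c₁ * n / (2 * K ^ 2)) = 2 * n := by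
      field_simp
      ring
    have h3 : 0 ≤ n := by rw [hnd]; positivity
    linarith
  have hi : ∀ d : ℝ, d ≤ K * p * n → d ≤ 4 * K ^ 2 / c₁ * p * n := by
    intro d hd
    refine hd.trans ?_
    have h3 : 0 ≤ p * n := by rw [hnd]; positivity
    have := mul_le_mul_of_nonneg_right hKK h3
    linarith
  refine ⟨fun b => if b = c then A else B, ?_, ?_, ?_⟩
  · simp only [if_true]
    exact hA
  · have : (!c) ≠ c := by cases c <;> simp
    simp only [if_neg this]
    exact hB
  · rw [hnd] at lo big hi hcardA hcardB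
    have hcc : (!c) ≠ c := by cases c <;> simp
    refine ⟨?_, ?_, ?_⟩
    · intro b x hx
      by_cases hb : b = c
      · subst hb
        simp only [if_true] at hx
        simp only [if_neg hcc]
        exact lo _ (hdA x hx)
      · have hb' : (!b) = c := by cases b <;> cases c <;> simp_all
        simp only [if_neg hb] at hx
        simp only [hb', if_true]
        exact lo _ (hdB x hx)
    · intro b x hx
      by_cases hb : b = c
      · subst hb
        simp only [if_true] at hx
        simp only [if_neg hcc]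
        refine hi _ (le_trans ?_ (hH.hi b x (hZ (hA hx))))
        exact_mod_cast card_le_card (filter_subset_filter _ hB)
      · have hb' : (!b) = c := by cases b <;> cases c <;> simp_all
        have hb'' : b = !c := by cases b <;> cases c <;> simp_all
        simp only [if_neg hb] at hx
        simp only [hb', if_true]
        have h2 := hH.hi b x (by rw [hb'']; exact hB hx)
        rw [hb'] at h2
        refine hi _ (le_trans ?_ h2)
        exact_mod_cast card_le_card (filter_subset_filter _ (hA.trans hZ))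
    · intro b
      by_cases hb : b = c
      · subst hb
        simp only [if_true]
        exact big _ hcardA
      · simp only [if_neg hb]
        exact big _ hcardB

end ref

end Pool.Agent.H88BC
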