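import Pool.Agent.H88BC.Ref

/-!
# The improvement step
-/

set_option autoImplicit false
set_option linter.unusedSectionVars false

open Finset Classical

namespace Pool.Agent.H88BC

section step

variable {U : Type} [Fintype U]

lemma Gad.Valid.mono {V ι : Type} {g : Gad V ι} {G : SimpleGraph V} {Q Q' : Finset V}
    {Λ Λ' δ δ' : ℝ} (h : g.Valid G Q Λ δ) (hQ : Q' ⊆ Q) (hΛ : Λ ≤ Λ') (hδ : δ ≤ δ') :
    g.Valid G Q' Λ' δ' :=
  ⟨h.ν0, h.ν1, h.f0, fun z hz => h.f1 z (hQ hz), fun z hz γ => (h.fb z (hQ hz) γ).trans hΛ,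
    fun z hz j v => (h.c1 z (hQ hz) j v).trans hδ,
    fun z hz j j' hj => (h.c2 z (hQ hz) j j' hj).trans hδ, fun z hz => h.adj z (hQ hz)⟩

lemma Host.mono {V : Type} [Fintype V] {G : SimpleGraph V} {P : Bool → Finset V} {K K' p : ℝ}
    (h : Host G P K p) (hK : K ≤ K') (hp : 0 ≤ p) : Host G P K' p := by
  refine ⟨fun b x hx => (h.lo b x hx).trans ?_, fun b x hx => (h.hi b x hx).trans ?_,
    fun b => (h.big b).trans ?_⟩
  · exact mul_le_mul_of_nonneg_right hK (Nat.cast_nonneg _)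
  · refine mul_le_mul_of_nonneg_right ?_ (Nat.cast_nonneg _)
    exact mul_le_mul_of_nonneg_right hK hp
  · exact mul_le_mul_of_nonneg_right hK (Nat.cast_nonneg _)

/-- hosts with random roots of given quality -/
def Stage {V : Type} [Fintype V] (G : SimpleGraph V) (Rt : U → Type) (col : U → Bool)
    (q' : U → ℕ) (N : ℕ) (w K δ : ℝ) (ℓ : Bool → ℕ) : Prop :=
  ∃ (P : Bool → Finset V) (gad : ∀ u, Gad V (Rt u)), Host G P K (w ^ N)⁻¹ ∧
    ∀ u, (gad u).Valid G (P (col u)) (K * w ^ (N * (q' u + 1)) / w ^ (ℓ (col u) * q' u)) δ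

lemma x0_le {V : Type} [Fintype V] [Nonempty V] {F : SimpleGraph U} {G : SimpleGraph V}
    {P : Bool → Finset V} {K p w C : ℝ} {col : U → Bool}
    (hF : F.IsAcyclic) (hF' : F.Preconnected) (hcol : ∀ x y, F.Adj x y → col x ≠ col y)
    (hH : Host G P K p) (hK : 1 ≤ K) (hw : 1 ≤ w) (hC : 1 ≤ C) {a b N : ℕ} (u0 : U)
    (ha : a = Fintype.card U) (hp : p = (w ^ N)⁻¹) (hNab : N ≤ a * b)
    (hn : C * w ^ (a * b) ≤ Fintype.card V) :
    (K * p) ^ (Fintype.card U - 2) * (Fintype.card V : ℝ)⁻¹ ≤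
      K ^ (2 * a) / C * bt F G (fun u => P (col u)) one univ := by
  have hn0 : (0 : ℝ) < Fintype.card V := by exact_mod_cast Fintype.card_pos
  have hK0 : 0 < K := by linarith
  have hw0 : 0 < w := by linarith
  have hC0 : 0 < C := by linarith
  have hp0 : 0 < p := by rw [hp]; positivity
  have hp1 : p ≤ 1 := by
    rw [hp]
    exact inv_le_one_of_one_le₀ (one_le_pow₀ hw)
  have ha1 : 1 ≤ a := by
    rw [ha]
    exact Fintype.card_pos_iff.mpr ⟨u0⟩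
  have h3 := bt_ge hF hcol hH hK hp0 (grow_univ hF' u0)
  rw [card_univ, ← ha] at h3
  rw [← ha]
  obtain ⟨h, hh⟩ : ∃ h, h = bt F G (fun u => P (col u)) one univ := ⟨_, rfl⟩
  rw [← hh] at h3 ⊢
  have h4 : p ^ (a - 1) ≤ K ^ a * h := by
    rw [div_pow, div_div, div_le_iff₀ (by positivity)] at h3
    calc _ ≤ h * (K ^ (a - 1) * K) := h3
      _ = K ^ a * h := by
          rw [← pow_succ, Nat.sub_add_cancel ha1]
          ring
  have h5 : (Fintype.card V : ℝ)⁻¹ ≤ p / C := by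
    rw [hp, ← one_div, inv_eq_one_div, div_div, div_le_div_iff₀ hn0 (by positivity), one_mul,
      one_mul]
    refine le_trans ?_ hn
    rw [mul_comm]
    exact mul_le_mul_of_nonneg_left (pow_le_pow_right₀ hw hNab) hC0.le
  have h6 : p ^ (a - 2) * p ≤ p ^ (a - 1) := by
    rw [← pow_succ]
    exact pow_le_pow_of_le_one hp0.le hp1 (by omega)
  calc _ ≤ (K * p) ^ (a - 2) * (p / C) := mul_le_mul_of_nonneg_left h5 (by positivity)
    _ = K ^ (a - 2) * (p ^ (a - 2) * p) / C := by rw [mul_pow]; ring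
    _ ≤ K ^ a * (K ^ a * h) / C := by
        refine div_le_div_of_nonneg_right ?_ hC0.le
        refine mul_le_mul (pow_le_pow_right₀ hK (by omega)) (h6.trans h4) (by positivity)
          (by positivity)
    _ = _ := by
        rw [two_mul, pow_add]
        ring

theorem step (F : SimpleGraph U) (hF : F.IsAcyclic) (hF' : F.Preconnected) (col : U → Bool)
    (hcol : ∀ x y, F.Adj x y → col x ≠ col y) (u0 : U) (Rt : U → Type) [∀ u, Fintype (Rt u)]
    (q' : U → ℕ) (hq' : ∀ u, Fintype.card (Rt u) = q' u + 1) (a b N t : ℕ)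
    (ha : a = Fintype.card U) (hNab : N ≤ a * b) (ht : 0 < t)
    (hN1 : ∀ ℓ : Bool → ℕ, (∀ c, ℓ c ≤ N) → ∀ k0 K₁, Grow F k0 K₁ →
      ∑ u ∈ K₁, N * (q' u + 1) + N * (K₁.card - 1) + ∑ e ∈ bd F K₁, (ℓ (col e.2) + 1) ≤
      a * b * K₁.card + ∑ u ∈ K₁, ℓ (col u) * q' u)
    (hTop : ∀ u, N * (q' u + 1) + N * (bd F {u}).card ≤ a * b + N * q' u)
    (L δ : ℝ) (hL : 1 ≤ L) (hδ : 0 ≤ δ) (hL1 : (a : ℝ) ^ 2 * t / L ≤ 1 / 8)
    (hδ1 : ((Fintype.card (Σ u, Rt u) : ℝ) * (a : ℝ) + (Fintype.card (Σ u, Rt u) : ℝ) ^ 2) * δ ≤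
      1 / 8)
    (hδ2 : 4 / (1 / (2 * (a : ℝ) ^ 2) * L) ≤ δ) (K : ℝ) (hK : 1 ≤ K) :
    ∃ K' : ℝ, 1 ≤ K' ∧ ∃ C : ℝ, 1 ≤ C ∧ ∀ (V : Type) [Fintype V] [Nonempty V] (G : SimpleGraph V)
      (w : ℝ), 1 ≤ w → C * w ^ (a * b) ≤ Fintype.card V → ∀ ℓ : Bool → ℕ, (∀ c, ℓ c ≤ N) →
      Stage G Rt col q' N w K δ ℓ → BU F G Rt t ∨
        ∃ c, ℓ c < N ∧ Stage G Rt col q' N w K' δ (Function.update ℓ c (ℓ c + 1)) := by
  have hK0 : 0 < K := by linarith
  have hL0 : 0 < L := by linarith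
  have ha1 : 1 ≤ a := by
    rw [ha]
    exact Fintype.card_pos_iff.mpr ⟨u0⟩
  have haR : (1 : ℝ) ≤ a := by exact_mod_cast ha1
  obtain ⟨η, hη⟩ : ∃ η : ℝ, η = 1 / (2 * (a : ℝ) ^ 2) := ⟨_, rfl⟩
  have hη0 : 0 < η := by rw [hη]; positivity
  rw [← hη] at hδ2
  have h4η : 1 ≤ 4 / η := by
    rw [hη]
    rw [one_le_div (by positivity), div_le_iff₀ (by positivity)]
    nlinarith
  obtain ⟨c₁, hc₁⟩ : ∃ c₁ : ℝ, c₁ = η / 2 / K ^ (2 * a) := ⟨_, rfl⟩
  have hc₁0 : 0 < c₁ := by rw [hc₁]; positivity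
  obtain ⟨s0, hs0⟩ : ∃ s0 : ℕ, s0 = ∑ u, (q' u + 1) := ⟨_, rfl⟩
  obtain ⟨K', hK'⟩ : ∃ K' : ℝ, K' = 4 * K ^ 2 / c₁ + (4 / η) ^ s0 * K ^ (2 * a) + K := ⟨_, rfl⟩
  have p1 : 0 < 4 * K ^ 2 / c₁ := by positivity
  have p2 : 0 < (4 / η) ^ s0 * K ^ (2 * a) := by positivity
  have hKK' : K ≤ K' := by rw [hK']; linarith
  have hKK1 : 4 * K ^ 2 / c₁ ≤ K' := by rw [hK']; linarith
  have hKK2 : (4 / η) ^ s0 * K ^ (2 * a) ≤ K' := by rw [hK']; linarith
  obtain ⟨M, hM⟩ : ∃ M : ℝ, M = L ^ (a + 1) := ⟨_, rfl⟩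
  have hM1 : 1 ≤ M := by rw [hM]; exact one_le_pow₀ hL
  obtain ⟨C, hC⟩ : ∃ C : ℝ, C = 8 * ((2 : ℝ) ^ a + a + (a : ℝ) ^ 2) * K ^ (2 * a) * M ^ a :=
    ⟨_, rfl⟩
  have hKp : 1 ≤ K ^ (2 * a) := one_le_pow₀ hK
  have hMp : 1 ≤ M ^ a := one_le_pow₀ hM1
  have h2a : (1 : ℝ) ≤ (2 : ℝ) ^ a := one_le_pow₀ (by norm_num)
  have hC1 : 1 ≤ C := by
    rw [hC]
    have e1 : (1 : ℝ) ≤ 8 * ((2 : ℝ) ^ a + a + (a : ℝ) ^ 2) := by nlinarith
    have e2 : (1 : ℝ) ≤ 8 * ((2 : ℝ) ^ a + a + (a : ℝ) ^ 2) * K ^ (2 * a) := by nlinarith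
    nlinarith
  have hC0 : 0 < C := by linarith
  refine ⟨K', by linarith, C, hC1, ?_⟩
  intro V _ _ G w hw hn ℓ hℓ hSt
  obtain ⟨P, gad, hH, hv⟩ := hSt
  by_cases hBU : BU F G Rt t
  · exact Or.inl hBU
  right
  have hw0 : 0 < w := by linarith
  obtain ⟨p, hp⟩ : ∃ p, p = (w ^ N)⁻¹ := ⟨_, rfl⟩
  have hp0 : 0 < p := by rw [hp]; positivity
  rw [← hp] at hH
  obtain ⟨Λ, hΛ⟩ : ∃ Λ : U → ℝ, Λ = fun u => K * w ^ (N * (q' u + 1)) / w ^ (ℓ (col u) * q' u) :=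
    ⟨_, rfl⟩
  have hv' : ∀ u, (gad u).Valid G (P (col u)) (Λ u) δ := by rw [hΛ]; exact hv
  have hΛ0 : ∀ u, 0 ≤ Λ u := by
    intro u
    rw [hΛ]
    positivity
  obtain ⟨Q, hQ⟩ : ∃ Q : U → Finset V, Q = fun u => P (col u) := ⟨_, rfl⟩
  have hvQ : ∀ u, (gad u).Valid G (Q u) (Λ u) δ := by rw [hQ]; exact hv'
  obtain ⟨h, hh⟩ : ∃ h, h = bt F G Q one univ := ⟨_, rfl⟩
  have hh0 : 0 < h := by
    have := bt_ge hF hcol hH hK hp0 (grow_univ hF' u0)
    rw [← hQ, ← hh] at this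
    exact lt_of_lt_of_le (by positivity) this
  obtain ⟨x1, hx1⟩ : ∃ x1, x1 = K ^ (2 * a) * M ^ a / C * h := ⟨_, rfl⟩
  have hx10 : 0 ≤ x1 := by rw [hx1]; positivity
  have hxsum : ((2 : ℝ) ^ a + a) * x1 ≤ 1 / 8 * h := by
    have e1 : ((2 : ℝ) ^ a + a) * (K ^ (2 * a) * M ^ a / C) ≤ 1 / 8 := by
      rw [mul_div_assoc', div_le_iff₀ hC0, hC]
      have : 0 < K ^ (2 * a) * M ^ a := by positivity
      nlinarith
    rw [hx1]
    calc _ = ((2 : ℝ) ^ a + a) * (K ^ (2 * a) * M ^ a / C) * h := by ring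
      _ ≤ _ := mul_le_mul_of_nonneg_right e1 hh0.le
  have hx0sum : (a : ℝ) ^ 2 * (K ^ (2 * a) / C * h) ≤ 1 / 8 * h := by
    have e1 : (a : ℝ) ^ 2 * (K ^ (2 * a) / C) ≤ 1 / 8 := by
      rw [mul_div_assoc', div_le_iff₀ hC0, hC]
      have e2 : 0 < K ^ (2 * a) := by positivity
      have e3 : K ^ (2 * a) ≤ K ^ (2 * a) * M ^ a := by nlinarith
      have e4 : (0 : ℝ) < (2 : ℝ) ^ a + a := by positivity
      nlinarith
    calc _ = (a : ℝ) ^ 2 * (K ^ (2 * a) / C) * h := by ring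
      _ ≤ _ := mul_le_mul_of_nonneg_right e1 hh0.le
  -- the set of huge vertices
  obtain ⟨huge, hhuge⟩ : ∃ huge : U → Prop, huge = fun u =>
    N * (q' u + 1) + N * (bd F {u}).card ≤ a * b + ℓ (col u) * q' u := ⟨_, rfl⟩
  obtain ⟨τ, hτ⟩ : ∃ τ : U × U → ℝ, τ = fun e => w ^ (ℓ (col e.2) + 1) * p := ⟨_, rfl⟩
  have hτ0 : ∀ e, 0 < τ e := fun e => by rw [hτ]; simp only; positivity
  have hA : Ms F G Q gad (fun φ X => ∀ u, ¬ bt F G Q φ univ ≤ L * bv F G Q φ univ u (X u)) ≤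
      3 / 8 * bt F G Q one univ := by
    have e1 := mass_unpop (F := F) hvQ ht hBU hL0
      (x0 := (K * p) ^ (Fintype.card U - 2) * (Fintype.card V : ℝ)⁻¹) (by positivity) hδ
      (by
        intro u v huv
        rw [hQ]
        exact coll0 hF hF' hcol hH hK hp0 huv)
    have e2 := x0_le hF hF' hcol hH hK hw hC1 u0 ha hp hNab hn
    rw [← hQ, ← hh] at e2
    rw [← hh, ← ha] at e1
    rw [← hh]
    rw [← ha] at e2
    have e3 : h * ((a : ℝ) ^ 2 * t / L) ≤ h * (1 / 8) := mul_le_mul_of_nonneg_left hL1 hh0.le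
    have e4 : (a : ℝ) ^ 2 * ((K * p) ^ (a - 2) * (Fintype.card V : ℝ)⁻¹) ≤
        (a : ℝ) ^ 2 * (K ^ (2 * a) / C * h) := mul_le_mul_of_nonneg_left e2 (by positivity)
    have e5 : ((Fintype.card (Σ u, Rt u) : ℝ) * (a : ℝ) + (Fintype.card (Σ u, Rt u) : ℝ) ^ 2) *
        (h * δ) ≤ 1 / 8 * h := by
      calc _ = (((Fintype.card (Σ u, Rt u) : ℝ) * (a : ℝ) +
            (Fintype.card (Σ u, Rt u) : ℝ) ^ 2) * δ) * h := by ring
        _ ≤ _ := mul_le_mul_of_nonneg_right hδ1 hh0.le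
    unfold Ms
    linarith
  have hB : ∀ u, huge u → Ms F G Q gad (fun φ X => bt F G Q φ univ ≤
      L ^ (Fintype.card U + 1) * bv F G Q φ univ u (X u)) ≤ x1 := by
    intro u hu
    rw [hhuge] at hu
    rw [← ha, ← hM]
    have e1 := ub2 (G := G) (Q := Q) hF hF' hvQ hΛ0 (Grow.base (F := F) (s := u))
      (lt_of_lt_of_le one_pos hM1) (fun _ => w ^ N * p) (fun _ => by positivity)
    have e2 := ub3 (ℓ := fun u => ℓ (col u)) (ℓ' := fun _ => N) (q' := q') hF hF' hcol hH hK hw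
      hM1 hC1 ha hp hn (Grow.base (F := F) (s := u)) (by
        simp only [Finset.sum_singleton, card_singleton, Finset.sum_const, smul_eq_mul,
          Nat.sub_self, mul_zero, add_zero, mul_one]
        rw [mul_comm ((bd F {u}).card) N]
        exact hu)
    rw [← hQ, ← hh, ← hx1] at e2
    rw [hΛ] at e1
    refine le_trans ?_ (e1.trans e2)
    refine EE_mono (fun u => (hvQ u).ν0) fun γ _ => ?_
    refine EE_mono uni_nonneg fun X _ => ?_
    refine mul_le_mul_of_nonneg_left (ind_mono ?_) (Wt_nonneg (phi_nonneg hvQ γ) _ _)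
    intro h1
    refine ⟨fun u' hu' => ?_, fun e he => ?_⟩
    · rw [mem_singleton] at hu'
      rw [hu']
      exact h1
    · rw [hp, mul_inv_cancel₀ (by positivity), one_mul]
      exact bN_le_bt (phi_nonneg hvQ γ) _ _ _
  have hCC : ∀ K₁, (∃ k0, Grow F k0 K₁) →
      Ms F G Q gad (EvS F G Q (L ^ (Fintype.card U + 1)) τ K₁) ≤ x1 := by
    rintro K₁ ⟨k0, hK₁⟩
    rw [← ha, ← hM]
    have e1 := ub2 (G := G) (Q := Q) hF hF' hvQ hΛ0 hK₁
      (lt_of_lt_of_le one_pos hM1) τ (fun e => (hτ0 e).le)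
    have e2 := ub3 (ℓ := fun u => ℓ (col u)) (ℓ' := fun e => ℓ (col e.2) + 1) (q' := q') hF hF'
      hcol hH hK hw hM1 hC1 ha hp hn hK₁ (hN1 ℓ hℓ k0 K₁ hK₁)
    rw [← hQ, ← hh, ← hx1] at e2
    rw [hΛ, hτ] at e1
    rw [hτ]
    exact e1.trans e2
  obtain ⟨⟨s, k⟩, ⟨hsk, hnh⟩, hmass⟩ := core hF hvQ hL huge τ (by rw [← hh]; exact hh0) hA hB hCC
    hx10 (by rw [← ha, ← hh]; exact hxsum)
  simp only at hsk hnh
  rw [← ha, ← hh] at hmass
  have hmass' : η * bt F G (fun u => P (col u)) one univ ≤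
      Ms F G (fun u => P (col u)) gad (EvR F G (fun u => P (col u)) L τ (s, k)) := by
    rw [← hQ, ← hh]
    refine le_trans (le_of_eq ?_) hmass
    rw [hη]
    ring
  obtain ⟨Z, hZP, hZc, hZ⟩ := exists_Z hF hF' hcol hH hK hp0 hv' hsk hη0 τ hmass'
  rw [← ha] at hZc hZ
  obtain ⟨P', hP1, hP2, hH'⟩ := refine_host hH hK hp0 hZP hc₁0 (by
    rw [hc₁, mul_div_assoc', div_le_iff₀ (by positivity)]
    exact hZc)
  have hℓk : ℓ (col k) < N := by
    rcases (hℓ (col k)).lt_or_eq with h1 | h1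
    · exact h1
    · exfalso
      apply hnh
      rw [hhuge]
      simp only
      rw [h1]
      exact hTop k
  refine ⟨col k, hℓk, P', fun u => if col u = col k then
    newGad F G Q gad L (τ (s, k)) η (br F s k) s (Rt u) else gad u, ?_, ?_⟩
  · rw [← hp]
    exact hH'.mono hKK1 hp0.le
  · intro u
    show Gad.Valid (if col u = col k then newGad F G Q gad L (τ (s, k)) η (br F s k) s (Rt u)
      else gad u) G (P' (col u)) (K' * w ^ (N * (q' u + 1)) /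
        w ^ (Function.update ℓ (col k) (ℓ (col k) + 1) (col u) * q' u)) δ
    by_cases hu : col u = col k
    · rw [if_pos hu, hu, Function.update_self]
      have hbr := br_spec hF hsk
      have hB0 : 0 < bt F G Q one (br F s k) := by
        have := bt_ge hF hcol hH hK hp0 hbr.1
        rw [← hQ] at this
        exact lt_of_lt_of_le (by positivity) this
      have e1 := newGad_valid (F := F) (Q := Q) hvQ hL0 (hτ0 (s, k)) hη0 (s := s) hB0 (hq' u)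
        (Z := Z) (c := 4 / η * (K ^ (2 * a) / p)) (by positivity) (by rw [hQ]; exact hZ)
      refine e1.mono hP1 ?_ hδ2
      have hq1 : (4 / η) ^ (q' u + 1) ≤ (4 / η) ^ s0 := by
        refine pow_le_pow_right₀ h4η ?_
        rw [hs0]
        exact Finset.single_le_sum (f := fun u => q' u + 1) (fun _ _ => Nat.zero_le _)
          (mem_univ u)
      have e2 : 4 / η * (K ^ (2 * a) / p) * (4 / η / τ (s, k)) ^ q' u =
          ((4 / η) ^ (q' u + 1) * K ^ (2 * a)) * (w ^ (N * (q' u + 1)) /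
            w ^ ((ℓ (col k) + 1) * q' u)) := by
        rw [hτ]
        simp only
        rw [hp, div_pow, mul_pow, inv_pow, pow_succ (4 / η), pow_mul, pow_mul, pow_succ (w ^ N)]
        field_simp
        rw [pow_mul]
      rw [e2]
      have e3 : K' * w ^ (N * (q' u + 1)) / w ^ ((ℓ (col k) + 1) * q' u) =
          K' * (w ^ (N * (q' u + 1)) / w ^ ((ℓ (col k) + 1) * q' u)) := by ring
      rw [e3]
      refine mul_le_mul_of_nonneg_right ?_ (by positivity)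
      refine le_trans ?_ hKK2
      exact mul_le_mul_of_nonneg_right hq1 (by positivity)
    · rw [if_neg hu, Function.update_of_ne hu]
      have hu' : col u = !(col k) := by
        cases h1 : col u <;> cases h2 : col k <;> simp_all
      refine (hv u).mono (by rw [hu']; exact hP2) ?_ le_rfl
      have e3 : ∀ x : ℝ, x * w ^ (N * (q' u + 1)) / w ^ (ℓ (col u) * q' u) =
          x * (w ^ (N * (q' u + 1)) / w ^ (ℓ (col u) * q' u)) := fun x => by ring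
      rw [e3, e3]
      exact mul_le_mul_of_nonneg_right hKK' (by positivity)

end step

end Pool.Agent.H88BC
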