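import Mathlib

/-!
# Connected subsets of a finite tree
-/

set_option autoImplicit false
set_option linter.unusedSectionVars false

open Finset Classical

namespace Pool.Agent.H88BC

section tree

variable {U : Type} [Fintype U] (F : SimpleGraph U)

/-- the sets which can be built from `s` by adding adjacent vertices -/
inductive Grow (s : U) : Finset U → Prop
  | base : Grow s {s}
  | step {A : Finset U} {w u : U} (hA : Grow s A) (hw : w ∈ A) (hu : u ∉ A) (h : F.Adj w u) :
      Grow s (insert u A)

variable {F}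

lemma Grow.root {s : U} {A : Finset U} (h : Grow F s A) : s ∈ A := by
  induction h with
  | base => exact mem_singleton_self s
  | step hA hw hu h ih => exact mem_insert_of_mem ih

lemma Grow.reach {s u w : U} {A : Finset U} (h : Grow F s A) (hu : u ∉ A) :
    ∀ x ∈ A, (F.deleteEdges {s(w, u)}).Reachable s x := by
  induction h with
  | base =>
    intro x hx
    rw [mem_singleton] at hx
    rw [hx]
  | @step A w' u' hA hw' hu' hadj ih =>
    intro x hx
    have huA : u ∉ A := fun h => hu (mem_insert_of_mem h)
    have huu : u ≠ u' := fun h => hu (by rw [h]; exact mem_insert_self _ _)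
    rcases mem_insert.mp hx with rfl | hx
    · refine (ih huA w' hw').trans (SimpleGraph.Adj.reachable ?_)
      rw [SimpleGraph.deleteEdges_adj]
      refine ⟨hadj, fun h => ?_⟩
      rw [Set.mem_singleton_iff, Sym2.eq_iff] at h
      rcases h with ⟨_, h⟩ | ⟨h, _⟩
      · exact huu h.symm
      · exact huA (h ▸ hw')
    · exact ih huA x hx

/-- T1 : a vertex outside a grown set has at most one neighbour in it -/
lemma Grow.uniq (hF : F.IsAcyclic) {s u w w' : U} {A : Finset U} (h : Grow F s A) (hu : u ∉ A)
    (hw : w ∈ A) (hw' : w' ∈ A) (h1 : F.Adj w u) (h2 : F.Adj w' u) : w = w' := by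
  by_contra hne
  have h3 := SimpleGraph.isAcyclic_iff_forall_adj_isBridge.mp hF h1
  rw [SimpleGraph.isBridge_iff] at h3
  apply h3
  refine ((h.reach hu w hw).symm.trans (h.reach hu w' hw')).trans (SimpleGraph.Adj.reachable ?_)
  rw [SimpleGraph.deleteEdges_adj]
  refine ⟨h2, fun h => ?_⟩
  rw [Set.mem_singleton_iff, Sym2.eq_iff] at h
  rcases h with ⟨h, _⟩ | ⟨h, _⟩
  · exact hne h.symm
  · exact hu (h ▸ hw')

/-- T2 : maximal grown sets -/
lemma exists_grow (F : SimpleGraph U) {s : U} {D : Finset U} (hs : s ∈ D) :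
    ∃ A, Grow F s A ∧ A ⊆ D ∧ ∀ w ∈ A, ∀ u ∈ D, F.Adj w u → u ∈ A := by
  obtain ⟨A, hA, hmax⟩ := Finset.exists_max_image
    ((univ : Finset (Finset U)).filter (fun A => Grow F s A ∧ A ⊆ D)) Finset.card
    ⟨{s}, by
      rw [mem_filter]
      exact ⟨mem_univ _, Grow.base, by simpa using hs⟩⟩
  rw [mem_filter] at hA
  refine ⟨A, hA.2.1, hA.2.2, fun w hw u hu hadj => ?_⟩
  by_contra hno
  have h1 : insert u A ∈ (univ : Finset (Finset U)).filter (fun A => Grow F s A ∧ A ⊆ D) := by
    rw [mem_filter]
    exact ⟨mem_univ _, Grow.step hA.2.1 hw hno hadj, insert_subset hu hA.2.2⟩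
  have h2 := hmax _ h1
  rw [card_insert_of_notMem hno] at h2
  omega

lemma closed_univ (hF : F.Preconnected) {s : U} {A : Finset U} (hs : s ∈ A)
    (hc : ∀ w ∈ A, ∀ u, F.Adj w u → u ∈ A) : A = univ := by
  rw [Finset.eq_univ_iff_forall]
  intro x
  obtain ⟨p⟩ := hF s x
  induction p with
  | nil => exact hs
  | cons h p ih => exact ih (hc _ hs _ h)

/-- T0 -/
lemma grow_univ (hF : F.Preconnected) (s : U) : Grow F s univ := by
  obtain ⟨A, h1, _, h3⟩ := exists_grow F (mem_univ s)
  have := closed_univ hF h1.root (fun w hw u h => h3 w hw u (mem_univ u) h)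
  rw [← this]
  exact h1

/-- the component of `s` without the edge `s k` -/
def IsBr (F : SimpleGraph U) (s k : U) (B : Finset U) : Prop :=
  Grow F s B ∧ k ∉ B ∧ ∀ x ∈ B, ∀ y, y ∉ B → F.Adj x y → x = s ∧ y = k

lemma exists_br (hF : F.IsAcyclic) {s k : U} (h : F.Adj s k) : ∃ B, IsBr F s k B := by
  obtain ⟨B, h1, h2, h3⟩ := exists_grow F (s := s) (D := univ.erase k)
    (mem_erase.mpr ⟨h.ne, mem_univ _⟩)
  have hk : k ∉ B := fun hk => (mem_erase.mp (h2 hk)).1 rfl
  refine ⟨B, h1, hk, fun x hx y hy hadj => ?_⟩
  have hyk : y = k := by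
    by_contra hne
    exact hy (h3 x hx y (mem_erase.mpr ⟨hne, mem_univ _⟩) hadj)
  refine ⟨?_, hyk⟩
  rw [hyk] at hadj
  exact h1.uniq hF hk hx h1.root hadj h

/-- the component of `s` without the edge `s k` -/
noncomputable def br (F : SimpleGraph U) (s k : U) : Finset U :=
  if h : ∃ B, IsBr F s k B then h.choose else ∅

lemma br_spec (hF : F.IsAcyclic) {s k : U} (h : F.Adj s k) : IsBr F s k (br F s k) := by
  have h1 := exists_br hF h
  unfold br
  rw [dif_pos h1]
  exact h1.choose_spec

/-- T4 -/
lemma IsBr.compl (hF : F.Preconnected) {s k : U} {B : Finset U}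
    (hB : IsBr F s k B) : Grow F k Bᶜ := by
  obtain ⟨h1, h2, h3⟩ := hB
  obtain ⟨A, a1, a2, a3⟩ := exists_grow F (s := k) (D := Bᶜ) (mem_compl.mpr h2)
  have h4 : A ∪ B = univ := by
    refine closed_univ hF (mem_union_right A h1.root) fun w hw u hadj => ?_
    by_cases hu : u ∈ B
    · exact mem_union_right _ hu
    refine mem_union_left _ ?_
    rcases mem_union.mp hw with hw | hw
    · exact a3 w hw u (mem_compl.mpr hu) hadj
    · rw [(h3 w hw u hu hadj).2]
      exact a1.root
  have h5 : A = Bᶜ := by
    refine Finset.Subset.antisymm a2 fun x hx => ?_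
    have := (Finset.eq_univ_iff_forall.mp h4) x
    rcases mem_union.mp this with h | h
    · exact h
    · exact absurd h (mem_compl.mp hx)
  rw [← h5]
  exact a1

/-- a grown set without crossing edges is inside or outside -/
lemma Grow.dich {s : U} {A B : Finset U} (h : Grow F s A)
    (hc : ∀ x ∈ A, ∀ y ∈ A, F.Adj x y → (x ∈ B ↔ y ∈ B)) : ∀ x ∈ A, (x ∈ B ↔ s ∈ B) := by
  induction h with
  | base =>
    intro x hx
    rw [mem_singleton] at hx
    rw [hx]
  | @step A w u hA hw hu hadj ih =>
    intro x hx
    have ih' := ih fun x hx y hy h => hc x (mem_insert_of_mem hx) y (mem_insert_of_mem hy) h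
    rcases mem_insert.mp hx with rfl | hx
    · rw [← ih' w hw]
      exact (hc w (mem_insert_of_mem hw) x (mem_insert_self _ _) hadj).symm
    · exact ih' x hx

/-- T6 -/
lemma Grow.disj {k0 s k : U} {A B : Finset U} (h : Grow F k0 A) (hk : k ∈ A) (hs : s ∉ A)
    (hB : IsBr F s k B) : Disjoint A B := by
  have h1 := h.dich (B := B) (by
    intro x hx y hy hadj
    constructor
    · intro hxB
      by_contra hyB
      have := (hB.2.2 x hxB y hyB hadj).1
      exact hs (this ▸ hx)
    · intro hyB
      by_contra hxB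
      have := (hB.2.2 y hyB x hxB hadj.symm).1
      exact hs (this ▸ hy))
  have h2 : k0 ∉ B := fun h => hB.2.1 ((h1 k hk).mpr h)
  rw [Finset.disjoint_left]
  intro x hx hxB
  exact h2 ((h1 x hx).mp hxB)

/-- the edges from the outside to `A` -/
noncomputable def bd (F : SimpleGraph U) (A : Finset U) : Finset (U × U) :=
  univ.filter (fun e => e.1 ∉ A ∧ e.2 ∈ A ∧ F.Adj e.1 e.2)

lemma mem_bd {A : Finset U} {e : U × U} : e ∈ bd F A ↔ e.1 ∉ A ∧ e.2 ∈ A ∧ F.Adj e.1 e.2 := by
  unfold bd
  simp

/-- T7 -/
lemma bd_disj (hF : F.IsAcyclic) {k0 : U} {A : Finset U} (h : Grow F k0 A) {e e' : U × U}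
    (he : e ∈ bd F A) (he' : e' ∈ bd F A) (hne : e ≠ e') :
    Disjoint (br F e.1 e.2) (br F e'.1 e'.2) := by
  obtain ⟨s, k⟩ := e
  obtain ⟨s', k'⟩ := e'
  rw [mem_bd] at he he'
  obtain ⟨e1, e2, e3⟩ := he
  obtain ⟨f1, f2, f3⟩ := he'
  simp only at e1 e2 e3 f1 f2 f3 ⊢
  have hB := br_spec hF e3
  have hB' := br_spec hF f3
  have hd := h.disj e2 e1 hB
  have hd' := h.disj f2 f1 hB'
  have hss : s ≠ s' := by
    rintro rfl
    exact hne (by rw [h.uniq hF e1 e2 f2 e3.symm f3.symm])
  have hs' : s' ∉ br F s k := by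
    intro h'
    have hk' : k' ∉ br F s k := fun h'' => (Finset.disjoint_left.mp hd) f2 h''
    exact hss ((hB.2.2 s' h' k' hk' f3).1).symm
  have h1 := hB'.1.dich (B := br F s k) (by
    intro x hx y hy hadj
    constructor
    · intro hxB
      by_contra hyB
      have := (hB.2.2 x hxB y hyB hadj).2
      rw [this] at hy
      exact (Finset.disjoint_left.mp hd') e2 hy
    · intro hyB
      by_contra hxB
      have := (hB.2.2 y hyB x hxB hadj.symm).2
      rw [this] at hx
      exact (Finset.disjoint_left.mp hd') e2 hx)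
  rw [Finset.disjoint_left]
  intro x hx hx'
  exact hs' ((h1 x hx').mp hx)

/-- T8 -/
lemma bd_cover (hF : F.IsAcyclic) (hF' : F.Preconnected) {k0 : U} {A : Finset U}
    (h : Grow F k0 A) : A ∪ (bd F A).biUnion (fun e => br F e.1 e.2) = univ := by
  refine closed_univ hF' (mem_union_left _ h.root) fun w hw u hadj => ?_
  by_cases hu : u ∈ A
  · exact mem_union_left _ hu
  refine mem_union_right _ ?_
  rw [mem_biUnion]
  rcases mem_union.mp hw with hw | hw
  · exact ⟨(u, w), mem_bd.mpr ⟨hu, hw, hadj.symm⟩, (br_spec hF hadj.symm).1.root⟩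
  · rw [mem_biUnion] at hw
    obtain ⟨e, he, hwe⟩ := hw
    refine ⟨e, he, ?_⟩
    by_contra hno
    have hB := br_spec hF (mem_bd.mp he).2.2
    exact hu ((hB.2.2 w hwe u hno hadj).2 ▸ (mem_bd.mp he).2.1)

lemma bd_card (hF : F.IsAcyclic) (hF' : F.Preconnected) {k0 : U} {A : Finset U}
    (h : Grow F k0 A) :
    A.card + ∑ e ∈ bd F A, (br F e.1 e.2).card = Fintype.card U := by
  rw [← Finset.card_univ, ← bd_cover hF hF' h, Finset.card_union_of_disjoint,
    Finset.card_biUnion]
  · intro e he e' he' hne
    exact bd_disj hF h he he' hne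
  · rw [Finset.disjoint_biUnion_right]
    intro e he
    have he' := mem_bd.mp he
    exact h.disj he'.2.1 he'.1 (br_spec hF he'.2.2)

/-- T9 : the edges inside a grown set, counted at the ends of a given colour -/
lemma Grow.count (hF : F.IsAcyclic) {col : U → Bool} (hcol : ∀ x y, F.Adj x y → col x ≠ col y)
    {s : U} {A : Finset U} (h : Grow F s A) (c : Bool) :
    (∑ x ∈ A.filter (fun x => col x = c), (A.filter (fun y => F.Adj x y)).card) + 1 = A.card := by
  induction h with
  | base =>
    have : ∀ x ∈ ({s} : Finset U).filter (fun x => col x = c),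
        (({s} : Finset U).filter (fun y => F.Adj x y)).card = 0 := by
      intro x hx
      rw [mem_filter, mem_singleton] at hx
      rw [Finset.card_eq_zero, Finset.filter_eq_empty_iff]
      intro y hy
      rw [mem_singleton] at hy
      rw [hx.1, hy]
      exact F.loopless.irrefl s
    rw [Finset.sum_eq_zero this, card_singleton]
  | @step A w u hA hw hu hadj ih =>
    rw [card_insert_of_notMem hu]
    have huniq : ∀ x ∈ A, F.Adj x u → x = w := fun x hx hxu => hA.uniq hF hu hx hw hxu hadj
    -- new degrees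
    have d1 : ∀ x ∈ A, x ≠ w → ((insert u A).filter (fun y => F.Adj x y)).card =
        (A.filter (fun y => F.Adj x y)).card := by
      intro x hx hxw
      rw [Finset.filter_insert, if_neg]
      intro h
      exact hxw (huniq x hx h)
    have d2 : ((insert u A).filter (fun y => F.Adj w y)).card =
        (A.filter (fun y => F.Adj w y)).card + 1 := by
      rw [Finset.filter_insert, if_pos hadj, card_insert_of_notMem]
      intro h
      exact hu (mem_filter.mp h).1
    have d3 : ((insert u A).filter (fun y => F.Adj u y)).card = 1 := by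
      rw [Finset.filter_insert, if_neg (F.loopless.irrefl u), Finset.card_eq_one]
      refine ⟨w, ?_⟩
      ext y
      rw [mem_filter, mem_singleton]
      constructor
      · rintro ⟨h1, h2⟩
        exact huniq y h1 h2.symm
      · rintro rfl
        exact ⟨hw, hadj.symm⟩
    by_cases hcu : col u = c
    · have hcw : col w ≠ c := fun h => hcol w u hadj (by rw [h, hcu])
      rw [Finset.filter_insert, if_pos hcu, Finset.sum_insert, d3]
      · have : ∑ x ∈ A.filter (fun x => col x = c), ((insert u A).filter (fun y => F.Adj x y)).card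
            = ∑ x ∈ A.filter (fun x => col x = c), (A.filter (fun y => F.Adj x y)).card := by
          refine Finset.sum_congr rfl fun x hx => ?_
          rw [mem_filter] at hx
          refine d1 x hx.1 ?_
          rintro rfl
          exact hcw hx.2
        rw [this]
        omega
      · intro h
        exact hu (mem_filter.mp h).1
    · have hcw : col w = c := by
        have := hcol w u hadj
        cases h1 : col w <;> cases h2 : col u <;> cases c <;> simp_all
      rw [Finset.filter_insert, if_neg hcu]
      have hwm : w ∈ A.filter (fun x => col x = c) := mem_filter.mpr ⟨hw, hcw⟩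
      rw [← Finset.add_sum_erase _ _ hwm] at ih ⊢
      have : ∑ x ∈ (A.filter (fun x => col x = c)).erase w,
          ((insert u A).filter (fun y => F.Adj x y)).card
            = ∑ x ∈ (A.filter (fun x => col x = c)).erase w,
              (A.filter (fun y => F.Adj x y)).card := by
        refine Finset.sum_congr rfl fun x hx => ?_
        rw [mem_erase, mem_filter] at hx
        exact d1 x hx.2.1 hx.1
      rw [this, d2]
      omega

/-- T10 -/
lemma exists_sep (hF : F.IsAcyclic) (hF' : F.Preconnected) {u v : U} (huv : u ≠ v) :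
    ∃ w, F.Adj v w ∧ u ∉ br F v w := by
  have key : ∀ A, Grow F u A → ∀ v ∈ A, u ≠ v → ∃ w, F.Adj v w ∧ u ∉ br F v w := by
    intro A hA
    induction hA with
    | base =>
      intro v hv huv
      rw [mem_singleton] at hv
      exact absurd hv.symm huv
    | @step A w u' hA hw hu' hadj ih =>
      intro v hv huv
      rcases mem_insert.mp hv with rfl | hv
      · refine ⟨w, hadj.symm, fun h => ?_⟩
        have := hA.disj hw hu' (br_spec hF hadj.symm)
        exact (Finset.disjoint_left.mp this) hA.root h
      · exact ih v hv huv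
  exact key univ (grow_univ hF' u) v (mem_univ v) huv

end tree

end Pool.Agent.H88BC
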