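import Pool.Agent.H88BC.Blow

/-!
# Popular connected sets with free boundary have small mass
-/

set_option autoImplicit false
set_option linter.unusedSectionVars false

open Finset Classical

namespace Pool.Agent.H88BC

section ub

variable {U V : Type} [Fintype U] [Fintype V]
variable {F : SimpleGraph U} {G : SimpleGraph V} {Q : U → Finset V} {φ : U → V → ℝ}

lemma Wt_congr_phi {φ' : U → V → ℝ} {B : Finset U} (h : ∀ u ∈ B, φ u = φ' u) (X : U → V) :
    Wt F G Q φ B X = Wt F G Q φ' B X := by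
  unfold Wt
  congr 1
  exact Finset.prod_congr rfl fun u hu => by rw [h u hu]

lemma bt_congr_phi {φ' : U → V → ℝ} {B : Finset U} (h : ∀ u ∈ B, φ u = φ' u) :
    bt F G Q φ B = bt F G Q φ' B := by
  unfold bt EX
  exact EE_congr fun X => Wt_congr_phi h X

lemma bv_congr_phi {φ' : U → V → ℝ} {B : Finset U} (h : ∀ u ∈ B, φ u = φ' u) (s : U) (v : V) :
    bv F G Q φ B s v = bv F G Q φ' B s v := by
  unfold bv EX
  exact EE_congr fun X => by rw [Wt_congr_phi h]

lemma bN_congr_phi {φ' : U → V → ℝ} {B : Finset U} (h : ∀ u ∈ B, φ u = φ' u) (s : U) (z : V) :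
    bN F G Q φ B s z = bN F G Q φ' B s z :=
  Finset.sum_congr rfl fun v _ => by rw [bv_congr_phi h]

lemma peel [Nonempty V] (hF : F.IsAcyclic) (hφ : ∀ u v, 0 ≤ φ u v) {k0 : U} {K₁ : Finset U}
    (hK₁ : Grow F k0 K₁) {g : (U → V) → ℝ} (hg0 : ∀ X, 0 ≤ g X)
    (hg : ∀ X Y, (∀ u ∈ K₁, X u = Y u) → g X = g Y) (τ : U × U → ℝ) (S : Finset (U × U))
    (hS : S ⊆ bd F K₁)
    (hτ : ∀ X, g X ≠ 0 → ∀ e ∈ S, bN F G Q φ (br F e.1 e.2) e.1 (X e.2) ≤
      τ e * bt F G Q φ (br F e.1 e.2)) (hτ0 : ∀ e, 0 ≤ τ e) :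
    EX (fun X => Wt F G Q φ (K₁ ∪ S.biUnion (fun e => br F e.1 e.2)) X * g X) ≤
      (∏ e ∈ S, τ e * bt F G Q φ (br F e.1 e.2)) * EX (fun X => Wt F G Q φ K₁ X * g X) := by
  induction S using Finset.induction_on with
  | empty => simp
  | @insert e S he ih =>
    have heb := hS (mem_insert_self e S)
    have heb' := mem_bd.mp heb
    have hB := br_spec hF heb'.2.2
    have hSb : S ⊆ bd F K₁ := (subset_insert e S).trans hS
    have ih' := ih hSb fun X hX e' he' => hτ X hX e' (mem_insert_of_mem he')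
    obtain ⟨A, hA⟩ : ∃ A, A = K₁ ∪ S.biUnion (fun e => br F e.1 e.2) := ⟨_, rfl⟩
    have hdis : Disjoint A (br F e.1 e.2) := by
      rw [hA, Finset.disjoint_union_left]
      refine ⟨hK₁.disj heb'.2.1 heb'.1 hB, ?_⟩
      rw [Finset.disjoint_biUnion_left]
      intro e' he'
      refine bd_disj hF hK₁ (hSb he') heb ?_
      rintro rfl
      exact he he'
    have hun : K₁ ∪ (insert e S).biUnion (fun e => br F e.1 e.2) = A ∪ br F e.1 e.2 := by
      rw [biUnion_insert, hA, union_assoc, union_comm (br F e.1 e.2)]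
    rw [hun, EX_factor' hdis hB.1.root (by rw [hA]; exact mem_union_left _ heb'.2.1) heb'.2.2
      (fun x hx y hy hxy => hB.2.2 x hx y (fun h => (Finset.disjoint_left.mp hdis) hy h) hxy)
      (fun X Y h => hg X Y fun u hu => h u (by rw [hA]; exact mem_union_left _ hu))]
    rw [Finset.prod_insert he]
    have h0 : 0 ≤ τ e * bt F G Q φ (br F e.1 e.2) := mul_nonneg (hτ0 e) (bt_nonneg hφ _)
    calc _ ≤ EX (fun X => (τ e * bt F G Q φ (br F e.1 e.2)) * (Wt F G Q φ A X * g X)) := by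
          refine EE_mono uni_nonneg fun X _ => ?_
          by_cases hgX : g X = 0
          · rw [hgX]; simp
          · have h1 := hτ X hgX e (mem_insert_self e S)
            have h2 : 0 ≤ Wt F G Q φ A X * g X := mul_nonneg (Wt_nonneg hφ _ _) (hg0 X)
            nlinarith
      _ = (τ e * bt F G Q φ (br F e.1 e.2)) * EX (fun X => Wt F G Q φ A X * g X) :=
          EE_mul_left _ _
      _ ≤ (τ e * bt F G Q φ (br F e.1 e.2)) * ((∏ e ∈ S, τ e * bt F G Q φ (br F e.1 e.2)) *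
            EX (fun X => Wt F G Q φ K₁ X * g X)) := by
          rw [hA]
          exact mul_le_mul_of_nonneg_left ih' h0
      _ = _ := by ring

/-- few vertices are popular -/
lemma pop_card (hφ : ∀ u v, 0 ≤ φ u v) {M : ℝ} (hM : 0 < M) (hY : 0 < bt F G Q φ univ) (u : U) :
    (((univ : Finset V).filter (fun z => bt F G Q φ univ ≤ M * bv F G Q φ univ u z)).card : ℝ) ≤
      M := by
  have h1 : (((univ : Finset V).filter
      (fun z => bt F G Q φ univ ≤ M * bv F G Q φ univ u z)).card : ℝ) * bt F G Q φ univ ≤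
      M * bt F G Q φ univ := by
    calc _ = ∑ _z ∈ (univ : Finset V).filter
          (fun z => bt F G Q φ univ ≤ M * bv F G Q φ univ u z), bt F G Q φ univ := by
          rw [Finset.sum_const, nsmul_eq_mul]
      _ ≤ ∑ z ∈ (univ : Finset V).filter
          (fun z => bt F G Q φ univ ≤ M * bv F G Q φ univ u z), M * bv F G Q φ univ u z :=
          Finset.sum_le_sum fun z hz => (mem_filter.mp hz).2
      _ ≤ ∑ z, M * bv F G Q φ univ u z :=
          Finset.sum_le_sum_of_subset_of_nonneg (subset_univ _) fun z _ _ =>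
            mul_nonneg hM.le (bv_nonneg hφ _ _ _)
      _ = _ := by rw [← Finset.mul_sum, ← bt_eq]
  exact le_of_mul_le_mul_right h1 hY

lemma ub1 [Nonempty V] (hF : F.IsAcyclic) (hF' : F.Preconnected) (hφ : ∀ u v, 0 ≤ φ u v)
    {Λ : U → ℝ} (hΛ0 : ∀ u, 0 ≤ Λ u)
    (hΛ : ∀ u, ∀ z ∈ Q u, φ u z ≤ Λ u) {k0 : U} {K₁ : Finset U}
    (hK₁ : Grow F k0 K₁) {M : ℝ} (hM : 0 < M) (τ : U × U → ℝ) (hτ0 : ∀ e, 0 ≤ τ e) :
    EX (fun X => Wt F G Q φ univ X *
      ind ((∀ u ∈ K₁, bt F G Q φ univ ≤ M * bv F G Q φ univ u (X u)) ∧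
        ∀ e ∈ bd F K₁, bN F G Q φ (br F e.1 e.2) e.1 (X e.2) ≤
          τ e * bt F G Q φ (br F e.1 e.2))) ≤
      (∏ u ∈ K₁, (Λ u * (M / Fintype.card V))) *
        ∏ e ∈ bd F K₁, τ e * bt F G Q φ (br F e.1 e.2) := by
  have hn : (0 : ℝ) < Fintype.card V := by exact_mod_cast Fintype.card_pos
  have hR : 0 ≤ (∏ u ∈ K₁, (Λ u * (M / Fintype.card V))) *
        ∏ e ∈ bd F K₁, τ e * bt F G Q φ (br F e.1 e.2) := by
    refine mul_nonneg (Finset.prod_nonneg fun u _ => mul_nonneg (hΛ0 u) (by positivity))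
      (Finset.prod_nonneg fun e _ => mul_nonneg (hτ0 e) (bt_nonneg hφ _))
  rcases (bt_nonneg (F := F) (G := G) (Q := Q) hφ univ).eq_or_lt with hY | hY
  · refine le_trans ?_ hR
    rw [hY]
    refine EE_mono uni_nonneg fun X _ => ?_
    have := mul_le_mul_of_nonneg_left
      (ind_le_one ((∀ u ∈ K₁, bt F G Q φ univ ≤ M * bv F G Q φ univ u (X u)) ∧
        ∀ e ∈ bd F K₁, bN F G Q φ (br F e.1 e.2) e.1 (X e.2) ≤
          τ e * bt F G Q φ (br F e.1 e.2))) (Wt_nonneg (F := F) (G := G) (Q := Q) hφ univ X)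
    rw [mul_one] at this
    exact this
  obtain ⟨g, hg⟩ : ∃ g : (U → V) → ℝ, g = fun X =>
    ind ((∀ u ∈ K₁, bt F G Q φ univ ≤ M * bv F G Q φ univ u (X u)) ∧
        ∀ e ∈ bd F K₁, bN F G Q φ (br F e.1 e.2) e.1 (X e.2) ≤
          τ e * bt F G Q φ (br F e.1 e.2)) := ⟨_, rfl⟩
  have hg0 : ∀ X, 0 ≤ g X := fun X => by rw [hg]; exact ind_nonneg _
  have hgc : ∀ X Y, (∀ u ∈ K₁, X u = Y u) → g X = g Y := by
    intro X Y h
    rw [hg]
    simp only
    congr 1
    rw [eq_iff_iff]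
    constructor
    · rintro ⟨h1, h2⟩
      exact ⟨fun u hu => h u hu ▸ h1 u hu, fun e he => h e.2 (mem_bd.mp he).2.1 ▸ h2 e he⟩
    · rintro ⟨h1, h2⟩
      exact ⟨fun u hu => (h u hu).symm ▸ h1 u hu,
        fun e he => (h e.2 (mem_bd.mp he).2.1).symm ▸ h2 e he⟩
  have h1 := peel (G := G) (Q := Q) hF hφ hK₁ hg0 hgc τ (bd F K₁) (Finset.Subset.refl _)
    (by
      intro X hX e he
      rw [hg] at hX
      simp only at hX
      by_contra hno
      apply hX
      rw [ind_false]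
      intro h
      exact hno (h.2 e he)) hτ0
  rw [bd_cover hF hF' hK₁] at h1
  have h2 : EX (fun X => Wt F G Q φ K₁ X * g X) ≤ ∏ u ∈ K₁, (Λ u * (M / Fintype.card V)) := by
    have h3 : ∀ X : U → V, Wt F G Q φ K₁ X * g X ≤
        ∏ u ∈ K₁, (Λ u * ind (bt F G Q φ univ ≤ M * bv F G Q φ univ u (X u))) := by
      intro X
      have h4 : 0 ≤ ∏ u ∈ K₁, (Λ u * ind (bt F G Q φ univ ≤ M * bv F G Q φ univ u (X u))) :=
        Finset.prod_nonneg fun u _ => mul_nonneg (hΛ0 u) (ind_nonneg _)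
      rw [hg]
      simp only
      by_cases h5 : (∀ u ∈ K₁, bt F G Q φ univ ≤ M * bv F G Q φ univ u (X u)) ∧
        ∀ e ∈ bd F K₁, bN F G Q φ (br F e.1 e.2) e.1 (X e.2) ≤
          τ e * bt F G Q φ (br F e.1 e.2)
      swap
      · rw [ind_false h5, mul_zero]
        exact h4
      rw [ind_true h5, mul_one]
      by_cases h6 : Hm F G Q K₁ X
      swap
      · unfold Wt
        rw [ind_false h6, zero_mul]
        exact h4
      unfold Wt
      rw [ind_true h6, one_mul]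
      refine Finset.prod_le_prod (fun u _ => hφ u _) fun u hu => ?_
      rw [ind_true (h5.1 u hu), mul_one]
      exact hΛ u (X u) (h6.1 u hu)
    refine (EE_mono uni_nonneg fun X _ => h3 X).trans ?_
    have h7 := EE_prod (Ω := fun _ : U => V) (w := fun _ _ => ((Fintype.card V : ℝ))⁻¹) uni_sum K₁
      (fun u x => Λ u * ind (bt F G Q φ univ ≤ M * bv F G Q φ univ u x))
    rw [h7]
    refine Finset.prod_le_prod (fun u _ => Finset.sum_nonneg fun x _ =>
      mul_nonneg (by positivity) (mul_nonneg (hΛ0 u) (ind_nonneg _))) fun u hu => ?_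
    have h8 := pop_card (F := F) (G := G) (Q := Q) hφ hM hY u
    have h9 : ∑ x : V, (Fintype.card V : ℝ)⁻¹ *
        (Λ u * ind (bt F G Q φ univ ≤ M * bv F G Q φ univ u x)) =
        Λ u * (((univ : Finset V).filter
          (fun z => bt F G Q φ univ ≤ M * bv F G Q φ univ u z)).card / Fintype.card V) := by
      rw [← Finset.mul_sum, ← Finset.mul_sum]
      have : ∑ x : V, ind (bt F G Q φ univ ≤ M * bv F G Q φ univ u x) =
          (((univ : Finset V).filter
          (fun z => bt F G Q φ univ ≤ M * bv F G Q φ univ u z)).card : ℝ) := by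
        unfold ind
        rw [Finset.sum_ite]
        simp
      rw [this]
      field_simp
    rw [h9]
    exact mul_le_mul_of_nonneg_left (div_le_div_of_nonneg_right h8 hn.le) (hΛ0 u)
  have h10 : 0 ≤ ∏ e ∈ bd F K₁, τ e * bt F G Q φ (br F e.1 e.2) :=
    Finset.prod_nonneg fun e _ => mul_nonneg (hτ0 e) (bt_nonneg hφ _)
  calc _ = EX (fun X => Wt F G Q φ univ X * g X) := by rw [hg]
    _ ≤ _ := h1
    _ ≤ (∏ e ∈ bd F K₁, τ e * bt F G Q φ (br F e.1 e.2)) *
        ∏ u ∈ K₁, (Λ u * (M / Fintype.card V)) := mul_le_mul_of_nonneg_left h2 h10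
    _ = _ := by ring

section family

variable {Rt : U → Type} {gad : ∀ u, Gad V (Rt u)} {Λ : U → ℝ} {δ : ℝ}

lemma EG_prod_bt (hF : F.IsAcyclic) (hv : ∀ u, (gad u).Valid G (Q u) (Λ u) δ) {k0 : U}
    {K₁ : Finset U} (hK₁ : Grow F k0 K₁) (S : Finset (U × U)) (hS : S ⊆ bd F K₁) :
    EG gad (fun γ => ∏ e ∈ S, bt F G Q (phi gad γ) (br F e.1 e.2)) =
      ∏ e ∈ S, bt F G Q one (br F e.1 e.2) := by
  induction S using Finset.induction_on with
  | empty =>
    simp only [Finset.prod_empty]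
    exact EE_one fun u => (hv u).ν1
  | @insert e S he ih =>
    have heb := hS (mem_insert_self e S)
    have hSb : S ⊆ bd F K₁ := (subset_insert e S).trans hS
    have ih' := ih hSb
    rw [Finset.prod_insert he, ← ih', ← EG_bt (F := F) hv (br F e.1 e.2)]
    have h1 : ∀ γ : (∀ u, (gad u).Γ), ∏ e ∈ insert e S, bt F G Q (phi gad γ) (br F e.1 e.2) =
        bt F G Q (phi gad γ) (br F e.1 e.2) * ∏ e ∈ S, bt F G Q (phi gad γ) (br F e.1 e.2) :=
      fun γ => Finset.prod_insert he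
    unfold EG
    rw [EE_congr h1]
    have hdis : Disjoint (br F e.1 e.2) (S.biUnion (fun e => br F e.1 e.2)) := by
      rw [Finset.disjoint_biUnion_right]
      intro e' he'
      refine bd_disj hF hK₁ heb (hSb he') ?_
      rintro rfl
      exact he he'
    refine EE_indep (fun u => (hv u).ν1) hdis ?_ ?_
    · intro γ γ' h
      refine bt_congr_phi fun u hu => ?_
      unfold phi
      rw [h u hu]
    · intro γ γ' h
      refine Finset.prod_congr rfl fun e' he' => bt_congr_phi fun u hu => ?_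
      unfold phi
      rw [h u (mem_biUnion.mpr ⟨e', he', hu⟩)]

lemma ub2 [Nonempty V] (hF : F.IsAcyclic) (hF' : F.Preconnected)
    (hv : ∀ u, (gad u).Valid G (Q u) (Λ u) δ) (hΛ0 : ∀ u, 0 ≤ Λ u) {k0 : U} {K₁ : Finset U}
    (hK₁ : Grow F k0 K₁) {M : ℝ} (hM : 0 < M) (τ : U × U → ℝ) (hτ0 : ∀ e, 0 ≤ τ e) :
    EG gad (fun γ => EX (fun X => Wt F G Q (phi gad γ) univ X *
      ind ((∀ u ∈ K₁, bt F G Q (phi gad γ) univ ≤ M * bv F G Q (phi gad γ) univ u (X u)) ∧
        ∀ e ∈ bd F K₁, bN F G Q (phi gad γ) (br F e.1 e.2) e.1 (X e.2) ≤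
          τ e * bt F G Q (phi gad γ) (br F e.1 e.2)))) ≤
      (∏ u ∈ K₁, (Λ u * (M / Fintype.card V))) *
        ∏ e ∈ bd F K₁, τ e * bt F G Q one (br F e.1 e.2) := by
  have h1 : ∀ γ : (∀ u, (gad u).Γ), EX (fun X => Wt F G Q (phi gad γ) univ X *
      ind ((∀ u ∈ K₁, bt F G Q (phi gad γ) univ ≤ M * bv F G Q (phi gad γ) univ u (X u)) ∧
        ∀ e ∈ bd F K₁, bN F G Q (phi gad γ) (br F e.1 e.2) e.1 (X e.2) ≤
          τ e * bt F G Q (phi gad γ) (br F e.1 e.2))) ≤
      ((∏ u ∈ K₁, (Λ u * (M / Fintype.card V))) * ∏ e ∈ bd F K₁, τ e) *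
        ∏ e ∈ bd F K₁, bt F G Q (phi gad γ) (br F e.1 e.2) := by
    intro γ
    have h2 := ub1 (G := G) (Q := Q) hF hF' (phi_nonneg hv γ) hΛ0
      (fun u z hz => (hv u).fb z hz (γ u)) hK₁ hM τ hτ0
    rw [Finset.prod_mul_distrib (f := τ)] at h2
    rw [mul_assoc]
    exact h2
  refine (EE_mono (fun u => (hv u).ν0) fun γ _ => h1 γ).trans ?_
  rw [EE_mul_left]
  have h3 := EG_prod_bt hF hv hK₁ (bd F K₁) (Finset.Subset.refl _)
  unfold EG at h3
  rw [h3, Finset.prod_mul_distrib (f := τ), mul_assoc]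

end family

end ub

end Pool.Agent.H88BC
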