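import Pool.Agent.H88BC.Prob
import Pool.Agent.H88BC.Tree

/-!
# Weighted homomorphisms
-/

set_option autoImplicit false
set_option linter.unusedSectionVars false

open Finset Classical

namespace Pool.Agent.H88BC

section wt

variable {U V : Type} [Fintype U] [Fintype V]

/-- uniform expectation over the maps `U → V` -/
noncomputable def EX (f : (U → V) → ℝ) : ℝ :=
  EE (Ω := fun _ : U => V) (fun _ _ => ((Fintype.card V : ℝ))⁻¹) f

lemma uni_nonneg (u : U) (x : V) : 0 ≤ (fun (_ : U) (_ : V) => ((Fintype.card V : ℝ))⁻¹) u x := by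
  positivity

lemma uni_sum [Nonempty V] (u : U) :
    ∑ x : V, (fun (_ : U) (_ : V) => ((Fintype.card V : ℝ))⁻¹) u x = 1 := by
  have : (Fintype.card V : ℝ) ≠ 0 := by
    exact_mod_cast Fintype.card_ne_zero
  simp only [Finset.sum_const, Finset.card_univ, nsmul_eq_mul]
  exact mul_inv_cancel₀ this

/-- indicator -/
noncomputable def ind (p : Prop) : ℝ := if p then 1 else 0

lemma ind_nonneg (p : Prop) : 0 ≤ ind p := by
  unfold ind; split_ifs <;> norm_num

lemma ind_le_one (p : Prop) : ind p ≤ 1 := by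
  unfold ind; split_ifs <;> norm_num

lemma ind_true {p : Prop} (h : p) : ind p = 1 := if_pos h

lemma ind_false {p : Prop} (h : ¬ p) : ind p = 0 := if_neg h

lemma ind_mono {p q : Prop} (h : p → q) : ind p ≤ ind q := by
  unfold ind
  by_cases hp : p
  · rw [if_pos hp, if_pos (h hp)]
  · rw [if_neg hp]
    split_ifs <;> norm_num

lemma ind_and (p q : Prop) : ind (p ∧ q) = ind p * ind q := by
  unfold ind
  by_cases hp : p <;> by_cases hq : q <;> simp [hp, hq]

lemma sum_ind (v : V) (f : V → ℝ) : ∑ z, ind (v = z) * f z = f v := by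
  unfold ind
  simp

/-- `X` restricted to `B` is a homomorphism into the host -/
def Hm (F : SimpleGraph U) (G : SimpleGraph V) (Q : U → Finset V) (B : Finset U) (X : U → V) :
    Prop :=
  (∀ u ∈ B, X u ∈ Q u) ∧ ∀ u ∈ B, ∀ v ∈ B, F.Adj u v → G.Adj (X u) (X v)

/-- weight of `X` on `B` -/
noncomputable def Wt (F : SimpleGraph U) (G : SimpleGraph V) (Q : U → Finset V) (φ : U → V → ℝ)
    (B : Finset U) (X : U → V) : ℝ :=
  ind (Hm F G Q B X) * ∏ u ∈ B, φ u (X u)

variable {F : SimpleGraph U} {G : SimpleGraph V} {Q : U → Finset V} {φ : U → V → ℝ}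

lemma Hm_congr {B : Finset U} {X Y : U → V} (h : ∀ u ∈ B, X u = Y u) :
    Hm F G Q B X ↔ Hm F G Q B Y := by
  unfold Hm
  constructor
  · rintro ⟨h1, h2⟩
    exact ⟨fun u hu => h u hu ▸ h1 u hu, fun u hu v hv hadj => by
      rw [← h u hu, ← h v hv]; exact h2 u hu v hv hadj⟩
  · rintro ⟨h1, h2⟩
    exact ⟨fun u hu => (h u hu).symm ▸ h1 u hu, fun u hu v hv hadj => by
      rw [h u hu, h v hv]; exact h2 u hu v hv hadj⟩

lemma Wt_congr {B : Finset U} {X Y : U → V} (h : ∀ u ∈ B, X u = Y u) :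
    Wt F G Q φ B X = Wt F G Q φ B Y := by
  unfold Wt
  rw [show Hm F G Q B X = Hm F G Q B Y from propext (Hm_congr h)]
  congr 1
  exact Finset.prod_congr rfl fun u hu => by rw [h u hu]

lemma Wt_nonneg (hφ : ∀ u v, 0 ≤ φ u v) (B : Finset U) (X : U → V) : 0 ≤ Wt F G Q φ B X :=
  mul_nonneg (ind_nonneg _) (Finset.prod_nonneg fun u _ => hφ u _)

lemma Wt_union {A B : Finset U} (hAB : Disjoint A B) {s k : U} (hs : s ∈ B) (hk : k ∈ A)
    (hsk : F.Adj s k) (hc : ∀ x ∈ B, ∀ y ∈ A, F.Adj x y → x = s ∧ y = k) (X : U → V) :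
    Wt F G Q φ (A ∪ B) X = Wt F G Q φ A X * Wt F G Q φ B X * ind (G.Adj (X s) (X k)) := by
  have h1 : Hm F G Q (A ∪ B) X ↔ Hm F G Q A X ∧ Hm F G Q B X ∧ G.Adj (X s) (X k) := by
    unfold Hm
    constructor
    · rintro ⟨h1, h2⟩
      refine ⟨⟨fun u hu => h1 u (mem_union_left _ hu), fun u hu v hv =>
        h2 u (mem_union_left _ hu) v (mem_union_left _ hv)⟩,
        ⟨fun u hu => h1 u (mem_union_right _ hu), fun u hu v hv =>
        h2 u (mem_union_right _ hu) v (mem_union_right _ hv)⟩,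
        h2 s (mem_union_right _ hs) k (mem_union_left _ hk) hsk⟩
    · rintro ⟨⟨a1, a2⟩, ⟨b1, b2⟩, c⟩
      refine ⟨fun u hu => ?_, fun u hu v hv hadj => ?_⟩
      · rcases mem_union.mp hu with hu | hu
        · exact a1 u hu
        · exact b1 u hu
      · rcases mem_union.mp hu with hu | hu <;> rcases mem_union.mp hv with hv | hv
        · exact a2 u hu v hv hadj
        · obtain ⟨e1, e2⟩ := hc v hv u hu hadj.symm
          rw [e1, e2]
          exact c.symm
        · obtain ⟨e1, e2⟩ := hc u hu v hv hadj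
          rw [e1, e2]
          exact c
        · exact b2 u hu v hv hadj
  unfold Wt
  rw [show Hm F G Q (A ∪ B) X = (Hm F G Q A X ∧ Hm F G Q B X ∧ G.Adj (X s) (X k)) from propext h1,
    ind_and, ind_and, Finset.prod_union hAB]
  ring

/-- the weight of the branch `B` with root `s` mapped to `v` -/
noncomputable def bv (F : SimpleGraph U) (G : SimpleGraph V) (Q : U → Finset V) (φ : U → V → ℝ)
    (B : Finset U) (s : U) (v : V) : ℝ :=
  EX (fun X : U → V => Wt F G Q φ B X * ind (X s = v))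

/-- the total weight of the branch `B` with root adjacent to `z` -/
noncomputable def bN (F : SimpleGraph U) (G : SimpleGraph V) (Q : U → Finset V) (φ : U → V → ℝ)
    (B : Finset U) (s : U) (z : V) : ℝ :=
  ∑ v, ind (G.Adj v z) * bv F G Q φ B s v

/-- the total weight -/
noncomputable def bt (F : SimpleGraph U) (G : SimpleGraph V) (Q : U → Finset V) (φ : U → V → ℝ)
    (B : Finset U) : ℝ :=
  EX (fun X : U → V => Wt F G Q φ B X)

lemma bv_nonneg (hφ : ∀ u v, 0 ≤ φ u v) (B : Finset U) (s : U) (v : V) :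
    0 ≤ bv F G Q φ B s v :=
  EE_nonneg uni_nonneg fun _ _ => mul_nonneg (Wt_nonneg hφ B _) (ind_nonneg _)

lemma bN_nonneg (hφ : ∀ u v, 0 ≤ φ u v) (B : Finset U) (s : U) (z : V) :
    0 ≤ bN F G Q φ B s z :=
  Finset.sum_nonneg fun _ _ => mul_nonneg (ind_nonneg _) (bv_nonneg hφ B s _)

lemma bt_nonneg (hφ : ∀ u v, 0 ≤ φ u v) (B : Finset U) :
    0 ≤ bt F G Q φ B :=
  EE_nonneg uni_nonneg fun _ _ => Wt_nonneg hφ B _

/-- splitting an expectation according to the value of a coordinate -/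
lemma EX_split (k : U) (f : (U → V) → ℝ) (ψ : V → ℝ) :
    EX (fun X : U → V => f X * ψ (X k)) = ∑ z, EX (fun X : U → V => f X * ind (X k = z)) * ψ z := by
  unfold EX
  rw [← show EE (Ω := fun _ : U => V) (fun _ _ => ((Fintype.card V : ℝ))⁻¹)
      (fun X : U → V => ∑ z, (f X * ind (X k = z)) * ψ z) = _ from
    (EE_sum univ (fun z X => (f X * ind (X k = z)) * ψ z)).trans
      (Finset.sum_congr rfl fun z _ => EE_mul_right (ψ z) _)]
  refine EE_congr fun X => ?_
  rw [← sum_ind (X k) ψ, Finset.mul_sum]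
  exact Finset.sum_congr rfl fun z _ => by ring

lemma bt_eq (B : Finset U) (s : U) : bt F G Q φ B = ∑ v, bv F G Q φ B s v := by
  have h := EX_split s (fun X : U → V => Wt F G Q φ B X) (fun _ => 1)
  simp only [mul_one] at h
  exact h

lemma bN_le_bt (hφ : ∀ u v, 0 ≤ φ u v) (B : Finset U) (s : U) (z : V) :
    bN F G Q φ B s z ≤ bt F G Q φ B := by
  rw [bt_eq B s]
  unfold bN
  refine Finset.sum_le_sum fun v _ => ?_
  have := mul_le_mul_of_nonneg_right (ind_le_one (G.Adj v z)) (bv_nonneg (F := F) (G := G) (Q := Q)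
    hφ B s v)
  simpa using this

/-- the factorization of the weight at the edge `s k` -/
lemma EX_factor [Nonempty V] {A B : Finset U} (hAB : Disjoint A B) {s k : U} (hs : s ∈ B)
    (hk : k ∈ A)
    (hsk : F.Adj s k) (hc : ∀ x ∈ B, ∀ y ∈ A, F.Adj x y → x = s ∧ y = k) {g : (U → V) → ℝ}
    (hg : ∀ X Y, (∀ u ∈ A, X u = Y u) → g X = g Y) (ψ : V → V → ℝ) :
    EX (fun X : U → V => Wt F G Q φ (A ∪ B) X * g X * ψ (X s) (X k)) =
      EX (fun X : U → V => Wt F G Q φ A X * g X *
        ∑ v, ind (G.Adj v (X k)) * ψ v (X k) * bv F G Q φ B s v) := by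
  have h1 : ∀ X : U → V, Wt F G Q φ (A ∪ B) X * g X * ψ (X s) (X k) =
      ∑ v, ∑ z, (ind (G.Adj v z) * ψ v z) * ((Wt F G Q φ A X * g X * ind (X k = z)) *
        (Wt F G Q φ B X * ind (X s = v))) := by
    intro X
    rw [Wt_union hAB hs hk hsk hc]
    have h2 : ∀ v : V, ∑ z, (ind (G.Adj v z) * ψ v z) * ((Wt F G Q φ A X * g X * ind (X k = z)) *
        (Wt F G Q φ B X * ind (X s = v))) = ind (X s = v) * ((ind (G.Adj v (X k)) * ψ v (X k)) *
          (Wt F G Q φ A X * g X * Wt F G Q φ B X)) := by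
      intro v
      rw [← sum_ind (X k) (fun z => (ind (G.Adj v z) * ψ v z) *
          (Wt F G Q φ A X * g X * Wt F G Q φ B X)), Finset.mul_sum]
      exact Finset.sum_congr rfl fun z _ => by ring
    rw [Finset.sum_congr rfl fun v _ => h2 v, sum_ind (X s) (fun v =>
      (ind (G.Adj v (X k)) * ψ v (X k)) * (Wt F G Q φ A X * g X * Wt F G Q φ B X))]
    ring
  have h3 : ∀ v z, EX (fun X : U → V => (ind (G.Adj v z) * ψ v z) *
      ((Wt F G Q φ A X * g X * ind (X k = z)) * (Wt F G Q φ B X * ind (X s = v)))) =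
      (EX (fun X : U → V => Wt F G Q φ A X * g X * ind (X k = z))) *
        (ind (G.Adj v z) * ψ v z * bv F G Q φ B s v) := by
    intro v z
    unfold EX
    rw [EE_mul_left]
    have h4 : EE (Ω := fun _ : U => V) (fun _ _ => ((Fintype.card V : ℝ))⁻¹)
        (fun X : U → V => (Wt F G Q φ A X * g X * ind (X k = z)) *
          (Wt F G Q φ B X * ind (X s = v))) =
        EE (Ω := fun _ : U => V) (fun _ _ => ((Fintype.card V : ℝ))⁻¹)
          (fun X : U → V => Wt F G Q φ A X * g X * ind (X k = z)) * bv F G Q φ B s v := by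
      refine EE_indep uni_sum hAB ?_ ?_
      · intro X Y h
        rw [Wt_congr h, hg X Y h, h k hk]
      · intro X Y h
        rw [Wt_congr h, h s hs]
    rw [h4]
    ring
  unfold EX at h3 ⊢
  rw [EE_congr h1, EE_sum]
  rw [Finset.sum_congr rfl fun v _ => EE_sum _ _]
  rw [Finset.sum_congr rfl fun v _ => Finset.sum_congr rfl fun z _ => h3 v z]
  rw [Finset.sum_comm]
  have h5 := EX_split k (fun X : U → V => Wt F G Q φ A X * g X)
    (fun z => ∑ v, ind (G.Adj v z) * ψ v z * bv F G Q φ B s v)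
  unfold EX at h5
  rw [h5]
  exact Finset.sum_congr rfl fun z _ => by rw [Finset.mul_sum]

/-- the factorization without the function `ψ` -/
lemma EX_factor' [Nonempty V] {A B : Finset U} (hAB : Disjoint A B) {s k : U} (hs : s ∈ B)
    (hk : k ∈ A)
    (hsk : F.Adj s k) (hc : ∀ x ∈ B, ∀ y ∈ A, F.Adj x y → x = s ∧ y = k) {g : (U → V) → ℝ}
    (hg : ∀ X Y, (∀ u ∈ A, X u = Y u) → g X = g Y) :
    EX (fun X : U → V => Wt F G Q φ (A ∪ B) X * g X) =
      EX (fun X : U → V => Wt F G Q φ A X * g X * bN F G Q φ B s (X k)) := by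
  have h := EX_factor (Q := Q) (φ := φ) (G := G) hAB hs hk hsk hc hg (fun _ _ => 1)
  simp only [mul_one] at h
  exact h

end wt

end Pool.Agent.H88BC
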